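import Mathlib
import Pool.Agent.AEI.COIN

/-!
Approximation of measurable sets of sequences by sets given by initial segments.
-/

set_option autoImplicit false

namespace Pool.Agent.RJ

open MeasureTheory Pool.Agent.H19 Pool.Agent.AEI
open scoped ENNReal symmDiff

/-- The sets given by initial segments of a fixed length. -/
def cylRing : Set (Set (ℕ → Bool)) := {s | ∃ (N : ℕ) (p : List Bool → Bool),
  s = {X : ℕ → Bool | p (pre X N) = true}}

theorem isSetRing_cylRing : IsSetRing cylRing where
  empty_mem := ⟨0, fun _ => false, by simp⟩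
  union_mem := by
    rintro s t ⟨N, p, rfl⟩ ⟨M, q, rfl⟩
    refine ⟨max N M, fun σ => p (σ.take N) || q (σ.take M), ?_⟩
    ext X
    simp only [Set.mem_union, Set.mem_ofPred_eq, Bool.or_eq_true,
      pre_take X (le_max_left N M), pre_take X (le_max_right N M)]
  sdiff_mem := by
    rintro s t ⟨N, p, rfl⟩ ⟨M, q, rfl⟩
    refine ⟨max N M, fun σ => p (σ.take N) && !q (σ.take M), ?_⟩
    ext X
    simp only [Set.mem_sdiff, Set.mem_ofPred_eq, Bool.and_eq_true, Bool.not_eq_true',
      pre_take X (le_max_left N M), pre_take X (le_max_right N M), Bool.not_eq_true]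

theorem generateFrom_cylRing :
    (MeasurableSpace.pi : MeasurableSpace (ℕ → Bool)) = MeasurableSpace.generateFrom cylRing := by
  apply le_antisymm
  · rw [MeasurableSpace.pi]
    refine iSup_le fun n => ?_
    rw [← measurable_iff_comap_le]
    refine @measurable_to_bool _ (MeasurableSpace.generateFrom cylRing) _ ?_
    apply MeasurableSpace.measurableSet_generateFrom
    refine ⟨n + 1, fun σ => σ.getD n false, ?_⟩
    ext X
    simp only [Set.mem_preimage, Set.mem_singleton_iff, Set.mem_ofPred_eq,
      pre_getD X (Nat.lt_succ_self n)]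
  · refine MeasurableSpace.generateFrom_le ?_
    rintro s ⟨N, p, rfl⟩
    exact measurableSet_pre p N

/-- Every measurable set is approximated by sets given by initial segments. -/
theorem exists_pre_approx {S : Set (ℕ → Bool)} (hS : MeasurableSet S) {ε : ℝ≥0∞} (hε : 0 < ε) :
    ∃ (N : ℕ) (p : List Bool → Bool), coin ({X : ℕ → Bool | p (pre X N) = true} ∆ S) < ε := by
  have h1 : ({Set.univ} : Set (Set (ℕ → Bool))) ⊆ cylRing := by
    rw [Set.singleton_subset_iff]
    exact ⟨0, fun _ => true, by simp⟩
  obtain ⟨t, ⟨N, p, rfl⟩, ht⟩ := exists_measure_symmDiff_lt_of_generateFrom_isSetRing (μ := coin)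
    isSetRing_cylRing ⟨{Set.univ}, Set.countable_singleton _, h1, by simp⟩ generateFrom_cylRing hS hε
  exact ⟨N, p, ht⟩

end Pool.Agent.RJ
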