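import Mathlib
import Pool.Agent.AEI.FIN

/-!
Random joins: definitions.  The number of maps is `RR = 64 * MM`.
-/

set_option autoImplicit false

namespace Pool.Agent.RJ

open MeasureTheory Encodable Pool.Agent.H19 Pool.Agent.AEI
open Nat.Partrec (Code)

/-- The basic constant. -/
def MM : ℕ := 8192

/-- The number of maps. -/
def RR : ℕ := 64 * MM

theorem MM_eq : MM = 8192 := rfl
theorem RR_eq : RR = 64 * MM := rfl
theorem MM_pos : 0 < MM := by rw [MM_eq]; norm_num
theorem RR_pos : 0 < RR := by rw [RR_eq, MM_eq]; norm_num
theorem one_lt_RR : 1 < RR := by rw [RR_eq, MM_eq]; norm_num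

attribute [irreducible] MM RR

/-- The involutions of the set of coordinates: an `m` outside the class `i` modulo `RR` is
exchanged with `RR * m + i`. -/
def tau (i m : ℕ) : ℕ :=
  if m % RR = i then (if (m / RR) % RR = i then m else m / RR) else RR * m + i

/-- The corresponding maps on sequences. -/
def T (i : ℕ) (x : ℕ → Bool) : ℕ → Bool := fun m => x (tau i m)

open Classical in
/-- The number of `i < RR` with `p i`. -/
noncomputable def cntp (p : ℕ → Prop) : ℕ := ((Finset.range RR).filter fun i => p i).card

/-- The number of `i < RR` with `T i x ∈ B`. -/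
noncomputable def cnt (B : Set (ℕ → Bool)) (x : ℕ → Bool) : ℕ := cntp fun i => T i x ∈ B

/-- The list `a` is an initial segment of the sequence `Z`. -/
def IsPre (a : List Bool) (Z : ℕ → Bool) : Prop := a = pre Z a.length

/-- A candidate for an approximation: a length and a table. -/
abbrev Cand := ℕ × List (List Bool × List Bool)

/-- Look up a string in the table of a candidate. -/
def look (c : Cand) (σ : List Bool) : List Bool :=
  ((c.2.find? fun p => decide (p.1 = σ)).map Prod.snd).getD []

/-- The value of a candidate at a sequence. -/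
def val (c : Cand) (y : ℕ → Bool) : List Bool := look c (pre y c.1)

/-- `b` is an estimate of height `h` at `y` (the map `i` has the string functional with the code
`lab i (pre y m)`). -/
def Est (m : ℕ) (lab : ℕ → List Bool → Code) (c : Cand) : ℕ → (ℕ → Bool) → List Bool → Prop
  | 0, y, b => b <+: val c y
  | h + 1, y, b => 62 * MM ≤ cntp fun i => ∃ b' : List Bool, Est m lab c h (T i y) b' ∧
      b <+: zf (lab i (pre (T i y) m)) b'

/-- The string `a` passes the test of depth `k` at `y`. -/
def Pass (m : ℕ) (lab : ℕ → List Bool → Code) (c : Cand) : ℕ → (ℕ → Bool) → List Bool → Prop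
  | 0, y, a => val c y <+: a
  | k + 1, y, a => 62 * MM ≤ cntp fun i => Pass m lab c k (T i y) (zf (lab i (pre y m)) a)

/-- The set where the candidate is not right about `f`. -/
def errset (f : (ℕ → Bool) → (ℕ → Bool)) (c : Cand) : Set (ℕ → Bool) :=
  {y | ¬ IsPre (val c y) (f y)}

/-- The conversions are right outside `Bs`, and `Bs` is small and closed. -/
structure GoodS (f : (ℕ → Bool) → (ℕ → Bool)) (m : ℕ) (lab : ℕ → List Bool → Code)
    (Bs : Set (ℕ → Bool)) : Prop where
  meas_f : Measurable f
  comp : Computable₂ lab
  meas : MeasurableSet Bs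
  small : coin.real Bs ≤ 1 / 128
  conv : ∀ y, y ∉ Bs → ∀ i < RR, CodeComputes (lab i (pre y m)) (f y) (f (T i y))
  closed : ∀ y, y ∉ Bs → cnt Bs y < MM

/-- The candidate `c` is admissible for the height and length `j`: with probability more than
one third there is an estimate of height `j` and length at least `j`. -/
def Adm (m : ℕ) (lab : ℕ → List Bool → Code) (c : Cand) (j : ℕ) : Prop :=
  1 / 3 < coin.real {z | ∃ b : List Bool, j ≤ b.length ∧ Est m lab c j z b}

end Pool.Agent.RJ
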