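import Mathlib
import Pool.Agent.RJ.Defs

/-!
Random joins, computable part: the reals along words, segments, and certificates for estimates
and tests. A certificate is a finite list of pairs (word, string) with local checks only.
-/

set_option autoImplicit false

namespace Pool.Agent.RJ

open MeasureTheory Encodable Pool.Agent.H19 Pool.Agent.AEI
open Nat.Partrec (Code)

/-- The coordinate used by the sequence along the word `w`. -/
def idx (w : List ℕ) (k : ℕ) : ℕ := w.foldl (fun k i => tau i k) k

/-- The sequence along the word `w`: `Tw [] z = z` and `Tw (i :: w) z = T i (Tw w z)`. -/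
def Tw (w : List ℕ) (z : ℕ → Bool) : ℕ → Bool := fun k => z (idx w k)

@[simp] theorem idx_nil (k : ℕ) : idx [] k = k := rfl
@[simp] theorem idx_cons (i : ℕ) (w : List ℕ) (k : ℕ) : idx (i :: w) k = idx w (tau i k) := rfl
@[simp] theorem Tw_nil (z : ℕ → Bool) : Tw [] z = z := rfl
theorem Tw_cons (i : ℕ) (w : List ℕ) (z : ℕ → Bool) : Tw (i :: w) z = T i (Tw w z) := rfl

/-- The initial segment of length `m` of the sequence along `w`, read from `σ`. -/
def seg (σ : List Bool) (w : List ℕ) (m : ℕ) : List Bool :=
  (List.range m).map fun k => σ.getD (idx w k) false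

/-- All coordinates needed for the initial segment of length `m` along `w` are below `N`. -/
def cov (N : ℕ) (w : List ℕ) (m : ℕ) : Bool := (List.range m).all fun k => decide (idx w k < N)

/-- The number of `i < RR` with `p i`. -/
def cntb (p : ℕ → Bool) : ℕ := ((List.range RR).filter p).length

/-- Certificates. -/
abbrev Cert := List (List ℕ × List Bool)

/-- The local check of a certificate for an estimate of height `j`. -/
def chkE1 (m : ℕ) (lab : ℕ → List Bool → Code) (c : Cand) (j : ℕ) (σ : List Bool) (F : Cert)
    (q : List ℕ × List Bool) : Bool :=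
  cov σ.length q.1 (max m c.1) &&
    (if decide (q.1.length = j) then isPre q.2 (look c (seg σ q.1 c.1))
     else decide (q.1.length < j) && decide (62 * MM ≤ cntb fun i =>
       F.any fun q' => decide (q'.1 = i :: q.1) &&
         isPre q.2 (zf (lab i (seg σ (i :: q.1) m)) q'.2)))

/-- `F` is a certificate, for estimates of height `j` at the sequences extending `σ`. -/
def chkE (m : ℕ) (lab : ℕ → List Bool → Code) (c : Cand) (j : ℕ) (σ : List Bool) (F : Cert) :
    Bool := F.all (chkE1 m lab c j σ F)

/-- The certificate `F` has a string of length at least `j` at the root. -/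
def rootB (j : ℕ) (F : Cert) : Bool := F.any fun q => decide (q.1 = []) && decide (j ≤ q.2.length)

/-- The local check of a certificate for a test of depth `k`. -/
def chkP1 (m : ℕ) (lab : ℕ → List Bool → Code) (c : Cand) (k : ℕ) (σ : List Bool) (F : Cert)
    (q : List ℕ × List Bool) : Bool :=
  cov σ.length q.1 (max m c.1) &&
    (if decide (q.1.length = k) then isPre (look c (seg σ q.1 c.1)) q.2
     else decide (q.1.length < k) && decide (62 * MM ≤ cntb fun i =>
       F.any fun q' => decide (q'.1 = i :: q.1) &&
         decide (q'.2 = zf (lab i (seg σ q.1 m)) q.2)))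

/-- `F` is a certificate for a test of depth `k` at the sequences extending `σ`. -/
def chkP (m : ℕ) (lab : ℕ → List Bool → Code) (c : Cand) (k : ℕ) (σ : List Bool) (F : Cert) :
    Bool := F.all (chkP1 m lab c k σ F)

/-- The string `a` is at the root of `F`. -/
def rootS (a : List Bool) (F : Cert) : Bool := F.any fun q => decide (q.1 = []) && decide (q.2 = a)

/-- The string `σ` has a certificate in the list `A`, for an estimate of height `j` and length at
least `j`. -/
def inA (m : ℕ) (lab : ℕ → List Bool → Code) (c : Cand) (j : ℕ) (A : List (List Bool × Cert))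
    (σ : List Bool) : Bool :=
  A.any fun q => decide (q.1 = σ) && (chkE m lab c j σ q.2 && rootB j q.2)

/-- More than one third of the strings of length `N` have a certificate in `A`. -/
def chkA (m : ℕ) (lab : ℕ → List Bool → Code) (c : Cand) (j N : ℕ) (A : List (List Bool × Cert)) :
    Bool := decide ((strs N).length < 3 * ((strs N).filter (inA m lab c j A)).length)

/-- The candidate with code `n`. -/
def cand (n : ℕ) : Cand := (decode (α := Cand) n).getD (0, [])

@[simp] theorem cand_encode (c : Cand) : cand (encode c) = c := by simp [cand]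

/-- The set where there is an estimate of height `j` and length at least `j`. -/
def SE (m : ℕ) (lab : ℕ → List Bool → Code) (c : Cand) (j : ℕ) : Set (ℕ → Bool) :=
  {z | ∃ b : List Bool, j ≤ b.length ∧ Est m lab c j z b}

/-- The set outside `Bs` where there is a wrong estimate of height `j`. -/
def WE (f : (ℕ → Bool) → (ℕ → Bool)) (m : ℕ) (lab : ℕ → List Bool → Code) (Bs : Set (ℕ → Bool))
    (c : Cand) (j : ℕ) : Set (ℕ → Bool) :=
  {z | z ∉ Bs ∧ ∃ b : List Bool, Est m lab c j z b ∧ ¬ IsPre b (f z)}

/-- The set where the test of depth `k` is passed by an initial segment of `f x`. -/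
def PE (f : (ℕ → Bool) → (ℕ → Bool)) (m : ℕ) (lab : ℕ → List Bool → Code)
    (c : Cand) (k : ℕ) : Set (ℕ → Bool) :=
  {x | ∃ t : ℕ, Pass m lab c k x (pre (f x) t)}

end Pool.Agent.RJ
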