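import Mathlib
import Pool.Agent.RJ.CDF

/-!
Total functions recursive in an oracle: change of the oracle, joins, search.
-/

set_option autoImplicit false

namespace Pool.Agent.RJ

open Encodable Pool.Agent.H19 Pool.Agent.AEI

theorem totRec_iff {Z : ℕ → Bool} {f : ℕ → ℕ} :
    TotRec Z f ↔ TuringReducible (fun n => Part.some (f n)) (chi Z) :=
  RecursiveIn.iff_nat.symm

theorem totRec_mono {Z Z' : ℕ → Bool} {f : ℕ → ℕ} (h : TotRec Z f)
    (hZ : TuringReducible (chi Z) (chi Z')) : TotRec Z' f :=
  totRec_iff.2 ((totRec_iff.1 h).trans hZ)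

/-- A computable function of `n` and an initial segment of the oracle. -/
theorem totRec_of_pre {Z : ℕ → Bool} {F : ℕ → List Bool → ℕ} (hF : Computable₂ F) {g : ℕ → ℕ}
    (hg : TotRec Z g) : TotRec Z (fun n => F n (pre Z (g n))) := by
  have h1 : Computable₂ (fun (n i : ℕ) => F n ((decode (α := List Bool) i).getD [])) :=
    hF.comp Computable.fst (Computable.option_getD (Computable.decode.comp Computable.snd)
      (Computable.const []))
  refine (TotRec.comp_computable₂ h1 (TotRec.of_computable Computable.id)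
    ((TotRec.pre Z).comp hg) : Nat.RecursiveIn _ _).of_eq fun n => ?_
  simp

/-- Three arguments. -/
theorem totRec_comp3 {Z : ℕ → Bool} {F : ℕ → ℕ → ℕ → ℕ}
    (hF : Computable fun p : ℕ × (ℕ × ℕ) => F p.1 p.2.1 p.2.2) {a b c : ℕ → ℕ}
    (ha : TotRec Z a) (hb : TotRec Z b) (hc : TotRec Z c) :
    TotRec Z (fun n => F (a n) (b n) (c n)) := by
  have h1 : Computable₂ (fun (x y : ℕ) => F x y.unpair.1 y.unpair.2) :=
    hF.comp (Computable.pair Computable.fst (Computable.pair
      (Computable.fst.comp (Computable.unpair.comp Computable.snd))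
      (Computable.snd.comp (Computable.unpair.comp Computable.snd))))
  refine (TotRec.comp_computable₂ h1 ha (hb.pair hc) : Nat.RecursiveIn _ _).of_eq fun n => ?_
  simp

/-- Uniformization: if every `n` has a `q` with `t n q = 0` then some function recursive in the
oracle finds one. -/
theorem exists_select {Z : ℕ → Bool} {t : ℕ → ℕ → ℕ}
    (ht : TotRec Z (fun p => t p.unpair.1 p.unpair.2)) (h : ∀ n, ∃ q, t n q = 0) :
    ∃ g : ℕ → ℕ, TotRec Z g ∧ ∀ n, t n (g n) = 0 := by
  obtain ⟨g, hg, hg0⟩ := TotRec.find ht (by simpa using h)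
  exact ⟨g, hg, fun n => by simpa using hg0 n⟩

/-- `B ≤_T Z` in terms of `TotRec`. -/
theorem totRec_bool_iff {Z B : ℕ → Bool} :
    TotRec Z (fun n => if B n then 1 else 0) ↔ TuringReducible (chi B) (chi Z) :=
  RecursiveIn.iff_nat.symm

/-- A set is recursive in the oracle if for every `n` a search finds an `q` which passes the test,
and every such `q` gives the right value. -/
theorem red_of_search {Z B : ℕ → Bool} {t o : ℕ → ℕ → ℕ}
    (ht : TotRec Z (fun p => t p.unpair.1 p.unpair.2))
    (ho : TotRec Z (fun p => o p.unpair.1 p.unpair.2)) (h : ∀ n, ∃ q, t n q = 0)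
    (h2 : ∀ n q, t n q = 0 → o n q = if B n then 1 else 0) :
    TuringReducible (chi B) (chi Z) := by
  obtain ⟨g, hg, hg0⟩ := exists_select ht h
  rw [← totRec_bool_iff]
  have h1 := ho.comp ((TotRec.of_computable Computable.id).pair hg)
  refine (h1 : Nat.RecursiveIn _ _).of_eq fun n => ?_
  simp only [Nat.unpair_pair, id_eq]
  rw [h2 n (g n) (hg0 n)]

end Pool.Agent.RJ
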