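import Mathlib
import Pool.Agent.RJ.Defs

/-!
The involutions `tau` and the maps `T`: elementary facts.
-/

set_option autoImplicit false

namespace Pool.Agent.RJ

open MeasureTheory Encodable Pool.Agent.H19 Pool.Agent.AEI
open Nat.Partrec (Code)

theorem tau_eq1 {i m : ℕ} (h : m % RR = i) (h2 : m / RR % RR = i) : tau i m = m := by
  unfold tau
  rw [if_pos h, if_pos h2]

theorem tau_eq2 {i m : ℕ} (h : m % RR = i) (h2 : ¬ m / RR % RR = i) : tau i m = m / RR := by
  unfold tau
  rw [if_pos h, if_neg h2]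

theorem tau_eq3 {i m : ℕ} (h : ¬ m % RR = i) : tau i m = RR * m + i := by
  unfold tau
  rw [if_neg h]

theorem tau_lt {i m : ℕ} (hi : i < RR) : tau i m < RR * (m + 1) := by
  have hR := RR_pos
  have h1 : m < RR * (m + 1) :=
    calc m < m + 1 := Nat.lt_succ_self m
      _ = 1 * (m + 1) := (one_mul _).symm
      _ ≤ RR * (m + 1) := Nat.mul_le_mul_right _ hR
  by_cases h : m % RR = i
  · by_cases h2 : m / RR % RR = i
    · rw [tau_eq1 h h2]
      exact h1
    · rw [tau_eq2 h h2]
      exact lt_of_le_of_lt (Nat.div_le_self m RR) h1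
  · rw [tau_eq3 h, Nat.mul_succ]
    exact Nat.add_lt_add_left hi _

theorem tau_tau {i : ℕ} (hi : i < RR) (m : ℕ) : tau i (tau i m) = m := by
  have hR := RR_pos
  by_cases h : m % RR = i
  · by_cases h2 : m / RR % RR = i
    · rw [tau_eq1 h h2, tau_eq1 h h2]
    · rw [tau_eq2 h h2, tau_eq3 h2]
      have h3 := Nat.div_add_mod m RR
      rw [h] at h3
      exact h3
  · have h1 : (RR * m + i) % RR = i := by
      rw [Nat.mul_add_mod, Nat.mod_eq_of_lt hi]
    have h2 : (RR * m + i) / RR = m := by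
      rw [Nat.mul_add_div hR, Nat.div_eq_of_lt hi, add_zero]
    have h3 : ¬ (RR * m + i) / RR % RR = i := by rw [h2]; exact h
    rw [tau_eq3 h, tau_eq2 h1 h3, h2]

theorem tau_mem {i m : ℕ} (hi : i < RR) (h : m % RR ≠ i) : tau i m % RR = i := by
  rw [tau_eq3 h, Nat.mul_add_mod, Nat.mod_eq_of_lt hi]

theorem comp_tau2 : Computable₂ tau := by
  have hm : Primrec (fun p : ℕ × ℕ => p.2 % RR) :=
    Primrec.nat_mod.comp Primrec.snd (Primrec.const RR)
  have hd : Primrec (fun p : ℕ × ℕ => p.2 / RR) :=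
    Primrec.nat_div.comp Primrec.snd (Primrec.const RR)
  have hdm : Primrec (fun p : ℕ × ℕ => p.2 / RR % RR) :=
    Primrec.nat_mod.comp hd (Primrec.const RR)
  have h1 : Primrec (fun p : ℕ × ℕ => if p.2 / RR % RR = p.1 then p.2 else p.2 / RR) :=
    Primrec.ite (Primrec.eq.comp hdm Primrec.fst) Primrec.snd hd
  have h2 : Primrec (fun p : ℕ × ℕ => RR * p.2 + p.1) :=
    Primrec.nat_add.comp (Primrec.nat_mul.comp (Primrec.const RR) Primrec.snd) Primrec.fst
  have h3 : Primrec (fun p : ℕ × ℕ => tau p.1 p.2) :=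
    Primrec.ite (Primrec.eq.comp hm Primrec.fst) h1 h2
  exact h3.to_comp

theorem comp_tau1 (i : ℕ) : Computable (tau i) :=
  comp_tau2.comp (Computable.const i) Computable.id

theorem T_T {i : ℕ} (hi : i < RR) (x : ℕ → Bool) : T i (T i x) = x := by
  funext m
  show x (tau i (tau i m)) = x m
  rw [tau_tau hi]

theorem T_le {i : ℕ} (_hi : i < RR) (x : ℕ → Bool) : TuringReducible (chi (T i x)) (chi x) :=
  red_of_index (comp_tau1 i) fun _ => rfl

theorem measurable_T (i : ℕ) : Measurable (T i) :=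
  measurable_pi_lambda _ fun m => measurable_pi_apply (tau i m)

theorem pre_eq_iff_tau {X Y : ℕ → Bool} {s : ℕ} : pre X s = pre Y s ↔ ∀ p < s, X p = Y p := by
  unfold pre
  rw [List.map_inj_left]
  simp only [List.mem_range]

/-- `T i x` to the length `N` depends only on `x` to the length `RR * N`. -/
theorem pre_T_congr {i : ℕ} (hi : i < RR) {x y : ℕ → Bool} {N : ℕ}
    (h : pre x (RR * N) = pre y (RR * N)) : pre (T i x) N = pre (T i y) N := by
  rw [pre_eq_iff_tau] at h ⊢
  intro p hp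
  exact h _ (lt_of_lt_of_le (tau_lt hi) (Nat.mul_le_mul_left RR hp))

end Pool.Agent.RJ
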