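import Mathlib
import Pool.Agent.RJ.TAU

/-!
Measure preserving maps.
-/

set_option autoImplicit false

namespace Pool.Agent.RJ

open MeasureTheory Encodable Pool.Agent.H19 Pool.Agent.AEI
open Nat.Partrec (Code)

theorem mp_T {i : ℕ} (hi : i < RR) : MeasurePreserving (T i) coin coin := by
  refine ⟨measurable_T i, ?_⟩
  have hinj : Function.Injective (tau i) := fun a b hab => by
    rw [← tau_tau hi a, hab, tau_tau hi b]
  refine Measure.eq_infinitePi _ fun s t ht => ?_
  rw [Measure.map_apply (measurable_T i) (.pi s.countable_toSet fun _ _ => ht _)]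
  have hset : T i ⁻¹' ((s : Set ℕ).pi t) =
      ((s.image (tau i) : Finset ℕ) : Set ℕ).pi fun m => t (tau i m) := by
    ext x
    simp only [Set.mem_preimage, Set.mem_pi, Finset.coe_image, Set.forall_mem_image]
    refine forall₂_congr fun m _ => ?_
    rw [tau_tau hi]
    rfl
  rw [hset, coin, Measure.infinitePi_pi _ fun m _ => ht _,
    Finset.prod_image fun a _ b _ hab => hinj hab]
  exact Finset.prod_congr rfl fun m _ => by rw [tau_tau hi]

theorem measurable_jn : Measurable fun p : (ℕ → Bool) × (ℕ → Bool) => jn p.1 p.2 := by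
  refine measurable_pi_iff.2 fun n => ?_
  unfold jn
  by_cases h : n % 2 = 0
  · simp only [h, if_true]
    exact (measurable_pi_apply _).comp measurable_fst
  · simp only [h, if_false]
    exact (measurable_pi_apply _).comp measurable_snd

theorem mp_jn : MeasurePreserving (fun p : (ℕ → Bool) × (ℕ → Bool) => jn p.1 p.2)
    (coin.prod coin) coin := by
  refine ⟨measurable_jn, ?_⟩
  refine Measure.eq_infinitePi _ fun s t ht => ?_
  rw [Measure.map_apply measurable_jn (.pi s.countable_toSet fun _ _ => ht _)]
  set s0 := s.filter fun n => n % 2 = 0 with hs0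
  set s1 := s.filter fun n => ¬ n % 2 = 0 with hs1
  have hset : (fun p : (ℕ → Bool) × (ℕ → Bool) => jn p.1 p.2) ⁻¹' ((s : Set ℕ).pi t) =
      (((s0.image fun n => n / 2 : Finset ℕ) : Set ℕ).pi fun m => t (2 * m)) ×ˢ
      (((s1.image fun n => n / 2 : Finset ℕ) : Set ℕ).pi fun m => t (2 * m + 1)) := by
    ext p
    simp only [Set.mem_preimage, Set.mem_prod, Set.mem_pi, Finset.coe_image, Set.forall_mem_image,
      hs0, hs1, Finset.coe_filter, Finset.mem_coe]
    constructor
    · intro h
      constructor
      · rintro n ⟨hn, hn2⟩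
        have := h n hn
        rw [jn, if_pos hn2] at this
        rwa [show 2 * (n / 2) = n by omega]
      · rintro n ⟨hn, hn2⟩
        have := h n hn
        rw [jn, if_neg hn2] at this
        rwa [show 2 * (n / 2) + 1 = n by omega]
    · rintro ⟨h0, h1⟩ n hn
      by_cases hn2 : n % 2 = 0
      · have := h0 ⟨hn, hn2⟩
        rw [show 2 * (n / 2) = n by omega] at this
        rw [jn, if_pos hn2]
        exact this
      · have := h1 ⟨hn, hn2⟩
        rw [show 2 * (n / 2) + 1 = n by omega] at this
        rw [jn, if_neg hn2]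
        exact this
  rw [hset, Measure.prod_prod, coin, Measure.infinitePi_pi _ fun m _ => ht _,
    Measure.infinitePi_pi _ fun m _ => ht _, Finset.prod_image, Finset.prod_image,
    ← Finset.prod_filter_mul_prod_filter_not s fun n => n % 2 = 0]
  · congr 1
    · refine Finset.prod_congr rfl fun n hn => ?_
      rw [show 2 * (n / 2) = n by have := (Finset.mem_filter.1 hn).2; omega]
    · refine Finset.prod_congr rfl fun n hn => ?_
      rw [show 2 * (n / 2) + 1 = n by have := (Finset.mem_filter.1 hn).2; omega]
  · intro a ha b hb hab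
    have h1 := (Finset.mem_filter.1 (Finset.mem_coe.1 ha)).2
    have h2 := (Finset.mem_filter.1 (Finset.mem_coe.1 hb)).2
    simp only at hab
    omega
  · intro a ha b hb hab
    have h1 := (Finset.mem_filter.1 (Finset.mem_coe.1 ha)).2
    have h2 := (Finset.mem_filter.1 (Finset.mem_coe.1 hb)).2
    simp only at hab
    omega

theorem measurable_pre {β : Type*} [MeasurableSpace β] (s : ℕ) (g : List Bool → β) :
    Measurable fun y : ℕ → Bool => g (pre y s) := by
  intro A _
  classical
  have h := measurableSet_pre (fun σ => decide (g σ ∈ A)) s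
  convert h using 1
  ext y
  simp

theorem real_preimage_T {i : ℕ} (hi : i < RR) {B : Set (ℕ → Bool)} (hB : MeasurableSet B) :
    coin.real (T i ⁻¹' B) = coin.real B := by
  rw [measureReal_def, measureReal_def, (mp_T hi).measure_preimage hB.nullMeasurableSet]

end Pool.Agent.RJ
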