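import Mathlib
import Pool.Agent.RJ.MPR

/-!
Measurability of Turing reductions.
-/

set_option autoImplicit false

namespace Pool.Agent.RJ

open MeasureTheory Encodable Pool.Agent.H19 Pool.Agent.AEI
open Nat.Partrec (Code)

theorem meas_pre_pred {α : Type*} [MeasurableSpace α] {f : α → (ℕ → Bool)}
    (hf : Measurable f) (s : ℕ) (P : List Bool → Prop) :
    MeasurableSet {a | P (pre (f a) s)} := by
  classical
  have h := measurableSet_pre (fun σ => decide (P σ)) s
  have h2 := hf h
  convert h2 using 1
  ext a
  simp

theorem meas_coord {α : Type*} [MeasurableSpace α] {g : α → (ℕ → Bool)}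
    (hg : Measurable g) (n : ℕ) (Q : Bool → Prop) :
    MeasurableSet {a | Q (g a n)} := by
  have h1 : Measurable fun a => g a n := (measurable_pi_apply n).comp hg
  exact h1 (MeasurableSet.of_discrete (s := {b | Q b}))

theorem meas_computes {α : Type*} [MeasurableSpace α] {f g : α → (ℕ → Bool)}
    (hf : Measurable f) (hg : Measurable g) (c : Code) :
    MeasurableSet {a | CodeComputes c (f a) (g a)} := by
  have h1 : MeasurableSet {a | ∀ n s v, v ∈ c.eval (encode (n, pre (f a) s)) →
      v = if g a n then 1 else 0} := by
    have e : {a | ∀ n s v, v ∈ c.eval (encode (n, pre (f a) s)) →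
        v = if g a n then 1 else 0} = ⋂ n : ℕ, ⋂ s : ℕ, ⋂ v : ℕ,
          ({a | ¬ v ∈ c.eval (encode (n, pre (f a) s))} ∪ {a | v = if g a n then 1 else 0}) := by
      ext a
      simp only [Set.mem_ofPred_eq, Set.mem_iInter, Set.mem_union]
      constructor
      · intro h n s v
        by_cases hv : v ∈ c.eval (encode (n, pre (f a) s))
        · exact Or.inr (h n s v hv)
        · exact Or.inl hv
      · intro h n s v hv
        rcases h n s v with h | h
        · exact absurd hv h
        · exact h
    rw [e]
    refine MeasurableSet.iInter fun n => MeasurableSet.iInter fun s => MeasurableSet.iInter fun v =>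
      MeasurableSet.union ?_ ?_
    · exact meas_pre_pred hf s fun σ => ¬ v ∈ c.eval (encode (n, σ))
    · exact meas_coord hg n fun b => v = if b then 1 else 0
  have h2 : MeasurableSet {a | ∀ n, ∃ s, (if g a n then 1 else 0) ∈
      c.eval (encode (n, pre (f a) s))} := by
    have e : {a | ∀ n, ∃ s, (if g a n then 1 else 0) ∈ c.eval (encode (n, pre (f a) s))} =
        ⋂ n : ℕ, ⋃ s : ℕ, ⋃ b : Bool,
          ({a | g a n = b} ∩ {a | (if b then 1 else 0) ∈ c.eval (encode (n, pre (f a) s))}) := by
      ext a
      simp only [Set.mem_ofPred_eq, Set.mem_iInter, Set.mem_iUnion, Set.mem_inter_iff]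
      refine forall_congr' fun n => exists_congr fun s => ?_
      constructor
      · intro h
        exact ⟨g a n, rfl, h⟩
      · rintro ⟨b, rfl, h⟩
        exact h
    rw [e]
    refine MeasurableSet.iInter fun n => MeasurableSet.iUnion fun s => MeasurableSet.iUnion fun b =>
      MeasurableSet.inter ?_ ?_
    · exact meas_coord hg n fun b' => b' = b
    · exact meas_pre_pred hf s fun σ => (if b then 1 else 0) ∈ c.eval (encode (n, σ))
  exact h1.inter h2

theorem meas_red {α : Type*} [MeasurableSpace α] {f g : α → (ℕ → Bool)}
    (hf : Measurable f) (hg : Measurable g) :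
    MeasurableSet {a | TuringReducible (chi (f a)) (chi (g a))} := by
  have e : {a | TuringReducible (chi (f a)) (chi (g a))} =
      ⋃ c : Code, {a | CodeComputes c (g a) (f a)} := by
    ext a
    simp only [Set.mem_ofPred_eq, Set.mem_iUnion]
    constructor
    · intro h
      exact exists_codeComputes h
    · rintro ⟨c, h⟩
      exact turingReducible_of_codeComputes h
  rw [e]
  exact MeasurableSet.iUnion fun c => meas_computes hg hf c

end Pool.Agent.RJ
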