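import Mathlib
import Pool.Agent.RJ.CAP
import Pool.Agent.RJ.CUT
import Pool.Agent.RJ.MEA

/-!
Sacks: if positively many `z` compute `A` together with `B` then `B` computes `A`.
-/

set_option autoImplicit false

namespace Pool.Agent.RJ

open MeasureTheory Encodable Pool.Agent.H19 Pool.Agent.AEI
open Nat.Partrec (Code)
open scoped ENNReal symmDiff

theorem measurableSet_codeComputes (e : Code) (A B : ℕ → Bool) :
    MeasurableSet {z : ℕ → Bool | CodeComputes e (jn B z) A} :=
  meas_computes (measurable_jn.comp (measurable_const.prodMk measurable_id)) measurable_const e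

/-- The join of two strings of the same length. -/
def jns (β τ : List Bool) : List Bool :=
  (List.range (2 * τ.length)).map fun n =>
    if decide (n % 2 = 0) then β.getD (n / 2) false else τ.getD (n / 2) false

theorem jns_pre (B z : ℕ → Bool) (L : ℕ) : jns (pre B L) (pre z L) = pre (jn B z) (2 * L) := by
  rw [jns, pre_length]
  refine List.map_congr_left fun n hn => ?_
  rw [List.mem_range] at hn
  have h1 : n / 2 < L := by omega
  by_cases h : n % 2 = 0
  · simp only [jn, h, decide_true, if_true]
    exact pre_getD B h1 false
  · simp only [jn, h, decide_false, if_false, Bool.false_eq_true]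
    exact pre_getD z h1 false

/-- The vote for the value `v`. -/
def vote (e : Code) (N : ℕ) (PL : List (List Bool)) (v n : ℕ) (β : List Bool) : Bool :=
  decide (N ≤ β.length) &&
    decide (((strs β.length).filter fun τ => PL.any fun ρ => decide (ρ = τ.take N)).length <
      2 * ((strs β.length).filter fun τ => (PL.any fun ρ => decide (ρ = τ.take N)) &&
        hit v e n (jns β τ)).length)

theorem comp_jns {α : Type*} [Primcodable α] {β τ : α → List Bool} (hβ : Computable β)
    (hτ : Computable τ) : Computable fun a => jns (β a) (τ a) := by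
  refine comp_list_map (g := fun a n =>
    if decide (n % 2 = 0) then (β a).getD (n / 2) false else (τ a).getD (n / 2) false)
    (comp_range (Primrec.nat_mul.to_comp.comp (Computable.const 2)
      (Computable.list_length.comp hτ))) ?_
  have hd : Computable (fun x : α × ℕ => x.2 / 2) := comp_div Computable.snd (Computable.const 2)
  exact comp_ite (c := fun x : α × ℕ => decide (x.2 % 2 = 0))
    (comp_decEq (comp_mod Computable.snd (Computable.const 2)) (Computable.const 0))
    (comp_getD (hβ.comp Computable.fst) hd) (comp_getD (hτ.comp Computable.fst) hd)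

theorem comp_vote (e : Code) (N : ℕ) (PL : List (List Bool)) (v : ℕ) :
    Computable₂ fun (n : ℕ) (β : List Bool) => vote e N PL v n β := by
  have h0 : Computable fun x : ℕ × List Bool => x.2.length :=
    Computable.list_length.comp Computable.snd
  have h1 : Computable fun x : ℕ × List Bool => strs x.2.length := comp_strs.comp h0
  have h2 : Computable fun y : (ℕ × List Bool) × List Bool =>
      PL.any fun ρ => decide (ρ = y.2.take N) := by
    refine comp_list_any (f := fun _ => PL)
      (g := fun (y : (ℕ × List Bool) × List Bool) (ρ : List Bool) => decide (ρ = y.2.take N))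
      (Computable.const PL) ?_
    exact comp_decEq Computable.snd
      (comp_take (Computable.const N) (Computable.snd.comp Computable.fst))
  have h3 : Computable fun x : ℕ × List Bool =>
      (strs x.2.length).filter fun τ => PL.any fun ρ => decide (ρ = τ.take N) := by
    refine comp_list_filter
      (g := fun (_ : ℕ × List Bool) (τ : List Bool) => PL.any fun ρ => decide (ρ = τ.take N)) h1 ?_
    exact h2
  have h4 : Computable fun x : ℕ × List Bool =>
      (strs x.2.length).filter fun τ => (PL.any fun ρ => decide (ρ = τ.take N)) &&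
        hit v e x.1 (jns x.2 τ) := by
    refine comp_list_filter (g := fun (x : ℕ × List Bool) (τ : List Bool) =>
      (PL.any fun ρ => decide (ρ = τ.take N)) && hit v e x.1 (jns x.2 τ)) h1 ?_
    refine comp_and h2 (comp_hit (Computable.const v) (Computable.const e)
      (Computable.fst.comp Computable.fst) (comp_jns (Computable.snd.comp Computable.fst)
        Computable.snd))
  refine comp_and (comp_decLe (Computable.const N) h0) (comp_decLt ?_ ?_)
  · exact Computable.list_length.comp h3
  · exact Primrec.nat_mul.to_comp.comp (Computable.const 2) (Computable.list_length.comp h4)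

theorem pow_half_pos (L : ℕ) : (2 : ℝ≥0∞)⁻¹ ^ L ≠ 0 := by
  have : (2 : ℝ≥0∞)⁻¹ ≠ 0 := ENNReal.inv_ne_zero.2 (by simp)
  exact pow_ne_zero _ this

theorem pow_half_top (L : ℕ) : (2 : ℝ≥0∞)⁻¹ ^ L ≠ ⊤ := by
  refine ENNReal.pow_ne_top ?_
  exact ENNReal.inv_ne_top.2 (by simp)

/-- The vote in terms of measure. -/
theorem vote_iff {e : Code} {N : ℕ} {p : List Bool → Bool} {v n L : ℕ} {B : ℕ → Bool}
    (hL : N ≤ L) : vote e N ((strs N).filter p) v n (pre B L) = true ↔
      coin {X : ℕ → Bool | p (pre X N) = true} <
        2 * coin {X : ℕ → Bool | p (pre X N) = true ∧ hit v e n (pre (jn B X) (2 * L)) = true} := by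
  have hp : ∀ τ : List Bool, τ.length = L →
      (((strs N).filter p).any fun ρ => decide (ρ = τ.take N)) = p (τ.take N) := by
    intro τ hτ
    rw [Bool.eq_iff_iff, List.any_eq_true]
    constructor
    · rintro ⟨ρ, h1, h2⟩
      rw [decide_eq_true_eq] at h2
      rw [← h2]
      exact (List.mem_filter.1 h1).2
    · intro h
      refine ⟨τ.take N, List.mem_filter.2 ⟨mem_strs.2 ?_, h⟩, by simp⟩
      rw [List.length_take, hτ]
      omega
  have h1 : ((strs L).filter fun τ => ((strs N).filter p).any fun ρ => decide (ρ = τ.take N)) =
      (strs L).filter fun τ => p (τ.take N) := by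
    refine List.filter_congr fun τ hτ => ?_
    exact hp τ (mem_strs.1 hτ)
  have h2 : ((strs L).filter fun τ => (((strs N).filter p).any fun ρ => decide (ρ = τ.take N)) &&
      hit v e n (jns (pre B L) τ)) =
      (strs L).filter fun τ => p (τ.take N) && hit v e n (jns (pre B L) τ) := by
    refine List.filter_congr fun τ hτ => ?_
    rw [hp τ (mem_strs.1 hτ)]
  have e1 : {X : ℕ → Bool | p (pre X N) = true} =
      {X : ℕ → Bool | (fun τ : List Bool => p (τ.take N)) (pre X L) = true} := by
    ext X
    simp only [Set.mem_ofPred_eq, pre_take X hL]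
  have e2 : {X : ℕ → Bool | p (pre X N) = true ∧ hit v e n (pre (jn B X) (2 * L)) = true} =
      {X : ℕ → Bool | (fun τ : List Bool => p (τ.take N) && hit v e n (jns (pre B L) τ))
        (pre X L) = true} := by
    ext X
    simp only [Set.mem_ofPred_eq, pre_take X hL, Bool.and_eq_true, jns_pre]
  have c1 := coin_count (fun τ : List Bool => p (τ.take N)) L
  have c2 := coin_count (fun τ : List Bool => p (τ.take N) && hit v e n (jns (pre B L) τ)) L
  rw [vote, pre_length, h1, h2, e1, e2, c1, c2, ← mul_assoc,
    ENNReal.mul_lt_mul_iff_left (pow_half_pos L) (pow_half_top L)]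
  simp only [hL, decide_true, Bool.true_and, decide_eq_true_eq]
  norm_cast

/-- A computable majority vote. -/
theorem red_of_majority {A B : ℕ → Bool} {e : Code} {N : ℕ} {p : List Bool → Bool}
    (h : 4 * coin ({X : ℕ → Bool | p (pre X N) = true} \ {z | CodeComputes e (jn B z) A}) <
      coin {X : ℕ → Bool | p (pre X N) = true}) :
    TuringReducible (chi A) (chi B) := by
  set U := {X : ℕ → Bool | p (pre X N) = true} with hU
  set S := {z : ℕ → Bool | CodeComputes e (jn B z) A} with hS
  have hfin : ∀ s : Set (ℕ → Bool), coin s ≠ ⊤ := fun s => measure_ne_top _ _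
  refine red_of_option (F := fun n β =>
    if vote e N ((strs N).filter p) 1 n β then some true else
      if vote e N ((strs N).filter p) 0 n β then some false else none) ?_ ?_ ?_
  · exact comp_ite (c := fun x : ℕ × List Bool => vote e N ((strs N).filter p) 1 x.1 x.2)
      (comp_vote e N _ 1) (Computable.const _)
      (comp_ite (c := fun x : ℕ × List Bool => vote e N ((strs N).filter p) 0 x.1 x.2)
        (comp_vote e N _ 0) (Computable.const _) (Computable.const _))
  · have key : ∀ v n L, vote e N ((strs N).filter p) v n (pre B L) = true →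
        v = if A n then 1 else 0 := by
      intro v n L hv
      have hL : N ≤ L := by
        have : vote e N ((strs N).filter p) v n (pre B L) = true := hv
        rw [vote, Bool.and_eq_true, decide_eq_true_eq, pre_length] at this
        exact this.1
      rw [vote_iff hL] at hv
      by_contra hno
      have hsub : {X : ℕ → Bool | p (pre X N) = true ∧ hit v e n (pre (jn B X) (2 * L)) = true} ⊆
          U \ S := by
        rintro X ⟨h1, h2⟩
        refine ⟨h1, fun hX => hno ?_⟩
        obtain ⟨t, ht⟩ := exists_hit.2 ⟨_, h2⟩
        exact hX.1 n t v ht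
      have h1 : coin U < 2 * coin (U \ S) := hv.trans_le (by gcongr)
      have h2 : 2 * coin (U \ S) ≤ 4 * coin (U \ S) := by
        gcongr
        norm_num
      exact absurd (h1.trans_le (h2.trans h.le)) (lt_irrefl _)
    intro n L b hb
    split_ifs at hb with h1 h2
    · have := key 1 n L h1
      cases hA : A n
      · rw [hA] at this; simp at this
      · simpa using hb.symm
    · have := key 0 n L h2
      cases hA : A n
      · simpa using hb.symm
      · rw [hA] at this; simp at this
  · intro n
    let v : ℕ := if A n then 1 else 0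
    have hmono : Monotone fun L : ℕ =>
        {X : ℕ → Bool | p (pre X N) = true ∧ hit v e n (pre (jn B X) (2 * L)) = true} := by
      rintro L L' hLL X ⟨h1, h2⟩
      exact ⟨h1, hit_mono (pre_mono _ (by omega)) h2⟩
    have hsub : U ∩ S ⊆ ⋃ L : ℕ,
        {X : ℕ → Bool | p (pre X N) = true ∧ hit v e n (pre (jn B X) (2 * L)) = true} := by
      rintro X ⟨h1, h2⟩
      obtain ⟨t, ht⟩ := exists_hit.1 (h2.2 n)
      rw [Set.mem_iUnion]
      exact ⟨t, h1, hit_mono (pre_mono _ (by omega)) ht⟩
    have hSm : MeasurableSet S := measurableSet_codeComputes e A B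
    have h3 : coin U = coin (U ∩ S) + coin (U \ S) := (measure_inter_add_sdiff U hSm).symm
    have h4 : coin U < 2 * coin (⋃ L : ℕ,
        {X : ℕ → Bool | p (pre X N) = true ∧ hit v e n (pre (jn B X) (2 * L)) = true}) := by
      refine lt_of_lt_of_le ?_ (mul_le_mul_right (measure_mono hsub) 2)
      rw [h3] at h ⊢
      have ha := hfin (U ∩ S)
      have hb := hfin (U \ S)
      have h5 : coin (U \ S) < coin (U ∩ S) := by
        by_contra hno
        push Not at hno
        have h6 : coin (U ∩ S) + coin (U \ S) ≤ 4 * coin (U \ S) := by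
          calc coin (U ∩ S) + coin (U \ S) ≤ coin (U \ S) + coin (U \ S) := by gcongr
            _ = 2 * coin (U \ S) := (two_mul _).symm
            _ ≤ 4 * coin (U \ S) := by gcongr; norm_num
        exact absurd (h.trans_le h6) (lt_irrefl _)
      rw [two_mul]
      exact ENNReal.add_lt_add_left ha h5
    rw [hmono.measure_iUnion, ENNReal.mul_iSup, lt_iSup_iff] at h4
    obtain ⟨L, hL⟩ := h4
    refine ⟨max N L, ?_⟩
    have h5 : vote e N ((strs N).filter p) v n (pre B (max N L)) = true := by
      rw [vote_iff (le_max_left N L)]
      exact hL.trans_le (mul_le_mul_right (measure_mono (hmono (le_max_right N L))) 2)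
    cases hA : A n
    · have hv : v = 0 := by simp [v, hA]
      rw [hv] at h5
      split_ifs <;> simp
    · have hv : v = 1 := by simp [v, hA]
      rw [hv] at h5
      rw [if_pos h5]
      rfl

theorem sacks {A B : ℕ → Bool}
    (h : coin {z | TuringReducible (chi A) (chi (jn B z))} ≠ 0) :
    TuringReducible (chi A) (chi B) := by
  obtain ⟨e, he⟩ : ∃ e : Code, coin {z | CodeComputes e (jn B z) A} ≠ 0 := by
    by_contra hno
    push Not at hno
    apply h
    have h1 : {z | TuringReducible (chi A) (chi (jn B z))} =
        ⋃ e : Code, {z | CodeComputes e (jn B z) A} := by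
      ext z
      simp only [Set.mem_ofPred_eq, Set.mem_iUnion]
      exact turingReducible_iff
    rw [h1]
    exact measure_iUnion_null hno
  set S := {z : ℕ → Bool | CodeComputes e (jn B z) A} with hS
  have hSm : MeasurableSet S := measurableSet_codeComputes e A B
  have hε : 0 < coin S / 8 := ENNReal.div_pos he (by simp)
  obtain ⟨N, p, hp⟩ := exists_pre_approx hSm hε
  refine red_of_majority (e := e) (N := N) (p := p) ?_
  set U := {X : ℕ → Bool | p (pre X N) = true} with hU
  have h1 : coin (U \ S) < coin S / 8 := lt_of_le_of_lt (measure_mono fun x hx => Or.inl hx) hp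
  have h2 : coin (S \ U) < coin S / 8 := lt_of_le_of_lt (measure_mono fun x hx => Or.inr hx) hp
  have h3 : coin S ≤ coin U + coin (S \ U) := by
    refine (measure_mono fun x hx => ?_).trans (measure_union_le _ _)
    by_cases hxU : x ∈ U
    · exact Or.inl hxU
    · exact Or.inr ⟨hx, hxU⟩
  have hfin : ∀ s : Set (ℕ → Bool), coin s ≠ ⊤ := fun s => measure_ne_top _ _
  have ea : coin (U \ S) = ENNReal.ofReal (coin.real (U \ S)) := by
    rw [ofReal_measureReal]
  have eb : coin (S \ U) = ENNReal.ofReal (coin.real (S \ U)) := by rw [ofReal_measureReal]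
  have ec : coin S = ENNReal.ofReal (coin.real S) := by rw [ofReal_measureReal]
  have ed : coin U = ENNReal.ofReal (coin.real U) := by rw [ofReal_measureReal]
  have r1 : coin.real (U \ S) < coin.real S / 8 := by
    have := (ENNReal.toReal_lt_toReal (hfin _) (by
      exact (ENNReal.div_lt_top (hfin S) (by simp)).ne)).2 h1
    simpa [Measure.real] using this
  have r2 : coin.real (S \ U) < coin.real S / 8 := by
    have := (ENNReal.toReal_lt_toReal (hfin _) (by
      exact (ENNReal.div_lt_top (hfin S) (by simp)).ne)).2 h2
    simpa [Measure.real] using this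
  have r3 : coin.real S ≤ coin.real U + coin.real (S \ U) := by
    have := (ENNReal.toReal_le_toReal (hfin _) (ENNReal.add_ne_top.2 ⟨hfin _, hfin _⟩)).2 h3
    rwa [ENNReal.toReal_add (hfin _) (hfin _)] at this
  have r4 : 0 ≤ coin.real (S \ U) := measureReal_nonneg
  have r5 : 4 * coin.real (U \ S) < coin.real U := by linarith
  have r6 := (ENNReal.ofReal_lt_ofReal_iff (by
    have : 0 ≤ coin.real (U \ S) := measureReal_nonneg
    linarith)).2 r5
  rw [ENNReal.ofReal_mul (by norm_num), ← ea, ← ed] at r6
  simpa using r6

end Pool.Agent.RJ
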