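import Mathlib
import Pool.Agent.RJ.CDF

/-!
Segments along words; computability of the basic functions.
-/

set_option autoImplicit false

namespace Pool.Agent.RJ

open Encodable Pool.Agent.H19 Pool.Agent.AEI
open Nat.Partrec (Code)

theorem cov_iff {N m : ℕ} {w : List ℕ} : cov N w m = true ↔ ∀ k < m, idx w k < N := by
  simp [cov, List.all_eq_true]

theorem seg_pre {N m : ℕ} {w : List ℕ} (h : cov N w m = true) (z : ℕ → Bool) :
    seg (pre z N) w m = pre (Tw w z) m := by
  rw [cov_iff] at h
  refine List.map_congr_left fun k hk => ?_
  rw [List.mem_range] at hk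
  rw [pre_getD z (h k hk)]
  rfl

theorem cov_mono {N N' m m' : ℕ} {w : List ℕ} (h : cov N w m = true) (hN : N ≤ N')
    (hm : m' ≤ m) : cov N' w m' = true := by
  rw [cov_iff] at h ⊢
  exact fun k hk => (h k (hk.trans_le hm)).trans_le hN

theorem exists_cov (w : List ℕ) (m : ℕ) : ∃ N, cov N w m = true := by
  refine ⟨((List.range m).map (idx w)).sum + 1, ?_⟩
  rw [cov_iff]
  intro k hk
  refine Nat.lt_succ_of_le (List.single_le_sum (by simp) _ ?_)
  exact List.mem_map.2 ⟨k, List.mem_range.2 hk, rfl⟩

theorem cntb_eq (p : ℕ → Bool) : cntb p = cntp fun i => p i = true := by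
  classical
  rw [cntb, cntp]
  have h1 : (List.range RR).filter p = (List.range RR).filter fun i => decide (p i = true) := by
    simp
  rw [h1, ← List.toFinset_card_of_nodup (List.nodup_range.filter _)]
  congr 1
  ext i
  simp

theorem cntp_mono {p q : ℕ → Prop} (h : ∀ i < RR, p i → q i) : cntp p ≤ cntp q := by
  classical
  rw [cntp, cntp]
  refine Finset.card_le_card fun i hi => ?_
  rw [Finset.mem_filter, Finset.mem_range] at hi ⊢
  exact ⟨hi.1, h i hi.1 hi.2⟩

section comp

variable {α : Type*} [Primcodable α]

theorem comp_mul' {f g : α → ℕ} (hf : Computable f) (hg : Computable g) :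
    Computable fun a => f a * g a := Primrec.nat_mul.to_comp.comp hf hg

theorem comp_add' {f g : α → ℕ} (hf : Computable f) (hg : Computable g) :
    Computable fun a => f a + g a := Primrec.nat_add.to_comp.comp hf hg

theorem comp_tau {i k : α → ℕ} (hi : Computable i) (hk : Computable k) :
    Computable fun a => tau (i a) (k a) := by
  have h1 : Computable fun a : α => RR := Computable.const RR
  have h2 : Computable fun a => k a / RR := comp_div hk h1
  have h3 : Computable fun a =>
      if decide (k a % RR = i a) then (if decide ((k a / RR) % RR = i a) then k a else k a / RR)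
        else RR * k a + i a := by
    refine comp_ite (c := fun a => decide (k a % RR = i a)) (comp_decEq (comp_mod hk h1) hi) ?_ ?_
    · exact comp_ite (c := fun a => decide ((k a / RR) % RR = i a))
        (comp_decEq (comp_mod h2 h1) hi) hk h2
    · exact comp_add' (comp_mul' h1 hk) hi
  exact h3.of_eq fun a => by simp only [decide_eq_true_eq, tau]

theorem comp_idxw {w : α → List ℕ} {k : α → ℕ} (hw : Computable w) (hk : Computable k) :
    Computable fun a => idx (w a) (k a) := by
  refine comp_list_foldl (h := fun _ p => tau p.2 p.1) hw hk ?_
  exact comp_tau (Computable.snd.comp Computable.snd) (Computable.fst.comp Computable.snd)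

theorem comp_seg {σ : α → List Bool} {w : α → List ℕ} {m : α → ℕ} (hσ : Computable σ)
    (hw : Computable w) (hm : Computable m) : Computable fun a => seg (σ a) (w a) (m a) := by
  refine comp_list_map (g := fun a k => (σ a).getD (idx (w a) k) false) (comp_range hm) ?_
  exact comp_getD (hσ.comp Computable.fst) (comp_idxw (hw.comp Computable.fst) Computable.snd)

theorem comp_cov {N : α → ℕ} {w : α → List ℕ} {m : α → ℕ} (hN : Computable N)
    (hw : Computable w) (hm : Computable m) : Computable fun a => cov (N a) (w a) (m a) := by
  refine comp_list_all (g := fun a k => decide (idx (w a) k < N a)) (comp_range hm) ?_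
  exact comp_decLt (comp_idxw (hw.comp Computable.fst) Computable.snd) (hN.comp Computable.fst)

theorem comp_cntb {p : α → ℕ → Bool} (hp : Computable₂ p) : Computable fun a => cntb (p a) :=
  Computable.list_length.comp (comp_list_filter (g := p) (comp_range (Computable.const RR)) hp)

theorem look_eq (c : Cand) (σ : List Bool) : look c σ =
    (((c.2.filter fun p => decide (p.1 = σ)).map Prod.snd).head?).getD [] := by
  rw [look]
  induction c.2 with
  | nil => simp
  | cons p l ih =>
    by_cases h : p.1 = σ
    · simp [h]
    · simp [h, ih]

theorem comp_look {c : α → Cand} {σ : α → List Bool} (hc : Computable c) (hσ : Computable σ) :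
    Computable fun a => look (c a) (σ a) := by
  have h1 : Computable fun a => (c a).2.filter fun p => decide (p.1 = σ a) := by
    refine comp_list_filter (g := fun a (p : List Bool × List Bool) => decide (p.1 = σ a))
      (Computable.snd.comp hc) ?_
    exact comp_decEq (Computable.fst.comp Computable.snd) (hσ.comp Computable.fst)
  have h2 : Computable fun a => ((c a).2.filter fun p => decide (p.1 = σ a)).map Prod.snd := by
    refine comp_list_map (g := fun _ (p : List Bool × List Bool) => p.2) h1 ?_
    exact Computable.snd.comp Computable.snd
  have h3 := Computable.option_getD (Primrec.list_head?.to_comp.comp h2)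
    (Computable.const ([] : List Bool))
  exact h3.of_eq fun a => by rw [look_eq]

theorem comp_cand {n : α → ℕ} (hn : Computable n) : Computable fun a => cand (n a) :=
  Computable.option_getD (Computable.decode.comp hn) (Computable.const _)

end comp

end Pool.Agent.RJ
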