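import Mathlib
import Pool.Agent.RJ.CIX

/-!
The checks of certificates are computable.
-/

set_option autoImplicit false

namespace Pool.Agent.RJ

open Encodable Pool.Agent.H19 Pool.Agent.AEI
open Nat.Partrec (Code)

section comp

variable {α : Type*} [Primcodable α] {m : ℕ} {lab : ℕ → List Bool → Code}

theorem comp_allC {β : Type*} [Primcodable β] {f : α → List β} {g : α → β → Bool}
    (hf : Computable f) (hg : Computable₂ g) : Computable fun a => (f a).all (g a) := by
  refine (comp_not (comp_list_any (g := fun a b => !(g a b)) hf (comp_not hg))).of_eq fun a => ?_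
  rw [List.any_eq_not_all_not, Bool.not_not]
  congr 1
  funext b
  rw [Bool.not_not]

/-- The entry of a certificate, and the other arguments, as functions of one variable. -/
theorem comp_chkE1 (hlab : Computable₂ lab) {c : α → Cand} {j : α → ℕ} {σ : α → List Bool}
    {F : α → Cert} {q : α → List ℕ × List Bool} (hc : Computable c) (hj : Computable j)
    (hσ : Computable σ) (hF : Computable F) (hq : Computable q) :
    Computable fun a => chkE1 m lab (c a) (j a) (σ a) (F a) (q a) := by
  have hq1 : Computable fun a => (q a).1 := Computable.fst.comp hq
  have hq2 : Computable fun a => (q a).2 := Computable.snd.comp hq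
  have hc1 : Computable fun a => (c a).1 := Computable.fst.comp hc
  refine comp_and (comp_cov (Computable.list_length.comp hσ) hq1
    (comp_max (Computable.const m) hc1)) ?_
  refine comp_ite (comp_decEq (Computable.list_length.comp hq1) hj)
    (comp_isPre hq2 (comp_look hc (comp_seg hσ hq1 hc1))) ?_
  refine comp_and (comp_decLt (Computable.list_length.comp hq1) hj) ?_
  refine comp_decLe (Computable.const _) ?_
  refine comp_cntb (p := fun a i => (F a).any fun q' => decide (q'.1 = i :: (q a).1) &&
         isPre (q a).2 (zf (lab i (seg (σ a) (i :: (q a).1) m)) q'.2)) ?_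
  refine comp_list_any (α := α × ℕ) (f := fun p => F p.1)
    (g := fun p q' => decide (q'.1 = p.2 :: (q p.1).1) &&
         isPre (q p.1).2 (zf (lab p.2 (seg (σ p.1) (p.2 :: (q p.1).1) m)) q'.2))
    (hF.comp Computable.fst) ?_
  have ha : Computable fun x : (α × ℕ) × (List ℕ × List Bool) => x.1.1 :=
    Computable.fst.comp Computable.fst
  have hi : Computable fun x : (α × ℕ) × (List ℕ × List Bool) => x.1.2 :=
    Computable.snd.comp Computable.fst
  have hw : Computable fun x : (α × ℕ) × (List ℕ × List Bool) => x.1.2 :: (q x.1.1).1 :=
    Computable.list_cons.comp hi (hq1.comp ha)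
  refine comp_and (comp_decEq (Computable.fst.comp Computable.snd) hw) ?_
  refine comp_isPre (hq2.comp ha) (comp_zf (hlab.comp hi ?_) (Computable.snd.comp Computable.snd))
  exact comp_seg (hσ.comp ha) hw (Computable.const m)

theorem comp_chkP1 (hlab : Computable₂ lab) {c : α → Cand} {k : α → ℕ} {σ : α → List Bool}
    {F : α → Cert} {q : α → List ℕ × List Bool} (hc : Computable c) (hk : Computable k)
    (hσ : Computable σ) (hF : Computable F) (hq : Computable q) :
    Computable fun a => chkP1 m lab (c a) (k a) (σ a) (F a) (q a) := by
  have hq1 : Computable fun a => (q a).1 := Computable.fst.comp hq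
  have hq2 : Computable fun a => (q a).2 := Computable.snd.comp hq
  have hc1 : Computable fun a => (c a).1 := Computable.fst.comp hc
  refine comp_and (comp_cov (Computable.list_length.comp hσ) hq1
    (comp_max (Computable.const m) hc1)) ?_
  refine comp_ite (comp_decEq (Computable.list_length.comp hq1) hk)
    (comp_isPre (comp_look hc (comp_seg hσ hq1 hc1)) hq2) ?_
  refine comp_and (comp_decLt (Computable.list_length.comp hq1) hk) ?_
  refine comp_decLe (Computable.const _) ?_
  refine comp_cntb (p := fun a i => (F a).any fun q' => decide (q'.1 = i :: (q a).1) &&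
         decide (q'.2 = zf (lab i (seg (σ a) (q a).1 m)) (q a).2)) ?_
  refine comp_list_any (α := α × ℕ) (f := fun p => F p.1)
    (g := fun p q' => decide (q'.1 = p.2 :: (q p.1).1) &&
         decide (q'.2 = zf (lab p.2 (seg (σ p.1) (q p.1).1 m)) (q p.1).2))
    (hF.comp Computable.fst) ?_
  have ha : Computable fun x : (α × ℕ) × (List ℕ × List Bool) => x.1.1 :=
    Computable.fst.comp Computable.fst
  have hi : Computable fun x : (α × ℕ) × (List ℕ × List Bool) => x.1.2 :=
    Computable.snd.comp Computable.fst
  have hw : Computable fun x : (α × ℕ) × (List ℕ × List Bool) => x.1.2 :: (q x.1.1).1 :=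
    Computable.list_cons.comp hi (hq1.comp ha)
  refine comp_and (comp_decEq (Computable.fst.comp Computable.snd) hw) ?_
  refine comp_decEq (Computable.snd.comp Computable.snd) (comp_zf (hlab.comp hi ?_) (hq2.comp ha))
  exact comp_seg (hσ.comp ha) (hq1.comp ha) (Computable.const m)

theorem comp_chkE (hlab : Computable₂ lab) {c : α → Cand} {j : α → ℕ} {σ : α → List Bool}
    {F : α → Cert} (hc : Computable c) (hj : Computable j) (hσ : Computable σ)
    (hF : Computable F) : Computable fun a => chkE m lab (c a) (j a) (σ a) (F a) := by
  refine comp_allC (g := fun a q => chkE1 m lab (c a) (j a) (σ a) (F a) q) hF ?_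
  exact comp_chkE1 hlab (hc.comp Computable.fst) (hj.comp Computable.fst)
    (hσ.comp Computable.fst) (hF.comp Computable.fst) Computable.snd

theorem comp_chkP (hlab : Computable₂ lab) {c : α → Cand} {k : α → ℕ} {σ : α → List Bool}
    {F : α → Cert} (hc : Computable c) (hk : Computable k) (hσ : Computable σ)
    (hF : Computable F) : Computable fun a => chkP m lab (c a) (k a) (σ a) (F a) := by
  refine comp_allC (g := fun a q => chkP1 m lab (c a) (k a) (σ a) (F a) q) hF ?_
  exact comp_chkP1 hlab (hc.comp Computable.fst) (hk.comp Computable.fst)
    (hσ.comp Computable.fst) (hF.comp Computable.fst) Computable.snd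

theorem comp_rootB {j : α → ℕ} {F : α → Cert} (hj : Computable j) (hF : Computable F) :
    Computable fun a => rootB (j a) (F a) := by
  refine comp_list_any (g := fun a (q : List ℕ × List Bool) =>
    decide (q.1 = []) && decide (j a ≤ q.2.length)) hF ?_
  refine comp_and (comp_decEq (Computable.fst.comp Computable.snd) (Computable.const [])) ?_
  exact comp_decLe (hj.comp Computable.fst)
    (Computable.list_length.comp (Computable.snd.comp Computable.snd))

theorem comp_rootS {b : α → List Bool} {F : α → Cert} (hb : Computable b) (hF : Computable F) :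
    Computable fun a => rootS (b a) (F a) := by
  refine comp_list_any (g := fun a (q : List ℕ × List Bool) =>
    decide (q.1 = []) && decide (q.2 = b a)) hF ?_
  refine comp_and (comp_decEq (Computable.fst.comp Computable.snd) (Computable.const [])) ?_
  exact comp_decEq (Computable.snd.comp Computable.snd) (hb.comp Computable.fst)

theorem comp_chkA (hlab : Computable₂ lab) {c : α → Cand} {j N : α → ℕ}
    {A : α → List (List Bool × Cert)} (hc : Computable c) (hj : Computable j)
    (hN : Computable N) (hA : Computable A) :
    Computable fun a => chkA m lab (c a) (j a) (N a) (A a) := by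
  have hs : Computable fun a => strs (N a) := comp_strs.comp hN
  refine comp_decLt (Computable.list_length.comp hs) ?_
  refine (Primrec.nat_mul.to_comp).comp (Computable.const 3) ?_
  refine Computable.list_length.comp ?_
  refine comp_list_filter (g := fun a σ => inA m lab (c a) (j a) (A a) σ) hs ?_
  refine comp_list_any (α := α × List Bool) (f := fun p => A p.1)
    (g := fun p q => decide (q.1 = p.2) && (chkE m lab (c p.1) (j p.1) p.2 q.2 &&
      rootB (j p.1) q.2)) (hA.comp Computable.fst) ?_
  have ha : Computable fun x : (α × List Bool) × (List Bool × Cert) => x.1.1 :=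
    Computable.fst.comp Computable.fst
  have hσ : Computable fun x : (α × List Bool) × (List Bool × Cert) => x.1.2 :=
    Computable.snd.comp Computable.fst
  have hF : Computable fun x : (α × List Bool) × (List Bool × Cert) => x.2.2 :=
    Computable.snd.comp Computable.snd
  refine comp_and (comp_decEq (Computable.fst.comp Computable.snd) hσ) ?_
  exact comp_and (comp_chkE hlab (hc.comp ha) (hj.comp ha) hσ hF) (comp_rootB (hj.comp ha) hF)

end comp

end Pool.Agent.RJ
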