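import Mathlib
import Pool.Agent.RJ.CIX

/-!
Certificates for estimates are sound and complete.
-/

set_option autoImplicit false

namespace Pool.Agent.RJ

open Encodable Pool.Agent.H19 Pool.Agent.AEI
open Nat.Partrec (Code)

variable {m : ℕ} {lab : ℕ → List Bool → Code} {c : Cand} {j : ℕ}

private theorem chkE1_of {z : ℕ → Bool} {N : ℕ} {F : Cert}
    (hF : chkE m lab c j (pre z N) F = true) {q : List ℕ × List Bool} (hq : q ∈ F) :
    cov N q.1 (max m c.1) = true ∧
      ((q.1.length = j ∧ q.2 <+: val c (Tw q.1 z)) ∨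
        (q.1.length < j ∧ 62 * MM ≤ cntp fun i => ∃ b' : List Bool, (i :: q.1, b') ∈ F ∧
          q.2 <+: zf (lab i (seg (pre z N) (i :: q.1) m)) b')) := by
  have h1 := List.all_eq_true.1 hF q hq
  unfold chkE1 at h1
  rw [Bool.and_eq_true, pre_length] at h1
  obtain ⟨h2, h3⟩ := h1
  refine ⟨h2, ?_⟩
  by_cases hl : q.1.length = j
  · left
    rw [if_pos (by simpa using hl), isPre_iff,
      seg_pre (cov_mono h2 le_rfl (le_max_right _ _))] at h3
    exact ⟨hl, h3⟩
  · right
    rw [if_neg (by simpa using hl), Bool.and_eq_true, decide_eq_true_iff, decide_eq_true_iff,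
      cntb_eq] at h3
    refine ⟨h3.1, h3.2.trans (cntp_mono fun i _ hi => ?_)⟩
    rw [List.any_eq_true] at hi
    obtain ⟨q', hq', h4⟩ := hi
    rw [Bool.and_eq_true, decide_eq_true_iff, isPre_iff] at h4
    exact ⟨q'.2, by rw [← h4.1]; exact hq', h4.2⟩

private theorem chkE1_intro {z : ℕ → Bool} {N : ℕ} {F : Cert} {q : List ℕ × List Bool}
    (h1 : cov N q.1 (max m c.1) = true)
    (h2 : (q.1.length = j ∧ q.2 <+: val c (Tw q.1 z)) ∨
        (q.1.length < j ∧ 62 * MM ≤ cntp fun i => ∃ b' : List Bool, (i :: q.1, b') ∈ F ∧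
          q.2 <+: zf (lab i (seg (pre z N) (i :: q.1) m)) b')) :
    chkE1 m lab c j (pre z N) F q = true := by
  unfold chkE1
  rw [Bool.and_eq_true, pre_length]
  refine ⟨h1, ?_⟩
  rcases h2 with ⟨hl, h3⟩ | ⟨hl, h3⟩
  · rw [if_pos (by simpa using hl), isPre_iff, seg_pre (cov_mono h1 le_rfl (le_max_right _ _))]
    exact h3
  · rw [if_neg (by simpa using hl.ne), Bool.and_eq_true, decide_eq_true_iff, decide_eq_true_iff,
      cntb_eq]
    refine ⟨hl, h3.trans (cntp_mono fun i _ hi => ?_)⟩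
    obtain ⟨b', hb', h4⟩ := hi
    rw [List.any_eq_true]
    refine ⟨(i :: q.1, b'), hb', ?_⟩
    rw [Bool.and_eq_true, decide_eq_true_iff, isPre_iff]
    exact ⟨rfl, h4⟩

/-- Soundness at all nodes. -/
theorem est_of_chk {z : ℕ → Bool} {N : ℕ} {F : Cert} (hF : chkE m lab c j (pre z N) F = true)
    {w : List ℕ} {b : List Bool} (hw : (w, b) ∈ F) :
    w.length ≤ j ∧ Est m lab c (j - w.length) (Tw w z) b := by
  have key : ∀ (n : ℕ) (w : List ℕ) (b : List Bool), (w, b) ∈ F → j - w.length = n →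
      w.length ≤ j ∧ Est m lab c (j - w.length) (Tw w z) b := by
    intro n
    induction n with
    | zero =>
      intro w b hw hn
      obtain ⟨h1, h2 | h2⟩ := chkE1_of hF hw
      · refine ⟨h2.1.le, ?_⟩
        rw [hn]
        exact h2.2
      · have := h2.1
        simp only at this
        omega
    | succ n ih =>
      intro w b hw hn
      obtain ⟨h1, h2 | h2⟩ := chkE1_of hF hw
      · have := h2.1
        simp only at this
        omega
      · have hl := h2.1
        simp only at hl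
        refine ⟨hl.le, ?_⟩
        rw [hn]
        refine h2.2.trans (cntp_mono fun i _ hi => ?_)
        obtain ⟨b', hb', h4⟩ := hi
        obtain ⟨h5, h6⟩ := ih (i :: w) b' hb' (by simp only [List.length_cons]; omega)
        have h7 : j - (i :: w).length = n := by simp only [List.length_cons]; omega
        rw [h7, Tw_cons] at h6
        refine ⟨b', h6, ?_⟩
        have h8 := (chkE1_of hF hb').1
        rw [seg_pre (cov_mono h8 le_rfl (le_max_left _ _)), Tw_cons] at h4
        exact h4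
  exact key _ w b hw rfl

private theorem chkE_mono {N N' : ℕ} {z : ℕ → Bool} {F : Cert} {w : List ℕ} {b : List Bool}
    (hN : N ≤ N') {G : Cert} (hFG : ∀ q ∈ F, q ∈ G)
    (hF : chkE m lab c j (pre z N) F = true) (hw : (w, b) ∈ F) :
    chkE1 m lab c j (pre z N') G (w, b) = true := by
  obtain ⟨h1, h2⟩ := chkE1_of hF hw
  refine chkE1_intro (cov_mono h1 hN le_rfl) (h2.imp id fun h2 => ⟨h2.1, h2.2.trans
    (cntp_mono fun i _ hi => ?_)⟩)
  obtain ⟨b', hb', h4⟩ := hi
  refine ⟨b', hFG _ hb', ?_⟩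
  have h8 := (chkE1_of hF hb').1
  rw [seg_pre (cov_mono h8 le_rfl (le_max_left _ _))] at h4
  rw [seg_pre (cov_mono h8 hN (le_max_left _ _))]
  exact h4

/-- Completeness at all nodes. -/
theorem exists_chk_of_est {z : ℕ → Bool} (h : ℕ) {w : List ℕ} {b : List Bool}
    (hw : w.length + h = j) (hb : Est m lab c h (Tw w z) b) :
    ∃ (N0 : ℕ) (F : Cert), (w, b) ∈ F ∧ ∀ N ≥ N0, chkE m lab c j (pre z N) F = true := by
  induction h generalizing w b with
  | zero =>
    obtain ⟨N0, hN0⟩ := exists_cov w (max m c.1)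
    refine ⟨N0, [(w, b)], by simp, fun N hN => ?_⟩
    unfold chkE
    simp only [List.all_cons, List.all_nil, Bool.and_true]
    exact chkE1_intro (cov_mono hN0 hN le_rfl) (Or.inl ⟨by simpa using hw, hb⟩)
  | succ h ih =>
    have h1 : ∀ i : ℕ, ∃ (N0 : ℕ) (F : Cert),
        (∀ N ≥ N0, chkE m lab c j (pre z N) F = true) ∧
        ((∃ b' : List Bool, Est m lab c h (T i (Tw w z)) b' ∧
          b <+: zf (lab i (pre (T i (Tw w z)) m)) b') →
          ∃ b' : List Bool, (i :: w, b') ∈ F ∧ b <+: zf (lab i (pre (T i (Tw w z)) m)) b') := by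
      intro i
      by_cases hi : ∃ b' : List Bool, Est m lab c h (T i (Tw w z)) b' ∧
          b <+: zf (lab i (pre (T i (Tw w z)) m)) b'
      · obtain ⟨b', h2, h3⟩ := hi
        rw [← Tw_cons] at h2
        obtain ⟨N0, F, h4, h5⟩ := ih (w := i :: w) (b := b')
          (by simp only [List.length_cons]; omega) h2
        exact ⟨N0, F, h5, fun _ => ⟨b', h4, h3⟩⟩
      · exact ⟨0, [], fun N _ => by simp [chkE], fun h => absurd h hi⟩
    choose N0 F h2 h3 using h1
    obtain ⟨N1, hN1⟩ := exists_cov w (max m c.1)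
    have hS : ∀ i < RR, N0 i ≤ (Finset.range RR).sup N0 := fun i hi =>
      Finset.le_sup (f := N0) (Finset.mem_range.2 hi)
    refine ⟨max N1 ((Finset.range RR).sup N0), (w, b) :: (List.range RR).flatMap F, by simp,
      fun N hN => ?_⟩
    unfold chkE
    rw [List.all_eq_true]
    intro q hq
    rcases List.mem_cons.1 hq with rfl | hq
    · refine chkE1_intro (cov_mono hN1 ((le_max_left _ _).trans hN) le_rfl) (Or.inr
        ⟨by simp only; omega, hb.trans (cntp_mono fun i hi h4 => ?_)⟩)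
      obtain ⟨b', h5, h6⟩ := h3 i h4
      refine ⟨b', List.mem_cons_of_mem _ (List.mem_flatMap.2 ⟨i, List.mem_range.2 hi, h5⟩), ?_⟩
      have h7 : N0 i ≤ N := (hS i hi).trans ((le_max_right _ _).trans hN)
      have h8 := (chkE1_of (h2 i N h7) h5).1
      rw [seg_pre (cov_mono h8 le_rfl (le_max_left _ _)), Tw_cons]
      exact h6
    · obtain ⟨i, hi, hq⟩ := List.mem_flatMap.1 hq
      have hi := List.mem_range.1 hi
      have h7 : N0 i ≤ N := (hS i hi).trans ((le_max_right _ _).trans hN)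
      exact chkE_mono le_rfl (F := F i) (fun q hq => List.mem_cons_of_mem _
        (List.mem_flatMap.2 ⟨i, List.mem_range.2 hi, hq⟩)) (h2 i N h7) hq

theorem rootB_iff {n : ℕ} {F : Cert} :
    rootB n F = true ↔ ∃ b : List Bool, ([], b) ∈ F ∧ n ≤ b.length := by
  unfold rootB
  rw [List.any_eq_true]
  constructor
  · rintro ⟨⟨w, b⟩, h1, h2⟩
    rw [Bool.and_eq_true, decide_eq_true_iff, decide_eq_true_iff] at h2
    obtain ⟨h2, h3⟩ := h2
    simp only at h2 h3
    subst h2
    exact ⟨b, h1, h3⟩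
  · rintro ⟨b, h1, h2⟩
    exact ⟨([], b), h1, by simpa using h2⟩

/-- The set where there is a long estimate, in terms of certificates. -/
theorem mem_SE_iff {z : ℕ → Bool} : z ∈ SE m lab c j ↔
    ∃ (N0 : ℕ) (F : Cert), rootB j F = true ∧ ∀ N ≥ N0, chkE m lab c j (pre z N) F = true := by
  constructor
  · rintro ⟨b, h1, h2⟩
    obtain ⟨N0, F, h3, h4⟩ := exists_chk_of_est (z := z) j (w := []) (b := b) (j := j)
      (by simp) (by simpa using h2)
    exact ⟨N0, F, rootB_iff.2 ⟨b, h3, h1⟩, h4⟩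
  · rintro ⟨N0, F, h1, h2⟩
    obtain ⟨b, h3, h4⟩ := rootB_iff.1 h1
    obtain ⟨h5, h6⟩ := est_of_chk (h2 N0 le_rfl) h3
    exact ⟨b, h4, by simpa using h6⟩

theorem mem_SE_iff' {z : ℕ → Bool} : z ∈ SE m lab c j ↔
    ∃ (N : ℕ) (F : Cert), rootB j F = true ∧ chkE m lab c j (pre z N) F = true := by
  constructor
  · intro h
    obtain ⟨N0, F, h1, h2⟩ := mem_SE_iff.1 h
    exact ⟨N0, F, h1, h2 N0 le_rfl⟩
  · rintro ⟨N, F, h1, h2⟩
    obtain ⟨b, h3, h4⟩ := rootB_iff.1 h1
    obtain ⟨h5, h6⟩ := est_of_chk h2 h3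
    exact ⟨b, h4, by simpa using h6⟩

/-- The estimates form open sets. -/
theorem est_iff {z : ℕ → Bool} {b : List Bool} : Est m lab c j z b ↔
    ∃ (N : ℕ) (F : Cert), ([], b) ∈ F ∧ chkE m lab c j (pre z N) F = true := by
  constructor
  · intro h
    obtain ⟨N0, F, h3, h4⟩ := exists_chk_of_est (z := z) j (w := []) (b := b) (j := j)
      (by simp) (by simpa using h)
    exact ⟨N0, F, h3, h4 N0 le_rfl⟩
  · rintro ⟨N, F, h3, h4⟩
    obtain ⟨h5, h6⟩ := est_of_chk h4 h3
    simpa using h6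

end Pool.Agent.RJ
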