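import Mathlib
import Pool.Agent.RJ.CUT
import Pool.Agent.RJ.CEC
import Pool.Agent.RJ.CES

/-!
Decoding, computable part.
-/

set_option autoImplicit false

namespace Pool.Agent.RJ

open MeasureTheory Encodable Pool.Agent.H19 Pool.Agent.AEI
open Nat.Partrec (Code)

/-- Search data: a number, a length, a certificate and a string. -/
private def dd (q : ℕ) : ℕ × (ℕ × (Cert × List Bool)) :=
  (decode (α := ℕ × (ℕ × (Cert × List Bool))) q).getD (0, (0, ([], [])))

private theorem dd_encode (x : ℕ × (ℕ × (Cert × List Bool))) : dd (encode x) = x := by simp [dd]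

private theorem comp_dd : Computable dd :=
  Computable.option_getD Computable.decode (Computable.const _)

/-- The test: `u` is the code of the candidate and `v` the code of the initial segment. -/
private def tst (m : ℕ) (lab : ℕ → List Bool → Code) (n0 j0 p u v : ℕ) : ℕ :=
  if (decide (n0 ≤ (dd p.unpair.2).1) && decide (p.unpair.1 < (dd p.unpair.2).2.2.2.length)) &&
    (rootS (dd p.unpair.2).2.2.2 (dd p.unpair.2).2.2.1 &&
      chkE m lab (cand u) ((dd p.unpair.2).1 + j0) ((decode (α := List Bool) v).getD [])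
        (dd p.unpair.2).2.2.1) then 0 else 1

private theorem comp_tst {m : ℕ} {lab : ℕ → List Bool → Code} (hlab : Computable₂ lab)
    (n0 j0 : ℕ) : Computable fun x : ℕ × (ℕ × ℕ) => tst m lab n0 j0 x.1 x.2.1 x.2.2 := by
  have h1 : Computable fun x : ℕ × (ℕ × ℕ) => x.1.unpair.1 :=
    Computable.fst.comp (Computable.unpair.comp Computable.fst)
  have h2 : Computable fun x : ℕ × (ℕ × ℕ) => dd x.1.unpair.2 :=
    comp_dd.comp (Computable.snd.comp (Computable.unpair.comp Computable.fst))
  have h3 : Computable fun x : ℕ × (ℕ × ℕ) => (dd x.1.unpair.2).1 := Computable.fst.comp h2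
  have h4 : Computable fun x : ℕ × (ℕ × ℕ) => (dd x.1.unpair.2).2.2.1 :=
    Computable.fst.comp (Computable.snd.comp (Computable.snd.comp h2))
  have h5 : Computable fun x : ℕ × (ℕ × ℕ) => (dd x.1.unpair.2).2.2.2 :=
    Computable.snd.comp (Computable.snd.comp (Computable.snd.comp h2))
  have h6 : Computable fun x : ℕ × (ℕ × ℕ) => cand x.2.1 :=
    comp_cand (Computable.fst.comp Computable.snd)
  have h7 : Computable fun x : ℕ × (ℕ × ℕ) => (decode (α := List Bool) x.2.2).getD [] :=
    Computable.option_getD (Computable.decode.comp (Computable.snd.comp Computable.snd))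
      (Computable.const [])
  refine comp_ite (c := fun x : ℕ × (ℕ × ℕ) => (decide (n0 ≤ (dd x.1.unpair.2).1) &&
    decide (x.1.unpair.1 < (dd x.1.unpair.2).2.2.2.length)) &&
    (rootS (dd x.1.unpair.2).2.2.2 (dd x.1.unpair.2).2.2.1 &&
      chkE m lab (cand x.2.1) ((dd x.1.unpair.2).1 + j0)
        ((decode (α := List Bool) x.2.2).getD []) (dd x.1.unpair.2).2.2.1)) ?_
    (Computable.const 0) (Computable.const 1)
  refine comp_and (comp_and (comp_decLe (Computable.const n0) h3)
    (comp_decLt h1 (Computable.list_length.comp h5))) (comp_and (comp_rootS h5 h4) ?_)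
  exact comp_chkE hlab h6 (comp_add' h3 (Computable.const j0)) h7 h4

private theorem rootS_iff' {a : List Bool} {F : Cert} : rootS a F = true ↔ ([], a) ∈ F := by
  simp only [rootS, List.any_eq_true, Bool.and_eq_true, decide_eq_true_eq]
  constructor
  · rintro ⟨⟨w, b⟩, h1, h2, h3⟩
    simp only at h2 h3
    rw [h2, h3] at h1
    exact h1
  · intro h
    exact ⟨_, h, rfl, rfl⟩

theorem decode_red {m : ℕ} {lab : ℕ → List Bool → Code} (hlab : Computable₂ lab)
    {Q : ℕ → ℕ} {O : ℕ → Bool} (hQ : TotRec O Q) {j0 : ℕ} {z y : ℕ → Bool}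
    (h1 : ∀ n, ∃ j ≥ n, ∃ b : List Bool, j + j0 ≤ b.length ∧
      Est m lab (cand (Q j)) (j + j0) z b)
    (h2 : ∃ n, ∀ j ≥ n, ∀ b : List Bool, Est m lab (cand (Q j)) (j + j0) z b → IsPre b y) :
    TuringReducible (chi y) (chi (jn z O)) := by
  obtain ⟨n0, h2⟩ := h2
  have hQ' : TotRec (jn z O) Q := totRec_mono hQ (right_le_jn z O)
  have hz : TotRec (jn z O) (fun n => encode (pre z n)) :=
    totRec_mono (TotRec.pre z) (left_le_jn z O)
  have hd : ∀ {g : ℕ → ℕ}, Computable g → TotRec (jn z O) g := fun hg => TotRec.of_computable hg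
  have hq : Computable fun p : ℕ => dd p.unpair.2 :=
    comp_dd.comp (Computable.snd.comp Computable.unpair)
  refine red_of_search
    (t := fun n q => tst m lab n0 j0 (Nat.pair n q) (Q (dd q).1) (encode (pre z (dd q).2.1)))
    (o := fun n q => if (dd q).2.2.2.getD n false then 1 else 0) ?_ ?_ ?_ ?_
  · have h3 := totRec_comp3 (Z := jn z O) (comp_tst (m := m) hlab n0 j0)
      (a := fun p => p) (b := fun p => Q (dd p.unpair.2).1)
      (c := fun p => encode (pre z (dd p.unpair.2).2.1)) (hd Computable.id)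
      (hQ'.comp (hd (Computable.fst.comp hq)))
      (hz.comp (hd (Computable.fst.comp (Computable.snd.comp hq))))
    refine (h3 : Nat.RecursiveIn _ _).of_eq fun p => ?_
    simp
  · refine hd ?_
    refine comp_ite (c := fun p : ℕ => (dd p.unpair.2).2.2.2.getD p.unpair.1 false) ?_
      (Computable.const 1) (Computable.const 0)
    exact comp_getD (Computable.snd.comp (Computable.snd.comp (Computable.snd.comp hq)))
      (Computable.fst.comp Computable.unpair)
  · intro n
    obtain ⟨j, hj, b, hb, hE⟩ := h1 (max n0 (n + 1))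
    obtain ⟨N, F, hF, hc⟩ := est_iff.1 hE
    refine ⟨encode ((j, (N, (F, b))) : ℕ × (ℕ × (Cert × List Bool))), ?_⟩
    have hj1 : n0 ≤ j := (le_max_left _ _).trans hj
    have hj2 : n + 1 ≤ j := (le_max_right _ _).trans hj
    have hn : n < b.length := by omega
    simp only [tst, dd_encode, Nat.unpair_pair, encodek, Option.getD_some, hj1, hn, decide_true,
      Bool.true_and, rootS_iff'.2 hF, hc, if_true]
  · intro n q hq0
    simp only [tst, Nat.unpair_pair, encodek, Option.getD_some] at hq0
    have hc : ((decide (n0 ≤ (dd q).1) && decide (n < (dd q).2.2.2.length)) &&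
      (rootS (dd q).2.2.2 (dd q).2.2.1 && chkE m lab (cand (Q (dd q).1)) ((dd q).1 + j0)
        (pre z (dd q).2.1) (dd q).2.2.1)) = true := by
      by_contra hno
      rw [if_neg hno] at hq0
      exact one_ne_zero hq0
    simp only [Bool.and_eq_true, decide_eq_true_eq] at hc
    obtain ⟨⟨h3, h4⟩, h5, h6⟩ := hc
    have hE : Est m lab (cand (Q (dd q).1)) ((dd q).1 + j0) z (dd q).2.2.2 :=
      est_iff.2 ⟨_, _, rootS_iff'.1 h5, h6⟩
    have h7 := h2 _ h3 _ hE
    rw [IsPre] at h7
    rw [h7, pre_getD y h4]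

end Pool.Agent.RJ
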