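import Mathlib
import Pool.Agent.RJ.CES

/-!
Certificates of admissibility.
-/

set_option autoImplicit false

namespace Pool.Agent.RJ

open MeasureTheory Encodable Pool.Agent.H19 Pool.Agent.AEI
open Nat.Partrec (Code)

variable {m : ℕ} {lab : ℕ → List Bool → Code} {c : Cand} {j : ℕ}

theorem measurableSet_SE (m : ℕ) (lab : ℕ → List Bool → Code) (c : Cand) (j : ℕ) :
    MeasurableSet (SE m lab c j) := by
  have e : SE m lab c j = ⋃ (N : ℕ) (F : Cert),
      {z : ℕ → Bool | (rootB j F && chkE m lab c j (pre z N) F) = true} := by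
    ext z
    rw [mem_SE_iff']
    simp only [Set.mem_iUnion, Set.mem_ofPred_eq, Bool.and_eq_true]
  rw [e]
  exact MeasurableSet.iUnion fun N => MeasurableSet.iUnion fun F =>
    measurableSet_pre (fun σ => rootB j F && chkE m lab c j σ F) N

theorem adm_iff_SE : Adm m lab c j ↔ 1 / 3 < coin.real (SE m lab c j) := Iff.rfl

theorem CAD_real_count (p : List Bool → Bool) (s : ℕ) :
    coin.real {X : ℕ → Bool | p (pre X s) = true} =
      (((strs s).filter p).length : ℝ) * (2⁻¹ : ℝ) ^ s := by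
  rw [Measure.real, coin_count, ENNReal.toReal_mul, ENNReal.toReal_pow, ENNReal.toReal_inv]
  simp

theorem CAD_lt_iff (p : List Bool → Bool) (s : ℕ) :
    1 / 3 < coin.real {X : ℕ → Bool | p (pre X s) = true} ↔
      (strs s).length < 3 * ((strs s).filter p).length := by
  rw [CAD_real_count, strs_length]
  have h2 : (0 : ℝ) < 2 ^ s := by positivity
  rw [inv_pow, ← div_eq_mul_inv, div_lt_div_iff₀ (by norm_num) h2, one_mul]
  constructor
  · intro h
    have : ((2 ^ s : ℕ) : ℝ) < ((3 * ((strs s).filter p).length : ℕ) : ℝ) := by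
      push_cast
      linarith
    exact_mod_cast this
  · intro h
    have : ((2 ^ s : ℕ) : ℝ) < ((3 * ((strs s).filter p).length : ℕ) : ℝ) := by exact_mod_cast h
    push_cast at this
    linarith

theorem adm_of_chkA {N : ℕ} {A : List (List Bool × Cert)} (h : chkA m lab c j N A = true) :
    Adm m lab c j := by
  rw [chkA, decide_eq_true_iff, ← CAD_lt_iff] at h
  rw [adm_iff_SE]
  refine h.trans_le (measureReal_mono ?_ (measure_ne_top _ _))
  intro z hz
  rw [Set.mem_ofPred_eq, inA, List.any_eq_true] at hz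
  obtain ⟨q, _, hq⟩ := hz
  rw [Bool.and_eq_true, decide_eq_true_iff, Bool.and_eq_true] at hq
  exact mem_SE_iff'.2 ⟨N, q.2, hq.2.2, hq.2.1⟩

/-- The first certificates. -/
def CAD_certs (n : ℕ) : List Cert := (List.range n).filterMap (decode (α := Cert))

theorem CAD_mem_certs {n : ℕ} {F : Cert} (h : encode F < n) : F ∈ CAD_certs n :=
  List.mem_filterMap.2 ⟨encode F, List.mem_range.2 h, encodek F⟩

theorem CAD_certs_mono {n n' : ℕ} (h : n ≤ n') {F : Cert} (hF : F ∈ CAD_certs n) :
    F ∈ CAD_certs n' := by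
  obtain ⟨k, hk, hk2⟩ := List.mem_filterMap.1 hF
  exact List.mem_filterMap.2 ⟨k, List.mem_range.2 ((List.mem_range.1 hk).trans_le h), hk2⟩

theorem exists_chkA (h : Adm m lab c j) :
    ∃ (N : ℕ) (A : List (List Bool × Cert)), chkA m lab c j N A = true := by
  rw [adm_iff_SE] at h
  set S : ℕ → Set (ℕ → Bool) := fun n => {z | ∃ F ∈ CAD_certs n, rootB j F = true ∧
    ∀ N ≥ n, chkE m lab c j (pre z N) F = true} with hS
  have hmono : Monotone S := by
    intro n n' hn z hz
    obtain ⟨F, hF, h1, h2⟩ := hz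
    exact ⟨F, CAD_certs_mono hn hF, h1, fun N hN => h2 N (le_trans hn hN)⟩
  have hU : SE m lab c j = ⋃ n, S n := by
    ext z
    rw [Set.mem_iUnion]
    constructor
    · intro hz
      obtain ⟨N0, F, h1, h2⟩ := mem_SE_iff.1 hz
      exact ⟨max N0 (encode F + 1), F, CAD_mem_certs (lt_of_lt_of_le (Nat.lt_succ_self _)
        (le_max_right _ _)), h1, fun N hN => h2 N (le_trans (le_max_left _ _) hN)⟩
    · rintro ⟨n, F, _, h1, h2⟩
      exact mem_SE_iff'.2 ⟨n, F, h1, h2 n le_rfl⟩
  have hm : coin (SE m lab c j) = ⨆ n, coin (S n) := by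
    rw [hU]
    exact hmono.measure_iUnion
  have h1 : ENNReal.ofReal (1 / 3) < coin (SE m lab c j) := by
    rw [Measure.real] at h
    exact (ENNReal.ofReal_lt_iff_lt_toReal (by norm_num) (measure_ne_top _ _)).2 h
  rw [hm, lt_iSup_iff] at h1
  obtain ⟨n, hn⟩ := h1
  refine ⟨n, List.product (strs n) (CAD_certs n), ?_⟩
  rw [chkA, decide_eq_true_iff, ← CAD_lt_iff]
  have h2 : 1 / 3 < coin.real (S n) := by
    rw [Measure.real]
    exact (ENNReal.ofReal_lt_iff_lt_toReal (by norm_num) (measure_ne_top _ _)).1 hn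
  refine h2.trans_le (measureReal_mono ?_ (measure_ne_top _ _))
  rintro z ⟨F, hF, hr, hc⟩
  rw [Set.mem_ofPred_eq, inA, List.any_eq_true]
  refine ⟨(pre z n, F), ?_, ?_⟩
  · exact List.pair_mem_product.2 ⟨mem_strs.2 (pre_length z n), hF⟩
  · rw [Bool.and_eq_true, decide_eq_true_iff, Bool.and_eq_true]
    exact ⟨rfl, hc n le_rfl, hr⟩

end Pool.Agent.RJ
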