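import Mathlib
import Pool.Agent.RJ.CAD

/-!
Decoding, measure part: with probability at least one quarter there are infinitely many long
estimates and only finitely many wrong ones.
-/

set_option autoImplicit false

namespace Pool.Agent.RJ

open MeasureTheory Encodable Pool.Agent.H19 Pool.Agent.AEI
open Nat.Partrec (Code)

theorem measurableSet_isPre_comp {f : (ℕ → Bool) → (ℕ → Bool)} (hf : Measurable f)
    (b : List Bool) : MeasurableSet {z | IsPre b (f z)} := by
  have h : {z | IsPre b (f z)} = f ⁻¹' {X | pre X b.length = b} := by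
    ext z
    exact eq_comm
  rw [h]
  exact hf (measurableSet_cyl _ _)

theorem measurableSet_est_set (m : ℕ) (lab : ℕ → List Bool → Code) (c : Cand) (j : ℕ)
    (b : List Bool) : MeasurableSet {z | Est m lab c j z b} := by
  have h : {z | Est m lab c j z b} = ⋃ (N : ℕ) (F : Cert),
      {z : ℕ → Bool | (decide (([], b) ∈ F) && chkE m lab c j (pre z N) F) = true} := by
    ext z
    rw [Set.mem_ofPred_eq, est_iff]
    simp only [Set.mem_iUnion, Set.mem_ofPred_eq, Bool.and_eq_true, decide_eq_true_eq]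
  rw [h]
  refine MeasurableSet.iUnion fun N => MeasurableSet.iUnion fun F => ?_
  exact measurableSet_pre (fun σ => decide (([], b) ∈ F) && chkE m lab c j σ F) N

theorem measurableSet_WE {f : (ℕ → Bool) → (ℕ → Bool)} {m : ℕ} {lab : ℕ → List Bool → Code}
    {Bs : Set (ℕ → Bool)} (hG : GoodS f m lab Bs) (c : Cand) (j : ℕ) :
    MeasurableSet (WE f m lab Bs c j) := by
  have h : WE f m lab Bs c j = Bsᶜ ∩ ⋃ b : List Bool,
      ({z | Est m lab c j z b} ∩ {z | IsPre b (f z)}ᶜ) := by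
    ext z
    simp only [WE, Set.mem_ofPred_eq, Set.mem_inter_iff, Set.mem_compl_iff, Set.mem_iUnion]
  rw [h]
  exact hG.meas.compl.inter (MeasurableSet.iUnion fun b =>
    (measurableSet_est_set m lab c j b).inter (measurableSet_isPre_comp hG.meas_f b).compl)

theorem quarter_tsum_ne_top {W : ℕ → Set (ℕ → Bool)} {j0 : ℕ}
    (h : ∀ j, coin.real (W j) ≤ (1 / 4) ^ (j + j0)) : ∑' j, coin (W j) ≠ ⊤ := by
  have h1 : ∀ j, coin (W j) ≤ (4⁻¹ : ENNReal) ^ j := by
    intro j
    rw [← ofReal_measureReal (μ := coin) (s := W j)]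
    refine (ENNReal.ofReal_le_ofReal ((h j).trans
      (pow_le_pow_of_le_one (by norm_num) (by norm_num) (Nat.le_add_right j j0)))).trans
      (le_of_eq ?_)
    rw [ENNReal.ofReal_pow (by norm_num)]
    congr 1
    rw [one_div, ENNReal.ofReal_inv_of_pos (by norm_num)]
    norm_num
  refine ne_top_of_le_ne_top ?_ (ENNReal.tsum_le_tsum h1)
  rw [ENNReal.tsum_geometric]
  refine ENNReal.inv_ne_top.2 ?_
  rw [Ne, tsub_eq_zero_iff_le, not_le]
  exact ENNReal.inv_lt_one.2 (by norm_num)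

/-- The set of points in infinitely many of the sets. -/
theorem third_le_io {L : ℕ → Set (ℕ → Bool)} (hL : ∀ j, MeasurableSet (L j))
    (h : ∀ j, 1 / 3 < coin.real (L j)) :
    1 / 3 ≤ coin.real (⋂ n : ℕ, ⋃ (j : ℕ) (_ : n ≤ j), L j) := by
  have hm : ∀ n, MeasurableSet (⋃ (j : ℕ) (_ : n ≤ j), L j) := fun n =>
    MeasurableSet.iUnion fun j => MeasurableSet.iUnion fun _ => hL j
  have ha : Antitone fun n : ℕ => ⋃ (j : ℕ) (_ : n ≤ j), L j := by
    intro a b hab
    refine Set.iUnion_mono fun j => ?_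
    intro z hz
    rw [Set.mem_iUnion] at hz ⊢
    obtain ⟨h1, h2⟩ := hz
    exact ⟨hab.trans h1, h2⟩
  have ht := tendsto_measure_iInter_atTop (μ := coin) (fun n => (hm n).nullMeasurableSet) ha
    ⟨0, measure_ne_top _ _⟩
  have hge : ENNReal.ofReal (1 / 3) ≤ coin (⋂ n : ℕ, ⋃ (j : ℕ) (_ : n ≤ j), L j) := by
    refine ge_of_tendsto' ht fun n => ?_
    show ENNReal.ofReal (1 / 3) ≤ coin (⋃ (j : ℕ) (_ : n ≤ j), L j)
    rw [← ofReal_measureReal (μ := coin) (s := ⋃ (j : ℕ) (_ : n ≤ j), L j)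
      (measure_ne_top _ _)]
    refine ENNReal.ofReal_le_ofReal ((h n).le.trans ?_)
    refine measureReal_mono ?_ (measure_ne_top _ _)
    intro z hz
    rw [Set.mem_iUnion]
    refine ⟨n, ?_⟩
    rw [Set.mem_iUnion]
    exact ⟨le_refl n, hz⟩
  rw [← ofReal_measureReal (μ := coin) (s := ⋂ n : ℕ, ⋃ (j : ℕ) (_ : n ≤ j), L j)
    (measure_ne_top _ _)] at hge
  exact (ENNReal.ofReal_le_ofReal_iff measureReal_nonneg).1 hge

theorem exists_decode_set {f : (ℕ → Bool) → (ℕ → Bool)} {m : ℕ} {lab : ℕ → List Bool → Code}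
    {Bs : Set (ℕ → Bool)} (hG : GoodS f m lab Bs) {c : ℕ → Cand} {j0 : ℕ}
    (h1 : ∀ j, Adm m lab (c j) (j + j0))
    (h2 : ∀ j, coin.real (WE f m lab Bs (c j) (j + j0)) ≤ (1 / 4) ^ (j + j0)) :
    ∃ E : Set (ℕ → Bool), MeasurableSet E ∧ 1 / 4 ≤ coin.real E ∧ ∀ z ∈ E,
      (∀ n, ∃ j ≥ n, ∃ b : List Bool, j + j0 ≤ b.length ∧ Est m lab (c j) (j + j0) z b) ∧
      ∃ n, ∀ j ≥ n, ∀ b : List Bool, Est m lab (c j) (j + j0) z b → IsPre b (f z) := by
  set L : ℕ → Set (ℕ → Bool) := fun j => SE m lab (c j) (j + j0) with hLd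
  set W : ℕ → Set (ℕ → Bool) := fun j => WE f m lab Bs (c j) (j + j0) with hWd
  have hLm : ∀ j, MeasurableSet (L j) := fun j => measurableSet_SE _ _ _ _
  have hWm : ∀ j, MeasurableSet (W j) := fun j => measurableSet_WE hG _ _
  set LL : Set (ℕ → Bool) := ⋂ n : ℕ, ⋃ (j : ℕ) (_ : n ≤ j), L j with hLL
  set WW : Set (ℕ → Bool) := ⋂ n : ℕ, ⋃ (j : ℕ) (_ : n ≤ j), W j with hWW
  have hLLm : MeasurableSet LL := MeasurableSet.iInter fun n => MeasurableSet.iUnion fun j =>
    MeasurableSet.iUnion fun _ => hLm j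
  have hWWm : MeasurableSet WW := MeasurableSet.iInter fun n => MeasurableSet.iUnion fun j =>
    MeasurableSet.iUnion fun _ => hWm j
  have hWW0 : coin WW = 0 := by
    have := ae_eventually_notMem (μ := coin) (quarter_tsum_ne_top h2)
    refine measure_mono_null ?_ this
    intro z hz hcon
    obtain ⟨n, hn⟩ := Filter.eventually_atTop.1 hcon
    rw [hWW, Set.mem_iInter] at hz
    have h3 := hz n
    simp only [Set.mem_iUnion] at h3
    obtain ⟨j, hj, hzj⟩ := h3
    exact hn j hj hzj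
  have hLL3 : 1 / 3 ≤ coin.real LL := third_le_io hLm h1
  refine ⟨LL \ (Bs ∪ WW), hLLm.diff (hG.meas.union hWWm), ?_, ?_⟩
  · have hsub : LL ⊆ (LL \ (Bs ∪ WW)) ∪ (Bs ∪ WW) := by
      intro z hz
      by_cases hz2 : z ∈ Bs ∪ WW
      · exact Or.inr hz2
      · exact Or.inl ⟨hz, hz2⟩
    have h4 : coin.real LL ≤ coin.real (LL \ (Bs ∪ WW)) + (coin.real Bs + coin.real WW) :=
      (measureReal_mono hsub).trans ((measureReal_union_le _ _).trans
        (add_le_add le_rfl (measureReal_union_le _ _)))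
    have h5 : coin.real WW = 0 := by rw [measureReal_def, hWW0]; rfl
    have h6 := hG.small
    rw [h5] at h4
    linarith
  · rintro z ⟨hz, hzn⟩
    have hzB : z ∉ Bs := fun h => hzn (Or.inl h)
    have hzW : z ∉ WW := fun h => hzn (Or.inr h)
    constructor
    · intro n
      rw [hLL, Set.mem_iInter] at hz
      have h3 := hz n
      simp only [Set.mem_iUnion] at h3
      obtain ⟨j, hj, b, hb1, hb2⟩ := h3
      exact ⟨j, hj, b, hb1, hb2⟩
    · rw [hWW, Set.mem_iInter] at hzW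
      push Not at hzW
      obtain ⟨n, hn⟩ := hzW
      refine ⟨n, fun j hj b hb => ?_⟩
      by_contra hcon
      apply hn
      simp only [Set.mem_iUnion]
      exact ⟨j, hj, hzB, b, hb, hcon⟩

end Pool.Agent.RJ
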