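import Mathlib
import Pool.Agent.RJ.CIX

/-!
Certificates for tests are sound and complete.
-/

set_option autoImplicit false

namespace Pool.Agent.RJ

open Encodable Pool.Agent.H19 Pool.Agent.AEI
open Nat.Partrec (Code)

variable {m : ℕ} {lab : ℕ → List Bool → Code} {c : Cand} {k : ℕ}

private theorem chkP1_of {z : ℕ → Bool} {N : ℕ} {F : Cert}
    (hF : chkP m lab c k (pre z N) F = true) {q : List ℕ × List Bool} (hq : q ∈ F) :
    cov N q.1 (max m c.1) = true ∧
      ((q.1.length = k ∧ val c (Tw q.1 z) <+: q.2) ∨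
        (q.1.length < k ∧ 62 * MM ≤ cntp fun i =>
          (i :: q.1, zf (lab i (pre (Tw q.1 z) m)) q.2) ∈ F)) := by
  have h1 := List.all_eq_true.1 hF q hq
  unfold chkP1 at h1
  rw [Bool.and_eq_true, pre_length] at h1
  obtain ⟨h2, h3⟩ := h1
  refine ⟨h2, ?_⟩
  by_cases hl : q.1.length = k
  · left
    rw [if_pos (by simpa using hl), isPre_iff,
      seg_pre (cov_mono h2 le_rfl (le_max_right _ _))] at h3
    exact ⟨hl, h3⟩
  · right
    rw [if_neg (by simpa using hl), Bool.and_eq_true, decide_eq_true_iff, decide_eq_true_iff,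
      cntb_eq, seg_pre (cov_mono h2 le_rfl (le_max_left _ _))] at h3
    refine ⟨h3.1, h3.2.trans (cntp_mono fun i _ hi => ?_)⟩
    rw [List.any_eq_true] at hi
    obtain ⟨q', hq', h4⟩ := hi
    rw [Bool.and_eq_true, decide_eq_true_iff, decide_eq_true_iff] at h4
    rw [← h4.1, ← h4.2]
    exact hq'

private theorem chkP1_intro {z : ℕ → Bool} {N : ℕ} {F : Cert} {q : List ℕ × List Bool}
    (h1 : cov N q.1 (max m c.1) = true)
    (h2 : (q.1.length = k ∧ val c (Tw q.1 z) <+: q.2) ∨
        (q.1.length < k ∧ 62 * MM ≤ cntp fun i =>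
          (i :: q.1, zf (lab i (pre (Tw q.1 z) m)) q.2) ∈ F)) :
    chkP1 m lab c k (pre z N) F q = true := by
  unfold chkP1
  rw [Bool.and_eq_true, pre_length]
  refine ⟨h1, ?_⟩
  rcases h2 with ⟨hl, h3⟩ | ⟨hl, h3⟩
  · rw [if_pos (by simpa using hl), isPre_iff, seg_pre (cov_mono h1 le_rfl (le_max_right _ _))]
    exact h3
  · rw [if_neg (by simpa using hl.ne), Bool.and_eq_true, decide_eq_true_iff, decide_eq_true_iff,
      cntb_eq, seg_pre (cov_mono h1 le_rfl (le_max_left _ _))]
    refine ⟨hl, h3.trans (cntp_mono fun i _ hi => ?_)⟩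
    rw [List.any_eq_true]
    refine ⟨_, hi, ?_⟩
    rw [Bool.and_eq_true, decide_eq_true_iff, decide_eq_true_iff]
    exact ⟨rfl, rfl⟩

/-- Soundness at all nodes. -/
theorem pass_of_chk {z : ℕ → Bool} {N : ℕ} {F : Cert} (hF : chkP m lab c k (pre z N) F = true)
    {w : List ℕ} {a : List Bool} (hw : (w, a) ∈ F) :
    w.length ≤ k ∧ Pass m lab c (k - w.length) (Tw w z) a := by
  have key : ∀ (n : ℕ) (w : List ℕ) (a : List Bool), (w, a) ∈ F → k - w.length = n →
      w.length ≤ k ∧ Pass m lab c (k - w.length) (Tw w z) a := by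
    intro n
    induction n with
    | zero =>
      intro w a hw hn
      obtain ⟨h1, h2 | h2⟩ := chkP1_of hF hw
      · refine ⟨h2.1.le, ?_⟩
        rw [hn]
        exact h2.2
      · have := h2.1
        simp only at this
        omega
    | succ n ih =>
      intro w a hw hn
      obtain ⟨h1, h2 | h2⟩ := chkP1_of hF hw
      · have := h2.1
        simp only at this
        omega
      · have hl := h2.1
        simp only at hl
        refine ⟨hl.le, ?_⟩
        rw [hn]
        refine h2.2.trans (cntp_mono fun i _ hi => ?_)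
        obtain ⟨h5, h6⟩ := ih _ _ hi (by simp only [List.length_cons]; omega)
        have h7 : k - (i :: w).length = n := by simp only [List.length_cons]; omega
        rw [h7, Tw_cons] at h6
        exact h6
  exact key _ w a hw rfl

private theorem chkP_mono {N N' : ℕ} {z : ℕ → Bool} {F : Cert} {w : List ℕ} {a : List Bool}
    (hN : N ≤ N') {G : Cert} (hFG : ∀ q ∈ F, q ∈ G)
    (hF : chkP m lab c k (pre z N) F = true) (hw : (w, a) ∈ F) :
    chkP1 m lab c k (pre z N') G (w, a) = true := by
  obtain ⟨h1, h2⟩ := chkP1_of hF hw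
  exact chkP1_intro (cov_mono h1 hN le_rfl) (h2.imp id fun h2 => ⟨h2.1, h2.2.trans
    (cntp_mono fun i _ hi => hFG _ hi)⟩)

/-- Completeness at all nodes. -/
theorem exists_chk_of_pass {z : ℕ → Bool} (h : ℕ) {w : List ℕ} {a : List Bool}
    (hw : w.length + h = k) (ha : Pass m lab c h (Tw w z) a) :
    ∃ (N0 : ℕ) (F : Cert), (w, a) ∈ F ∧ ∀ N ≥ N0, chkP m lab c k (pre z N) F = true := by
  induction h generalizing w a with
  | zero =>
    obtain ⟨N0, hN0⟩ := exists_cov w (max m c.1)
    refine ⟨N0, [(w, a)], by simp, fun N hN => ?_⟩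
    unfold chkP
    simp only [List.all_cons, List.all_nil, Bool.and_true]
    exact chkP1_intro (cov_mono hN0 hN le_rfl) (Or.inl ⟨by simpa using hw, ha⟩)
  | succ h ih =>
    have h1 : ∀ i : ℕ, ∃ (N0 : ℕ) (F : Cert),
        (∀ N ≥ N0, chkP m lab c k (pre z N) F = true) ∧
        (Pass m lab c h (T i (Tw w z)) (zf (lab i (pre (Tw w z) m)) a) →
          (i :: w, zf (lab i (pre (Tw w z) m)) a) ∈ F) := by
      intro i
      by_cases hi : Pass m lab c h (T i (Tw w z)) (zf (lab i (pre (Tw w z) m)) a)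
      · have h2 := hi
        rw [← Tw_cons] at h2
        obtain ⟨N0, F, h4, h5⟩ := ih (w := i :: w)
          (by simp only [List.length_cons]; omega) h2
        exact ⟨N0, F, h5, fun _ => h4⟩
      · exact ⟨0, [], fun N _ => by simp [chkP], fun h => absurd h hi⟩
    choose N0 F h2 h3 using h1
    obtain ⟨N1, hN1⟩ := exists_cov w (max m c.1)
    have hS : ∀ i < RR, N0 i ≤ (Finset.range RR).sup N0 := fun i hi =>
      Finset.le_sup (f := N0) (Finset.mem_range.2 hi)
    refine ⟨max N1 ((Finset.range RR).sup N0), (w, a) :: (List.range RR).flatMap F, by simp,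
      fun N hN => ?_⟩
    unfold chkP
    rw [List.all_eq_true]
    intro q hq
    rcases List.mem_cons.1 hq with rfl | hq
    · exact chkP1_intro (cov_mono hN1 ((le_max_left _ _).trans hN) le_rfl) (Or.inr
        ⟨by simp only; omega, ha.trans (cntp_mono fun i hi h4 =>
          List.mem_cons_of_mem _ (List.mem_flatMap.2 ⟨i, List.mem_range.2 hi, h3 i h4⟩))⟩)
    · obtain ⟨i, hi, hq⟩ := List.mem_flatMap.1 hq
      have hi := List.mem_range.1 hi
      have h7 : N0 i ≤ N := (hS i hi).trans ((le_max_right _ _).trans hN)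
      exact chkP_mono le_rfl (F := F i) (fun q hq => List.mem_cons_of_mem _
        (List.mem_flatMap.2 ⟨i, List.mem_range.2 hi, hq⟩)) (h2 i N h7) hq

theorem rootS_iff {a : List Bool} {F : Cert} : rootS a F = true ↔ ([], a) ∈ F := by
  unfold rootS
  rw [List.any_eq_true]
  constructor
  · rintro ⟨⟨w, b⟩, h1, h2⟩
    rw [Bool.and_eq_true, decide_eq_true_iff, decide_eq_true_iff] at h2
    obtain ⟨h2, h3⟩ := h2
    simp only at h2 h3
    subst h2
    subst h3
    exact h1
  · intro h1
    exact ⟨([], a), h1, by simp⟩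

theorem pass_iff {z : ℕ → Bool} {a : List Bool} : Pass m lab c k z a ↔
    ∃ (N : ℕ) (F : Cert), rootS a F = true ∧ chkP m lab c k (pre z N) F = true := by
  constructor
  · intro h
    obtain ⟨N0, F, h3, h4⟩ := exists_chk_of_pass (z := z) k (w := []) (a := a) (k := k)
      (by simp) (by simpa using h)
    exact ⟨N0, F, rootS_iff.2 h3, h4 N0 le_rfl⟩
  · rintro ⟨N, F, h3, h4⟩
    obtain ⟨h5, h6⟩ := pass_of_chk h4 (rootS_iff.1 h3)
    simpa using h6

end Pool.Agent.RJ
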