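import Mathlib
import Pool.Agent.RJ.CUT
import Pool.Agent.RJ.CEC
import Pool.Agent.RJ.CPS
import Pool.Agent.RJ.CAD

/-!
Selection, computable part: `x` together with `f x` computes a sequence of admissible candidates
which pass their tests.
-/

set_option autoImplicit false

namespace Pool.Agent.RJ

open MeasureTheory Encodable Pool.Agent.H19 Pool.Agent.AEI
open Nat.Partrec (Code)

/-- Search data: a candidate, a length and a certificate of admissibility, a length and a
certificate of the test, and the length of the string which is tested. -/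
private abbrev DS := Cand × ((ℕ × List (List Bool × Cert)) × (ℕ × (Cert × ℕ)))

private def ds (q : ℕ) : DS := (decode (α := DS) q).getD ((0, []), ((0, []), (0, ([], 0))))

private theorem ds_encode (x : DS) : ds (encode x) = x := by simp [ds]

private theorem comp_ds : Computable ds :=
  Computable.option_getD Computable.decode (Computable.const _)

/-- The test: `u` and `v` are the codes of initial segments of `x` and `f x`. -/
private def tss (m : ℕ) (lab : ℕ → List Bool → Code) (j0 p u v : ℕ) : ℕ :=
  if chkA m lab (ds p.unpair.2).1 (p.unpair.1 + j0) (ds p.unpair.2).2.1.1 (ds p.unpair.2).2.1.2 &&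
    (rootS ((decode (α := List Bool) v).getD []) (ds p.unpair.2).2.2.2.1 &&
      chkP m lab (ds p.unpair.2).1 (p.unpair.1 + j0 + encode (ds p.unpair.2).1 + 1)
        ((decode (α := List Bool) u).getD []) (ds p.unpair.2).2.2.2.1) then 0 else 1

private theorem comp_tss {m : ℕ} {lab : ℕ → List Bool → Code} (hlab : Computable₂ lab)
    (j0 : ℕ) : Computable fun x : ℕ × (ℕ × ℕ) => tss m lab j0 x.1 x.2.1 x.2.2 := by
  have h1 : Computable fun x : ℕ × (ℕ × ℕ) => x.1.unpair.1 + j0 :=
    comp_add' (Computable.fst.comp (Computable.unpair.comp Computable.fst)) (Computable.const j0)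
  have h2 : Computable fun x : ℕ × (ℕ × ℕ) => ds x.1.unpair.2 :=
    comp_ds.comp (Computable.snd.comp (Computable.unpair.comp Computable.fst))
  have h3 : Computable fun x : ℕ × (ℕ × ℕ) => (ds x.1.unpair.2).1 := Computable.fst.comp h2
  have h4 : Computable fun x : ℕ × (ℕ × ℕ) => (ds x.1.unpair.2).2.1 :=
    Computable.fst.comp (Computable.snd.comp h2)
  have h5 : Computable fun x : ℕ × (ℕ × ℕ) => (ds x.1.unpair.2).2.2.2.1 :=
    Computable.fst.comp (Computable.snd.comp (Computable.snd.comp (Computable.snd.comp h2)))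
  have h6 : Computable fun x : ℕ × (ℕ × ℕ) => (decode (α := List Bool) x.2.1).getD [] :=
    Computable.option_getD (Computable.decode.comp (Computable.fst.comp Computable.snd))
      (Computable.const [])
  have h7 : Computable fun x : ℕ × (ℕ × ℕ) => (decode (α := List Bool) x.2.2).getD [] :=
    Computable.option_getD (Computable.decode.comp (Computable.snd.comp Computable.snd))
      (Computable.const [])
  have h8 : Computable fun x : ℕ × (ℕ × ℕ) =>
      x.1.unpair.1 + j0 + encode (ds x.1.unpair.2).1 + 1 :=
    Computable.succ.comp (comp_add' h1 (Computable.encode.comp h3))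
  refine comp_ite (c := fun x : ℕ × (ℕ × ℕ) => chkA m lab (ds x.1.unpair.2).1
    (x.1.unpair.1 + j0) (ds x.1.unpair.2).2.1.1 (ds x.1.unpair.2).2.1.2 &&
    (rootS ((decode (α := List Bool) x.2.2).getD []) (ds x.1.unpair.2).2.2.2.1 &&
      chkP m lab (ds x.1.unpair.2).1 (x.1.unpair.1 + j0 + encode (ds x.1.unpair.2).1 + 1)
        ((decode (α := List Bool) x.2.1).getD []) (ds x.1.unpair.2).2.2.2.1)) ?_
    (Computable.const 0) (Computable.const 1)
  exact comp_and (comp_chkA hlab h3 h1 (Computable.fst.comp h4) (Computable.snd.comp h4))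
    (comp_and (comp_rootS h7 h5) (comp_chkP hlab h3 h8 h6 h5))

theorem exists_seq {f : (ℕ → Bool) → (ℕ → Bool)} {m : ℕ} {lab : ℕ → List Bool → Code}
    (hlab : Computable₂ lab) {x : ℕ → Bool} {j0 : ℕ}
    (h : ∀ j ≥ j0, ∃ c : Cand, Adm m lab c j ∧ x ∈ PE f m lab c (j + encode c + 1)) :
    ∃ Q : ℕ → ℕ, TotRec (jn x (f x)) Q ∧ ∀ j, Adm m lab (cand (Q j)) (j + j0) ∧
      x ∈ PE f m lab (cand (Q j)) (j + j0 + encode (cand (Q j)) + 1) := by
  have hx : TotRec (jn x (f x)) (fun n => encode (pre x n)) :=
    totRec_mono (TotRec.pre x) (left_le_jn x (f x))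
  have hf : TotRec (jn x (f x)) (fun n => encode (pre (f x) n)) :=
    totRec_mono (TotRec.pre (f x)) (right_le_jn x (f x))
  have hd : ∀ {g : ℕ → ℕ}, Computable g → TotRec (jn x (f x)) g :=
    fun hg => TotRec.of_computable hg
  have hq : Computable fun p : ℕ => ds p.unpair.2 :=
    comp_ds.comp (Computable.snd.comp Computable.unpair)
  obtain ⟨g, hg, hg0⟩ := exists_select (Z := jn x (f x))
    (t := fun n q => tss m lab j0 (Nat.pair n q) (encode (pre x (ds q).2.2.1))
      (encode (pre (f x) (ds q).2.2.2.2))) (by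
      have h3 := totRec_comp3 (Z := jn x (f x)) (comp_tss (m := m) hlab j0)
        (a := fun p => p) (b := fun p => encode (pre x (ds p.unpair.2).2.2.1))
        (c := fun p => encode (pre (f x) (ds p.unpair.2).2.2.2.2)) (hd Computable.id)
        (hx.comp (hd (Computable.fst.comp (Computable.snd.comp (Computable.snd.comp hq)))))
        (hf.comp (hd (Computable.snd.comp (Computable.snd.comp (Computable.snd.comp
          (Computable.snd.comp hq))))))
      refine (h3 : Nat.RecursiveIn _ _).of_eq fun p => ?_
      simp) (by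
      intro n
      obtain ⟨c, hA, t, hP⟩ := h (n + j0) (Nat.le_add_left _ _)
      obtain ⟨NA, A, hA⟩ := exists_chkA hA
      obtain ⟨N, F, hF, hc⟩ := pass_iff.1 hP
      refine ⟨encode ((c, ((NA, A), (N, (F, t)))) : DS), ?_⟩
      simp only [tss, ds_encode, Nat.unpair_pair, encodek, Option.getD_some, hA, hF, hc,
        Bool.and_true, if_true])
  refine ⟨fun n => encode (ds (g n)).1, ?_, fun n => ?_⟩
  · exact TotRec.comp_computable (Computable.encode.comp (Computable.fst.comp comp_ds)) hg
  · have h1 := hg0 n
    simp only [tss, Nat.unpair_pair, encodek, Option.getD_some] at h1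
    have hc : (chkA m lab (ds (g n)).1 (n + j0) (ds (g n)).2.1.1 (ds (g n)).2.1.2 &&
      (rootS (pre (f x) (ds (g n)).2.2.2.2) (ds (g n)).2.2.2.1 &&
        chkP m lab (ds (g n)).1 (n + j0 + encode (ds (g n)).1 + 1)
          (pre x (ds (g n)).2.2.1) (ds (g n)).2.2.2.1)) = true := by
      by_contra hno
      rw [if_neg hno] at h1
      exact one_ne_zero h1
    simp only [Bool.and_eq_true] at hc
    obtain ⟨h2, h3, h4⟩ := hc
    simp only [cand_encode]
    exact ⟨adm_of_chkA h2, _, pass_iff.2 ⟨_, _, h3, h4⟩⟩

end Pool.Agent.RJ
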