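import Mathlib
import Pool.Agent.RJ.CDF

/-!
Selection, measure part: for almost every `x` outside `Bs`, for all large `j`, every candidate
which passes its test is right, and some admissible candidate passes. The bounds on the
probabilities are hypotheses here.
-/

set_option autoImplicit false

namespace Pool.Agent.RJ

open MeasureTheory Encodable Pool.Agent.H19 Pool.Agent.AEI
open Nat.Partrec (Code)

theorem coin_le_quarter_pow {s : Set (ℕ → Bool)} {k : ℕ} (h : coin.real s ≤ (1 / 4) ^ k) :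
    coin s ≤ (4⁻¹ : ENNReal) ^ k := by
  rw [← ofReal_measureReal (μ := coin) (s := s)]
  refine (ENNReal.ofReal_le_ofReal h).trans (le_of_eq ?_)
  rw [ENNReal.ofReal_pow (by norm_num)]
  congr 1
  rw [one_div, ENNReal.ofReal_inv_of_pos (by norm_num)]
  norm_num

theorem tsum_quarter_ne_top : (∑' n : ℕ, (4⁻¹ : ENNReal) ^ n) ≠ ⊤ := by
  rw [ENNReal.tsum_geometric]
  refine ENNReal.inv_ne_top.2 ?_
  rw [Ne, tsub_eq_zero_iff_le, not_le]
  exact ENNReal.inv_lt_one.2 (by norm_num)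

theorem ae_select {f : (ℕ → Bool) → (ℕ → Bool)} {m : ℕ} {lab : ℕ → List Bool → Code}
    {Bs : Set (ℕ → Bool)}
    (h1 : ∀ (c : Cand) (k : ℕ), 1 ≤ k → 3 / 32 < coin.real (errset f c) →
      coin.real ({x | x ∉ Bs} ∩ PE f m lab c k) ≤ (1 / 4) ^ k)
    (h2 : ∀ (c : Cand) (k : ℕ), coin.real (errset f c) ≤ 1 / 256 →
      coin.real ({x | x ∉ Bs} ∩ (PE f m lab c k)ᶜ) ≤ (1 / 4) ^ k)
    (h3 : ∀ j : ℕ, ∃ c : Cand, coin.real (errset f c) ≤ 1 / 256 ∧ Adm m lab c j) :
    ∀ᵐ x ∂coin, x ∉ Bs → ∃ j0 : ℕ, ∀ j ≥ j0,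
      (∀ c : Cand, x ∈ PE f m lab c (j + encode c + 1) → coin.real (errset f c) ≤ 3 / 32) ∧
      ∃ c : Cand, Adm m lab c j ∧ x ∈ PE f m lab c (j + encode c + 1) := by
  classical
  choose g hg using h3
  set K : ENNReal := ∑' n : ℕ, (4⁻¹ : ENNReal) ^ n with hK
  have hKt : K ≠ ⊤ := tsum_quarter_ne_top
  let S : ℕ → Cand → Set (ℕ → Bool) := fun j c =>
    if 3 / 32 < coin.real (errset f c) then {x | x ∉ Bs} ∩ PE f m lab c (j + encode c + 1) else ∅
  let A : ℕ → Set (ℕ → Bool) := fun j =>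
    (⋃ c, S j c) ∪ ({x | x ∉ Bs} ∩ (PE f m lab (g j) (j + encode (g j) + 1))ᶜ)
  have hq1 : (4⁻¹ : ENNReal) ≤ 1 := ENNReal.inv_le_one.2 (by norm_num)
  have hS : ∀ j c, coin (S j c) ≤ (4⁻¹ : ENNReal) ^ j * (4⁻¹ : ENNReal) ^ encode c := by
    intro j c
    by_cases hc : 3 / 32 < coin.real (errset f c)
    · have : S j c = {x | x ∉ Bs} ∩ PE f m lab c (j + encode c + 1) := if_pos hc
      rw [this, ← pow_add]
      refine (coin_le_quarter_pow (h1 c (j + encode c + 1) (by omega) hc)).trans ?_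
      exact pow_le_pow_right_of_le_one' hq1 (Nat.le_succ _)
    · have : S j c = ∅ := if_neg hc
      rw [this]
      simp
  have hA : ∀ j, coin (A j) ≤ (4⁻¹ : ENNReal) ^ j * (K + 1) := by
    intro j
    refine (measure_union_le _ _).trans ?_
    rw [mul_add]
    refine add_le_add ?_ ?_
    · refine (measure_iUnion_le _).trans ?_
      refine (ENNReal.tsum_le_tsum fun c => hS j c).trans ?_
      rw [ENNReal.tsum_mul_left]
      gcongr
      exact ENNReal.tsum_comp_le_tsum_of_injective Encodable.encode_injective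
        (fun n : ℕ => (4⁻¹ : ENNReal) ^ n)
    · rw [mul_one]
      refine (coin_le_quarter_pow (h2 (g j) _ (hg j).1)).trans ?_
      exact pow_le_pow_right_of_le_one' hq1 (by omega)
  have hsum : ∑' j, coin (A j) ≠ ⊤ := by
    refine ne_top_of_le_ne_top ?_ (ENNReal.tsum_le_tsum hA)
    rw [ENNReal.tsum_mul_right]
    exact ENNReal.mul_ne_top hKt (ENNReal.add_ne_top.2 ⟨hKt, ENNReal.one_ne_top⟩)
  filter_upwards [ae_eventually_notMem hsum] with x hx hxB
  obtain ⟨j0, hj0⟩ := Filter.eventually_atTop.1 hx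
  refine ⟨j0, fun j hj => ?_⟩
  have hxA := hj0 j hj
  have hxA1 : x ∉ ⋃ c, S j c := fun h => hxA (Or.inl h)
  have hxA2 : x ∉ {x | x ∉ Bs} ∩ (PE f m lab (g j) (j + encode (g j) + 1))ᶜ :=
    fun h => hxA (Or.inr h)
  refine ⟨fun c hc => ?_, g j, (hg j).2, ?_⟩
  · by_contra hcon
    rw [not_le] at hcon
    apply hxA1
    rw [Set.mem_iUnion]
    refine ⟨c, ?_⟩
    have : S j c = {x | x ∉ Bs} ∩ PE f m lab c (j + encode c + 1) := if_pos hcon
    rw [this]
    exact ⟨hxB, hc⟩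
  · by_contra hcon
    exact hxA2 ⟨hxB, hcon⟩

end Pool.Agent.RJ
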