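import Mathlib
import Pool.Agent.RJ.CSM
import Pool.Agent.RJ.CSC
import Pool.Agent.RJ.CDM
import Pool.Agent.RJ.CDC

/-!
Selection and decoding: the two statements of the computable half.
-/

set_option autoImplicit false

namespace Pool.Agent.RJ

open MeasureTheory Encodable Pool.Agent.H19 Pool.Agent.AEI
open Nat.Partrec (Code)

/-- Selection. -/
theorem selection {f : (ℕ → Bool) → (ℕ → Bool)} {m : ℕ} {lab : ℕ → List Bool → Code}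
    {Bs : Set (ℕ → Bool)} (hG : GoodS f m lab Bs)
    (h1 : ∀ (c : Cand) (k : ℕ), 1 ≤ k → 3 / 32 < coin.real (errset f c) →
      coin.real ({x | x ∉ Bs} ∩ PE f m lab c k) ≤ (1 / 4) ^ k)
    (h2 : ∀ (c : Cand) (k : ℕ), coin.real (errset f c) ≤ 1 / 256 →
      coin.real ({x | x ∉ Bs} ∩ (PE f m lab c k)ᶜ) ≤ (1 / 4) ^ k)
    (h3 : ∀ j : ℕ, ∃ c : Cand, coin.real (errset f c) ≤ 1 / 256 ∧ Adm m lab c j) :
    ∀ᵐ x ∂coin, x ∉ Bs → ∃ (j0 : ℕ) (Q : ℕ → ℕ), TotRec (jn x (f x)) Q ∧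
      ∀ j, Adm m lab (cand (Q j)) (j + j0) ∧ coin.real (errset f (cand (Q j))) ≤ 3 / 32 := by
  filter_upwards [ae_select h1 h2 h3] with x hx hxB
  obtain ⟨j0, hj0⟩ := hx hxB
  obtain ⟨Q, hQ, hQ2⟩ := exists_seq (f := f) hG.comp (x := x) (j0 := j0) fun j hj => (hj0 j hj).2
  exact ⟨j0, Q, hQ, fun j => ⟨(hQ2 j).1, (hj0 (j + j0) (Nat.le_add_left _ _)).1 _ (hQ2 j).2⟩⟩

/-- Decoding. -/
theorem decoding {f : (ℕ → Bool) → (ℕ → Bool)} {m : ℕ} {lab : ℕ → List Bool → Code}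
    {Bs : Set (ℕ → Bool)} (hG : GoodS f m lab Bs)
    (h4 : ∀ (c : Cand) (j : ℕ), coin.real (errset f c) ≤ 3 / 32 →
      coin.real (WE f m lab Bs c j) ≤ (1 / 4) ^ j)
    {Q : ℕ → ℕ} {O : ℕ → Bool} (hQ : TotRec O Q) {j0 : ℕ}
    (h : ∀ j, Adm m lab (cand (Q j)) (j + j0) ∧ coin.real (errset f (cand (Q j))) ≤ 3 / 32) :
    ∃ E : Set (ℕ → Bool), MeasurableSet E ∧ 1 / 4 ≤ coin.real E ∧
      ∀ z ∈ E, TuringReducible (chi (f z)) (chi (jn z O)) := by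
  obtain ⟨E, hE, hE2, hE3⟩ := exists_decode_set hG (c := fun j => cand (Q j)) (j0 := j0)
    (fun j => (h j).1) fun j => h4 _ _ (h j).2
  exact ⟨E, hE, hE2, fun z hz => decode_red hG.comp hQ (hE3 z hz).1 (hE3 z hz).2⟩

end Pool.Agent.RJ
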