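import Mathlib
import Pool.Agent.RJ.Defs
import Pool.Agent.RJ.CAP

/-!
Approximation of measurable sets by sets given by initial segments.
-/

set_option autoImplicit false

namespace Pool.Agent.RJ

open MeasureTheory Encodable Pool.Agent.H19 Pool.Agent.AEI
open Nat.Partrec (Code)

theorem exists_pre_set {B : Set (ℕ → Bool)} (hB : MeasurableSet B) {ε : ℝ} (hε : 0 < ε) :
    ∃ (s : ℕ) (p : List Bool → Bool), coin.real (symmDiff B {y | p (pre y s) = true}) ≤ ε := by
  obtain ⟨N, p, h⟩ := exists_pre_approx hB (ε := ENNReal.ofReal ε) (ENNReal.ofReal_pos.2 hε)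
  refine ⟨N, p, ?_⟩
  rw [symmDiff_comm]
  exact ENNReal.toReal_le_of_le_ofReal hε.le h.le

end Pool.Agent.RJ
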