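import Mathlib
import Pool.Agent.RJ.TAU

/-!
The gap inequality for coefficients.
-/

set_option autoImplicit false

namespace Pool.Agent.RJ

open MeasureTheory Encodable Pool.Agent.H19 Pool.Agent.AEI
open Nat.Partrec (Code)

theorem tau_inj {i : ℕ} (hi : i < RR) : Function.Injective (tau i) := fun a b h => by
  rw [← tau_tau hi a, ← tau_tau hi b, h]

theorem image_image {i : ℕ} (hi : i < RR) (G : Finset ℕ) :
    (G.image (tau i)).image (tau i) = G := by
  rw [Finset.image_image]
  have h : tau i ∘ tau i = id := by funext m; exact tau_tau hi m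
  rw [h, Finset.image_id]

theorem card_image_tau {i : ℕ} (hi : i < RR) (G : Finset ℕ) : (G.image (tau i)).card = G.card :=
  Finset.card_image_of_injective G (tau_inj hi)

/-- For `i < RR`: if `G` is not `i`-heavy then `tau i G` is at least half
`i`-heavy. -/
theorem heavy_image {i : ℕ} (hi : i < RR) (G : Finset ℕ)
    (h : 2 * (G.filter fun m => m % RR = i).card ≤ G.card) :
    (G.image (tau i)).card ≤ 2 * ((G.image (tau i)).filter fun m => m % RR = i).card := by
  have h1 : ((G.filter fun m => ¬ m % RR = i).image (tau i)) ⊆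
      (G.image (tau i)).filter fun m => m % RR = i := by
    intro m hm
    obtain ⟨k, hk, rfl⟩ := Finset.mem_image.1 hm
    obtain ⟨hk1, hk2⟩ := Finset.mem_filter.1 hk
    exact Finset.mem_filter.2 ⟨Finset.mem_image_of_mem _ hk1, tau_mem hi hk2⟩
  have h2 := Finset.card_le_card h1
  rw [card_image_tau hi] at h2
  have h3 := Finset.card_filter_add_card_filter_not (s := G) (fun m => m % RR = i)
  rw [card_image_tau hi]
  omega

/-- Strictly heavy. -/
def Hv (i : ℕ) (G : Finset ℕ) : Prop := G.card < 2 * (G.filter fun m => m % RR = i).card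
/-- At least half heavy. -/
def Hw (i : ℕ) (G : Finset ℕ) : Prop := G.card ≤ 2 * (G.filter fun m => m % RR = i).card

theorem card_two {i j : ℕ} (hij : i ≠ j) (G : Finset ℕ) :
    (G.filter fun m => m % RR = i).card + (G.filter fun m => m % RR = j).card ≤ G.card := by
  rw [← Finset.card_union_of_disjoint]
  · exact Finset.card_le_card (Finset.union_subset (Finset.filter_subset _ _)
      (Finset.filter_subset _ _))
  · rw [Finset.disjoint_left]
    intro m h1 h2
    exact hij ((Finset.mem_filter.1 h1).2.symm.trans (Finset.mem_filter.1 h2).2)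

theorem card_three {i j k : ℕ} (hij : i ≠ j) (hik : i ≠ k) (hjk : j ≠ k) (G : Finset ℕ) :
    (G.filter fun m => m % RR = i).card + (G.filter fun m => m % RR = j).card +
      (G.filter fun m => m % RR = k).card ≤ G.card := by
  rw [← Finset.card_union_of_disjoint, ← Finset.card_union_of_disjoint]
  · exact Finset.card_le_card (Finset.union_subset (Finset.union_subset (Finset.filter_subset _ _)
      (Finset.filter_subset _ _)) (Finset.filter_subset _ _))
  · rw [Finset.disjoint_left]
    intro m h1 h2
    have h3 := (Finset.mem_filter.1 h2).2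
    rcases Finset.mem_union.1 h1 with h4 | h4
    · exact hik ((Finset.mem_filter.1 h4).2.symm.trans h3)
    · exact hjk ((Finset.mem_filter.1 h4).2.symm.trans h3)
  · rw [Finset.disjoint_left]
    intro m h1 h2
    exact hij ((Finset.mem_filter.1 h1).2.symm.trans (Finset.mem_filter.1 h2).2)

/-- At least half heavy and nonempty. -/
def Hx (i : ℕ) (G : Finset ℕ) : Prop := Hw i G ∧ G.Nonempty

/-- At most one `i` is strictly heavy. -/
theorem Hv_unique {i j : ℕ} {G : Finset ℕ} (hi : Hv i G) (hj : Hv j G) : i = j := by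
  by_contra hij
  have := card_two hij G
  unfold Hv at hi hj
  omega

open Classical in
/-- At most two `i` are half heavy. -/
theorem Hw_two (G : Finset ℕ) (hG : G.Nonempty) :
    ((Finset.range RR).filter fun i => Hw i G).card ≤ 2 := by
  by_contra h
  obtain ⟨i, hi, j, hj, k, hk, hij, hik, hjk⟩ := Finset.two_lt_card.1 (not_le.1 h)
  have h1 := (Finset.mem_filter.1 hi).2
  have h2 := (Finset.mem_filter.1 hj).2
  have h3 := (Finset.mem_filter.1 hk).2
  have h4 := card_three hij hik hjk G
  have h5 := Finset.card_pos.2 hG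
  unfold Hw at h1 h2 h3
  omega

open Classical in
theorem gap_coef (c : Finset ℕ →₀ ℝ) (h0 : c ∅ = 0) (𝓖 : Finset (Finset ℕ)) :
    ∑ G ∈ 𝓖, (∑ i ∈ Finset.range RR, c (G.image (tau i))) ^ 2 ≤
      6 * RR * ∑ F ∈ c.support, c F ^ 2 := by
  -- sums over the images
  have hsum : ∀ (i : ℕ), i < RR → ∀ (p : Finset ℕ → Prop) (𝓗 : Finset (Finset ℕ)),
      ∑ G ∈ 𝓗, (if p (G.image (tau i)) then c (G.image (tau i)) ^ 2 else 0) ≤
        ∑ F ∈ c.support, if p F then c F ^ 2 else 0 := by
    intro i hi p 𝓗
    have hinj : Set.InjOn (fun G : Finset ℕ => G.image (tau i)) 𝓗 := by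
      intro G _ G' _ h
      have h' : G.image (tau i) = G'.image (tau i) := h
      rw [← image_image hi G, ← image_image hi G', h']
    rw [← Finset.sum_image (f := fun F => if p F then c F ^ 2 else 0) hinj]
    calc ∑ F ∈ 𝓗.image (fun G : Finset ℕ => G.image (tau i)), (if p F then c F ^ 2 else 0)
        ≤ ∑ F ∈ 𝓗.image (fun G : Finset ℕ => G.image (tau i)) ∪ c.support,
            (if p F then c F ^ 2 else 0) :=
          Finset.sum_le_sum_of_subset_of_nonneg Finset.subset_union_left
            fun F _ _ => by split_ifs <;> positivity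
      _ = ∑ F ∈ c.support, (if p F then c F ^ 2 else 0) := by
          refine (Finset.sum_subset Finset.subset_union_right fun F _ hF => ?_).symm
          rw [Finsupp.notMem_support_iff.1 hF]
          simp
  -- the two parts
  let A : Finset ℕ → ℝ := fun G =>
    ∑ i ∈ Finset.range RR, if Hv i G then c (G.image (tau i)) else 0
  let B : Finset ℕ → ℝ := fun G =>
    ∑ i ∈ Finset.range RR, if Hv i G then 0 else c (G.image (tau i))
  have hAB : ∀ G, ∑ i ∈ Finset.range RR, c (G.image (tau i)) = A G + B G := by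
    intro G
    rw [← Finset.sum_add_distrib]
    refine Finset.sum_congr rfl fun i _ => ?_
    split_ifs <;> simp
  have hA : ∀ G, A G ^ 2 ≤ ∑ i ∈ Finset.range RR, c (G.image (tau i)) ^ 2 := by
    intro G
    by_cases h : ∃ i ∈ Finset.range RR, Hv i G
    · obtain ⟨i, hi, hiG⟩ := h
      have h1 : A G = c (G.image (tau i)) := by
        simp only [A]
        rw [Finset.sum_eq_single_of_mem i hi, if_pos hiG]
        intro j _ hji
        rw [if_neg fun hj => hji (Hv_unique hj hiG)]
      rw [h1]
      exact Finset.single_le_sum (f := fun i => c (G.image (tau i)) ^ 2)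
        (fun j _ => by positivity) hi
    · push Not at h
      have h1 : A G = 0 := Finset.sum_eq_zero fun i hi => if_neg (h i hi)
      rw [h1]
      have : 0 ≤ ∑ i ∈ Finset.range RR, c (G.image (tau i)) ^ 2 :=
        Finset.sum_nonneg fun i _ => by positivity
      simpa using this
  have hB : ∀ G, B G ^ 2 ≤ RR * ∑ i ∈ Finset.range RR,
      (if Hx i (G.image (tau i))
        then c (G.image (tau i)) ^ 2 else 0) := by
    intro G
    have h1 := sq_sum_le_card_mul_sum_sq (s := Finset.range RR)
      (f := fun i => if Hv i G then 0 else c (G.image (tau i)))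
    rw [Finset.card_range] at h1
    refine h1.trans (mul_le_mul_of_nonneg_left (Finset.sum_le_sum fun i hi => ?_) (by positivity))
    have hi' := Finset.mem_range.1 hi
    by_cases hv : Hv i G
    · rw [if_pos hv]
      have h2 : (0 : ℝ) ^ 2 = 0 := by norm_num
      rw [h2]
      split_ifs
      · exact sq_nonneg _
      · exact le_rfl
    · rw [if_neg hv]
      by_cases hne : (G.image (tau i)).Nonempty
      · have hw : Hx i (G.image (tau i)) := ⟨heavy_image hi' G (not_lt.1 hv), hne⟩
        rw [if_pos hw]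
      · rw [Finset.not_nonempty_iff_eq_empty.1 hne, h0]
        split_ifs <;> norm_num
  have hAs : ∑ G ∈ 𝓖, A G ^ 2 ≤ RR * ∑ F ∈ c.support, c F ^ 2 := by
    calc ∑ G ∈ 𝓖, A G ^ 2 ≤ ∑ G ∈ 𝓖, ∑ i ∈ Finset.range RR, c (G.image (tau i)) ^ 2 :=
          Finset.sum_le_sum fun G _ => hA G
      _ = ∑ i ∈ Finset.range RR, ∑ G ∈ 𝓖, c (G.image (tau i)) ^ 2 := Finset.sum_comm
      _ ≤ ∑ i ∈ Finset.range RR, ∑ F ∈ c.support, c F ^ 2 := by
          refine Finset.sum_le_sum fun i hi => ?_
          have := hsum i (Finset.mem_range.1 hi) (fun _ => True) 𝓖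
          simpa using this
      _ = RR * ∑ F ∈ c.support, c F ^ 2 := by
          rw [Finset.sum_const, Finset.card_range, nsmul_eq_mul]
  have hBs : ∑ G ∈ 𝓖, B G ^ 2 ≤ 2 * RR * ∑ F ∈ c.support, c F ^ 2 := by
    calc ∑ G ∈ 𝓖, B G ^ 2 ≤ ∑ G ∈ 𝓖, RR * ∑ i ∈ Finset.range RR,
            (if Hx i (G.image (tau i))
              then c (G.image (tau i)) ^ 2 else 0) := Finset.sum_le_sum fun G _ => hB G
      _ = RR * ∑ i ∈ Finset.range RR, ∑ G ∈ 𝓖,
            (if Hx i (G.image (tau i))
              then c (G.image (tau i)) ^ 2 else 0) := by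
          rw [← Finset.mul_sum, Finset.sum_comm]
      _ ≤ RR * ∑ i ∈ Finset.range RR, ∑ F ∈ c.support,
            (if Hx i F then c F ^ 2 else 0) := by
          refine mul_le_mul_of_nonneg_left (Finset.sum_le_sum fun i hi => ?_) (by positivity)
          exact hsum i (Finset.mem_range.1 hi) (fun F => Hx i F) 𝓖
      _ = RR * ∑ F ∈ c.support, ∑ i ∈ Finset.range RR,
            (if Hx i F then c F ^ 2 else 0) := by rw [Finset.sum_comm]
      _ ≤ RR * ∑ F ∈ c.support, 2 * c F ^ 2 := by
          refine mul_le_mul_of_nonneg_left (Finset.sum_le_sum fun F _ => ?_) (by positivity)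
          by_cases hne : F.Nonempty
          · have h1 : ∑ i ∈ Finset.range RR, (if Hx i F then c F ^ 2 else 0) =
                (((Finset.range RR).filter fun i => Hw i F).card : ℝ) * c F ^ 2 := by
              rw [← nsmul_eq_mul, ← Finset.sum_const, Finset.sum_filter]
              refine Finset.sum_congr rfl fun i _ => ?_
              simp [Hx, hne]
            rw [h1]
            refine mul_le_mul_of_nonneg_right ?_ (by positivity)
            exact_mod_cast Hw_two F hne
          · rw [Finset.sum_eq_zero fun i _ => if_neg fun h => hne h.2]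
            positivity
      _ = 2 * RR * ∑ F ∈ c.support, c F ^ 2 := by rw [← Finset.mul_sum]; ring
  calc ∑ G ∈ 𝓖, (∑ i ∈ Finset.range RR, c (G.image (tau i))) ^ 2
      = ∑ G ∈ 𝓖, (A G + B G) ^ 2 := Finset.sum_congr rfl fun G _ => by rw [hAB]
    _ ≤ ∑ G ∈ 𝓖, (2 * A G ^ 2 + 2 * B G ^ 2) := by
        refine Finset.sum_le_sum fun G _ => ?_
        nlinarith [sq_nonneg (A G - B G)]
    _ = 2 * ∑ G ∈ 𝓖, A G ^ 2 + 2 * ∑ G ∈ 𝓖, B G ^ 2 := by
        rw [Finset.sum_add_distrib, ← Finset.mul_sum, ← Finset.mul_sum]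
    _ ≤ 6 * RR * ∑ F ∈ c.support, c F ^ 2 := by linarith

end Pool.Agent.RJ
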