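import Mathlib
import Pool.Agent.RJ.TAU

/-!
Walsh functions.
-/

set_option autoImplicit false

namespace Pool.Agent.RJ

open MeasureTheory Encodable Pool.Agent.H19 Pool.Agent.AEI
open Nat.Partrec (Code)

/-- The Walsh function of a finite set of coordinates. -/
noncomputable def w (F : Finset ℕ) (x : ℕ → Bool) : ℝ := ∏ m ∈ F, if x m then (-1 : ℝ) else 1

theorem measurable_w (F : Finset ℕ) : Measurable (w F) := by
  unfold w
  refine Finset.measurable_prod _ fun m _ => ?_
  exact (measurable_of_countable fun b : Bool => if b then (-1 : ℝ) else 1).comp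
    (measurable_pi_apply m)

theorem abs_w (F : Finset ℕ) (x : ℕ → Bool) : |w F x| = 1 := by
  unfold w
  rw [Finset.abs_prod]
  refine Finset.prod_eq_one fun m _ => ?_
  split_ifs <;> simp

theorem w_mul_w (F G : Finset ℕ) (x : ℕ → Bool) : w F x * w G x = w (symmDiff F G) x := by
  have hsq : ∀ m : ℕ, (if x m then (-1 : ℝ) else 1) * (if x m then (-1 : ℝ) else 1) = 1 := by
    intro m
    split_ifs <;> norm_num
  have h1 : w F x = w (F \ G) x * w (F ∩ G) x := by
    unfold w
    rw [← Finset.prod_union (Finset.disjoint_sdiff_inter F G), Finset.sdiff_union_inter]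
  have h2 : w G x = w (G \ F) x * w (F ∩ G) x := by
    unfold w
    rw [Finset.inter_comm, ← Finset.prod_union (Finset.disjoint_sdiff_inter G F),
      Finset.sdiff_union_inter]
  have h3 : w (F ∩ G) x * w (F ∩ G) x = 1 := by
    unfold w
    rw [← Finset.prod_mul_distrib]
    exact Finset.prod_eq_one fun m _ => hsq m
  have h4 : w (symmDiff F G) x = w (F \ G) x * w (G \ F) x := by
    unfold w
    rw [symmDiff_def, Finset.sup_eq_union, Finset.prod_union]
    exact disjoint_sdiff_sdiff
  rw [h1, h2, h4]
  calc w (F \ G) x * w (F ∩ G) x * (w (G \ F) x * w (F ∩ G) x)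
      = w (F \ G) x * w (G \ F) x * (w (F ∩ G) x * w (F ∩ G) x) := by ring
    _ = w (F \ G) x * w (G \ F) x := by rw [h3, mul_one]

/-- Flip the coordinate `m`. -/
def flp (m : ℕ) (x : ℕ → Bool) : ℕ → Bool := fun n => (if n = m then not else id) (x n)

theorem mp_flp (m : ℕ) : MeasurePreserving (flp m) coin coin := by
  have hm : ∀ n : ℕ, Measurable (if n = m then not else id : Bool → Bool) := fun n =>
    measurable_of_countable _
  refine ⟨measurable_pi_iff.2 fun n => (hm n).comp (measurable_pi_apply n), ?_⟩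
  unfold flp coin
  rw [Measure.infinitePi_map_pi _ hm]
  congr 1
  funext n
  by_cases hn : n = m
  · rw [if_pos hn]
    refine Measure.ext_of_singleton fun b => ?_
    rw [Measure.map_apply (measurable_of_countable _) MeasurableSet.of_discrete]
    have : (not ⁻¹' {b} : Set Bool) = {!b} := by
      ext c
      cases b <;> cases c <;> simp
    rw [this, fair_singleton, fair_singleton]
  · rw [if_neg hn, Measure.map_id]

theorem w_flp {m : ℕ} {F : Finset ℕ} (hm : m ∈ F) (x : ℕ → Bool) : w F (flp m x) = - w F x := by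
  unfold w
  rw [← Finset.mul_prod_erase F _ hm, ← Finset.mul_prod_erase F _ hm, ← neg_mul]
  congr 1
  · simp only [flp, if_true]
    cases x m <;> simp
  · refine Finset.prod_congr rfl fun n hn => ?_
    have : n ≠ m := (Finset.mem_erase.1 hn).1
    simp [flp, this]

theorem int_w (F : Finset ℕ) : ∫ x, w F x ∂coin = if F = ∅ then 1 else 0 := by
  split_ifs with h
  · subst h
    simp [w]
  · obtain ⟨m, hm⟩ := Finset.nonempty_iff_ne_empty.2 h
    have h1 : ∫ x, w F (flp m x) ∂coin = ∫ x, w F x ∂coin := by
      have := integral_map (μ := coin) (mp_flp m).measurable.aemeasurable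
        (f := w F) (measurable_w F).aestronglyMeasurable
      rw [← this, (mp_flp m).map_eq]
    simp only [w_flp hm, integral_neg] at h1
    linarith

theorem int_w_mul (F G : Finset ℕ) : ∫ x, w F x * w G x ∂coin = if F = G then 1 else 0 := by
  simp only [w_mul_w, int_w]
  congr 1
  rw [← Finset.bot_eq_empty, symmDiff_eq_bot]

theorem w_T {i : ℕ} (hi : i < RR) (F : Finset ℕ) (x : ℕ → Bool) :
    w F (T i x) = w (F.image (tau i)) x := by
  unfold w
  rw [Finset.prod_image]
  · rfl
  · intro a _ b _ hab
    rw [← tau_tau hi a, hab, tau_tau hi b]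

/-- Walsh polynomials. -/
def IsW (h : (ℕ → Bool) → ℝ) : Prop :=
  ∃ c : Finset ℕ →₀ ℝ, ∀ x : ℕ → Bool, h x = c.sum fun F a => a * w F x

theorem IsW.add {h g : (ℕ → Bool) → ℝ} (hh : IsW h) (hg : IsW g) : IsW fun x => h x + g x := by
  obtain ⟨c, hc⟩ := hh
  obtain ⟨d, hd⟩ := hg
  refine ⟨c + d, fun x => ?_⟩
  show h x + g x = _
  rw [Finsupp.sum_add_index', hc, hd]
  · intro F; simp
  · intro F a b; ring

theorem IsW.smul {h : (ℕ → Bool) → ℝ} (r : ℝ) (hh : IsW h) : IsW fun x => r * h x := by
  obtain ⟨c, hc⟩ := hh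
  refine ⟨r • c, fun x => ?_⟩
  show r * h x = _
  rw [Finsupp.sum_smul_index (by simp), hc, Finsupp.mul_sum]
  refine Finsupp.sum_congr fun F _ => ?_
  ring

theorem IsW.mul_w {h : (ℕ → Bool) → ℝ} (G : Finset ℕ) (hh : IsW h) :
    IsW fun x => h x * w G x := by
  obtain ⟨c, hc⟩ := hh
  refine ⟨c.mapDomain fun F => symmDiff F G, fun x => ?_⟩
  show h x * w G x = _
  rw [Finsupp.sum_mapDomain_index, hc, Finsupp.sum_mul]
  · refine Finsupp.sum_congr fun F _ => ?_
    rw [mul_assoc, w_mul_w]
  · intro F; simp
  · intro F a b; ring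

theorem isW_const (r : ℝ) : IsW fun _ => r := by
  refine ⟨Finsupp.single ∅ r, fun x => ?_⟩
  rw [Finsupp.sum_single_index (by simp)]
  simp [w]

theorem isW_pre (s : ℕ) : ∀ g : List Bool → ℝ, IsW fun x => g (pre x s) := by
  induction s with
  | zero =>
    intro g
    have : (fun x : ℕ → Bool => g (pre x 0)) = fun _ => g [] := by
      funext x
      simp [pre]
    rw [this]
    exact isW_const _
  | succ s ih =>
    intro g
    have h1 := (ih fun σ => g (σ ++ [true])).smul (1 / 2)
    have h2 := (ih fun σ => g (σ ++ [false])).smul (1 / 2)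
    have h3 := ((h2.add (h1.smul (-1))).mul_w {s}).add (h1.add h2)
    convert h3 using 1
    funext x
    have hp : pre x (s + 1) = pre x s ++ [x s] := by
      simp [pre, List.range_succ]
    have hw : w {s} x = if x s then (-1 : ℝ) else 1 := by simp [w]
    rw [hp, hw]
    cases x s <;> simp <;> ring

open Classical in
/-- The indicator of a set of sequences given by initial segments is a Walsh polynomial. -/
theorem exists_walsh (p : List Bool → Bool) (s : ℕ) : ∃ c : Finset ℕ →₀ ℝ, ∀ x : ℕ → Bool,
    (if p (pre x s) = true then (1 : ℝ) else 0) = c.sum fun F a => a * w F x :=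
  isW_pre s fun σ => if p σ = true then (1 : ℝ) else 0

end Pool.Agent.RJ
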