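import Mathlib
import Pool.Agent.RJ.WAL
import Pool.Agent.RJ.GCO
import Pool.Agent.RJ.MPR

/-!
The gap inequality for sets given by initial segments.
-/

set_option autoImplicit false

namespace Pool.Agent.RJ

open MeasureTheory Encodable Pool.Agent.H19 Pool.Agent.AEI
open Nat.Partrec (Code)

theorem integrable_w (F : Finset ℕ) : Integrable (w F) coin :=
  Integrable.of_bound (measurable_w F).aestronglyMeasurable 1
    (Filter.Eventually.of_forall fun x => by rw [Real.norm_eq_abs, abs_w])

theorem int_sq (S : Finset (Finset ℕ)) (a : Finset ℕ → ℝ) :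
    ∫ x, (∑ G ∈ S, a G * w G x) ^ 2 ∂coin = ∑ G ∈ S, a G ^ 2 := by
  have h1 : ∀ x : ℕ → Bool, (∑ G ∈ S, a G * w G x) ^ 2 =
      ∑ G ∈ S, ∑ H ∈ S, (a G * a H) * w (symmDiff G H) x := by
    intro x
    rw [sq, Finset.sum_mul_sum]
    refine Finset.sum_congr rfl fun G _ => Finset.sum_congr rfl fun H _ => ?_
    rw [← w_mul_w]
    ring
  simp_rw [h1]
  rw [integral_finsetSum _ fun G _ => integrable_finsetSum _ fun H _ =>
    (integrable_w _).const_mul _]
  refine Finset.sum_congr rfl fun G hG => ?_
  rw [integral_finsetSum _ fun H _ => (integrable_w _).const_mul _]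
  simp only [integral_const_mul, int_w]
  have h2 : ∀ H : Finset ℕ, (a G * a H * if symmDiff G H = ∅ then (1 : ℝ) else 0) =
      if G = H then a G * a H else 0 := by
    intro H
    by_cases h : G = H
    · rw [if_pos h, if_pos (by rw [h, symmDiff_self]; rfl), mul_one]
    · rw [if_neg h, if_neg, mul_zero]
      intro h3
      exact h (symmDiff_eq_bot.1 h3)
  simp only [h2, Finset.sum_ite_eq, hG, if_true]
  ring

theorem gap_pre (p : List Bool → Bool) (s : ℕ) :
    ∫ x, ((cnt {y | p (pre y s) = true} x : ℝ) - RR * coin.real {y | p (pre y s) = true}) ^ 2 ∂coin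
      ≤ 6 * RR * coin.real {y | p (pre y s) = true} := by
  classical
  set B : Set (ℕ → Bool) := {y | p (pre y s) = true} with hB
  have hBm : MeasurableSet B := measurableSet_pre p s
  obtain ⟨c, hc⟩ := exists_walsh p s
  set ind : (ℕ → Bool) → ℝ := fun x => if p (pre x s) = true then (1 : ℝ) else 0 with hind
  have hindB : ind = B.indicator 1 := by
    funext x
    simp only [hind, Set.indicator, hB, Set.mem_ofPred_eq, Pi.one_apply]
  have hint : ∫ x, ind x ∂coin = coin.real B := by
    rw [hindB, integral_indicator_one hBm]
  have hindI : Integrable ind coin := by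
    rw [hindB]
    exact (integrable_const (1 : ℝ)).indicator hBm
  have hc0 : coin.real B = c ∅ := by
    rw [← hint]
    have h1 : ∀ x, ind x = ∑ F ∈ c.support, c F * w F x := fun x => hc x
    simp_rw [h1]
    rw [integral_finsetSum _ fun F _ => (integrable_w _).const_mul _]
    simp only [integral_const_mul, int_w]
    have h2 : ∀ F : Finset ℕ, (c F * if F = ∅ then (1 : ℝ) else 0) =
        if F = ∅ then c F else 0 := by
      intro F
      split_ifs <;> simp
    simp only [h2]
    rw [Finset.sum_ite_eq' c.support ∅ fun F => c F]
    split_ifs with h3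
    · rfl
    · exact (Finsupp.notMem_support_iff.1 h3).symm
  set d := c.erase ∅ with hd
  have hd0 : d ∅ = 0 := by rw [hd, Finsupp.erase_same]
  have hg : ∀ x, ind x - coin.real B = ∑ F ∈ d.support, d F * w F x := by
    intro x
    have h1 : ind x = ∑ F ∈ c.support, c F * w F x := hc x
    have h2 : ∑ F ∈ d.support, d F * w F x = ∑ F ∈ c.support.erase ∅, c F * w F x := by
      rw [hd, Finsupp.support_erase]
      refine Finset.sum_congr rfl fun F hF => ?_
      rw [Finsupp.erase_ne (Finset.mem_erase.1 hF).1]
    have hw0 : w ∅ x = 1 := by simp [w]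
    rw [h1, h2, hc0]
    by_cases h3 : ∅ ∈ c.support
    · rw [← Finset.add_sum_erase _ _ h3, hw0]
      ring
    · rw [Finset.erase_eq_of_notMem h3, Finsupp.notMem_support_iff.1 h3]
      ring
  have hsqd : ∑ F ∈ d.support, d F ^ 2 ≤ coin.real B := by
    rw [← int_sq]
    simp_rw [← hg]
    have h1 : ∀ x, (ind x - coin.real B) ^ 2 = (1 - 2 * coin.real B) * ind x +
        coin.real B ^ 2 := by
      intro x
      have : ind x * ind x = ind x := by
        simp only [hind]
        split_ifs <;> simp
      linear_combination this
    simp_rw [h1]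
    rw [integral_add (hindI.const_mul _) (integrable_const _), integral_const_mul, hint,
      integral_const]
    simp only [probReal_univ, one_smul]
    nlinarith [sq_nonneg (coin.real B)]
  -- the count
  have hcnt : ∀ x, (cnt B x : ℝ) - RR * coin.real B =
      ∑ i ∈ Finset.range RR, (ind (T i x) - coin.real B) := by
    intro x
    rw [Finset.sum_sub_distrib, Finset.sum_const, Finset.card_range, nsmul_eq_mul]
    congr 1
    rw [cnt, cntp, Finset.card_filter]
    push_cast
    refine Finset.sum_congr rfl fun i _ => ?_
    simp only [hind, hB, Set.mem_ofPred_eq]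
  set im : ℕ → Finset ℕ → Finset ℕ := fun i F => F.image (tau i) with him
  have him2 : ∀ i < RR, ∀ F, im i (im i F) = F := by
    intro i hi F
    simp only [him, Finset.image_image]
    have : (tau i ∘ tau i) = id := by
      funext m
      exact tau_tau hi m
    rw [this, Finset.image_id]
  set S : Finset (Finset ℕ) := (Finset.range RR).biUnion fun i => d.support.image (im i) with hS
  have hsum : ∀ x, (cnt B x : ℝ) - RR * coin.real B =
      ∑ G ∈ S, (∑ i ∈ Finset.range RR, d (im i G)) * w G x := by
    intro x
    rw [hcnt]
    have h1 : ∀ i ∈ Finset.range RR, ind (T i x) - coin.real B =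
        ∑ G ∈ S, d (im i G) * w G x := by
      intro i hi
      have hi' := Finset.mem_range.1 hi
      rw [hg]
      have h2 : ∑ F ∈ d.support, d F * w F (T i x) =
          ∑ G ∈ d.support.image (im i), d (im i G) * w G x := by
        rw [Finset.sum_image]
        · refine Finset.sum_congr rfl fun F _ => ?_
          rw [him2 i hi', w_T hi']
        · intro a _ b _ hab
          rw [← him2 i hi' a, hab, him2 i hi' b]
      rw [h2]
      refine Finset.sum_subset ?_ ?_
      · exact Finset.subset_biUnion_of_mem (fun i => d.support.image (im i)) hi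
      · intro G _ hG
        have : im i G ∉ d.support := by
          intro h
          apply hG
          rw [Finset.mem_image]
          exact ⟨im i G, h, him2 i hi' G⟩
        rw [Finsupp.notMem_support_iff.1 this, zero_mul]
    rw [Finset.sum_congr rfl h1, Finset.sum_comm]
    refine Finset.sum_congr rfl fun G _ => ?_
    rw [Finset.sum_mul]
  simp_rw [hsum]
  rw [int_sq]
  refine (gap_coef d hd0 S).trans ?_
  exact mul_le_mul_of_nonneg_left hsqd (by positivity)

end Pool.Agent.RJ
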