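import Mathlib
import Pool.Agent.RJ.GAPC
import Pool.Agent.RJ.DEN

/-!
The gap inequality for measurable sets.
-/

set_option autoImplicit false

namespace Pool.Agent.RJ

open MeasureTheory Encodable Pool.Agent.H19 Pool.Agent.AEI
open Nat.Partrec (Code)

open Classical in
theorem cnt_eq_sum (B : Set (ℕ → Bool)) (x : ℕ → Bool) :
    (cnt B x : ℝ) = ∑ i ∈ Finset.range RR, (T i ⁻¹' B).indicator (fun _ => (1 : ℝ)) x := by
  unfold cnt cntp
  rw [Finset.card_filter]
  push_cast
  refine Finset.sum_congr rfl fun i _ => ?_
  by_cases h : T i x ∈ B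
  · rw [if_pos h, Set.indicator_of_mem (show x ∈ T i ⁻¹' B from h)]
  · rw [if_neg h, Set.indicator_of_notMem (show x ∉ T i ⁻¹' B from h)]

theorem measurable_cnt {B : Set (ℕ → Bool)} (hB : MeasurableSet B) : Measurable (cnt B) := by
  classical
  have h1 : cnt B = fun x => ∑ i ∈ Finset.range RR, if T i x ∈ B then 1 else 0 := by
    funext x
    unfold cnt cntp
    rw [Finset.card_filter]
  rw [h1]
  refine Finset.measurable_sum _ fun i _ => ?_
  exact Measurable.ite (measurable_T i hB) measurable_const measurable_const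

open Classical in
theorem cnt_le (B : Set (ℕ → Bool)) (x : ℕ → Bool) : cnt B x ≤ RR := by
  unfold cnt cntp
  exact (Finset.card_filter_le _ _).trans (Finset.card_range RR).le

theorem gap {B : Set (ℕ → Bool)} (hB : MeasurableSet B) :
    ∫ x, ((cnt B x : ℝ) - RR * coin.real B) ^ 2 ∂coin ≤ 6 * RR * coin.real B := by
  have hR : (0 : ℝ) < RR := by exact_mod_cast RR_pos
  have key : ∀ ε : ℝ, 0 < ε → ∫ x, ((cnt B x : ℝ) - RR * coin.real B) ^ 2 ∂coin ≤
      6 * RR * coin.real B + (6 * RR + 4 * RR ^ 2) * ε := by
    intro ε hε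
    obtain ⟨s, p, hsp⟩ := exists_pre_set hB hε
    set C : Set (ℕ → Bool) := {y | p (pre y s) = true} with hC
    have hCm : MeasurableSet C := measurableSet_pre p s
    have hDm : MeasurableSet (symmDiff B C) := hB.symmDiff hCm
    have hgapC := gap_pre p s
    rw [← hC] at hgapC
    have hbc : |coin.real B - coin.real C| ≤ ε :=
      (abs_measureReal_sub_le_measureReal_symmDiff hB.nullMeasurableSet
        hCm.nullMeasurableSet).trans hsp
    have hint : ∀ {A : Set (ℕ → Bool)}, MeasurableSet A → ∀ c : ℝ,
        Integrable (fun x => ((cnt A x : ℝ) - c) ^ 2) coin := by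
      intro A hA c
      refine Integrable.of_bound (C := ((RR : ℝ) + |c|) ^ 2) ?_ ?_
      · have hm : Measurable fun x => (cnt A x : ℝ) :=
          (measurable_from_top : Measurable fun n : ℕ => (n : ℝ)).comp (measurable_cnt hA)
        exact ((hm.sub_const c).pow_const 2).aestronglyMeasurable
      · refine Filter.Eventually.of_forall fun x => ?_
        rw [Real.norm_eq_abs, abs_of_nonneg (sq_nonneg _)]
        have h1 : (cnt A x : ℝ) ≤ RR := by exact_mod_cast cnt_le A x
        have h2 : |(cnt A x : ℝ) - c| ≤ RR + |c| := by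
          refine (abs_sub _ _).trans ?_
          rw [abs_of_nonneg (Nat.cast_nonneg _)]
          linarith
        rw [← sq_abs]
        exact pow_le_pow_left₀ (abs_nonneg _) h2 2
    have hind : ∀ i ∈ Finset.range RR, Integrable
        ((T i ⁻¹' (symmDiff B C)).indicator (fun _ => (1 : ℝ))) coin := fun i _ =>
      (integrable_const (1 : ℝ)).indicator (measurable_T i hDm)
    have hsumint : Integrable (fun x => ∑ i ∈ Finset.range RR,
        (T i ⁻¹' (symmDiff B C)).indicator (fun _ => (1 : ℝ)) x) coin :=
      integrable_finsetSum _ hind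
    have hval : ∫ x, ∑ i ∈ Finset.range RR,
        (T i ⁻¹' (symmDiff B C)).indicator (fun _ => (1 : ℝ)) x ∂coin =
        RR * coin.real (symmDiff B C) := by
      rw [integral_finsetSum _ hind]
      have : ∀ i ∈ Finset.range RR, ∫ x, (T i ⁻¹' (symmDiff B C)).indicator
          (fun _ => (1 : ℝ)) x ∂coin = coin.real (symmDiff B C) := by
        intro i hi
        rw [integral_indicator_const (1 : ℝ) (measurable_T i hDm), smul_eq_mul, mul_one,
          real_preimage_T (Finset.mem_range.1 hi) hDm]
      rw [Finset.sum_congr rfl this, Finset.sum_const, Finset.card_range, nsmul_eq_mul]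
    have hpt : ∀ x, ((cnt B x : ℝ) - RR * coin.real B) ^ 2 ≤
        ((cnt C x : ℝ) - RR * coin.real C) ^ 2 + 2 * RR *
          (∑ i ∈ Finset.range RR, (T i ⁻¹' (symmDiff B C)).indicator (fun _ => (1 : ℝ)) x
            + RR * ε) := by
      intro x
      set a := (cnt B x : ℝ) - RR * coin.real B with ha
      set b := (cnt C x : ℝ) - RR * coin.real C with hb
      have hdiff : |(cnt B x : ℝ) - cnt C x| ≤
          ∑ i ∈ Finset.range RR, (T i ⁻¹' (symmDiff B C)).indicator (fun _ => (1 : ℝ)) x := by
        rw [cnt_eq_sum, cnt_eq_sum, ← Finset.sum_sub_distrib]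
        refine (Finset.abs_sum_le_sum_abs _ _).trans (Finset.sum_le_sum fun i _ => ?_)
        by_cases h1 : T i x ∈ B <;> by_cases h2 : T i x ∈ C
        · rw [Set.indicator_of_mem (show x ∈ T i ⁻¹' B from h1),
            Set.indicator_of_mem (show x ∈ T i ⁻¹' C from h2), sub_self, abs_zero]
          exact Set.indicator_nonneg (fun _ _ => zero_le_one) _
        · rw [Set.indicator_of_mem (show x ∈ T i ⁻¹' B from h1),
            Set.indicator_of_notMem (show x ∉ T i ⁻¹' C from h2),
            Set.indicator_of_mem (show x ∈ T i ⁻¹' (symmDiff B C) from Or.inl ⟨h1, h2⟩)]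
          norm_num
        · rw [Set.indicator_of_notMem (show x ∉ T i ⁻¹' B from h1),
            Set.indicator_of_mem (show x ∈ T i ⁻¹' C from h2),
            Set.indicator_of_mem (show x ∈ T i ⁻¹' (symmDiff B C) from Or.inr ⟨h2, h1⟩)]
          norm_num
        · rw [Set.indicator_of_notMem (show x ∉ T i ⁻¹' B from h1),
            Set.indicator_of_notMem (show x ∉ T i ⁻¹' C from h2), sub_self, abs_zero]
          exact Set.indicator_nonneg (fun _ _ => zero_le_one) _
      have hab : |a - b| ≤ ∑ i ∈ Finset.range RR,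
          (T i ⁻¹' (symmDiff B C)).indicator (fun _ => (1 : ℝ)) x + RR * ε := by
        have e : a - b = ((cnt B x : ℝ) - cnt C x) - RR * (coin.real B - coin.real C) := by
          rw [ha, hb]; ring
        rw [e]
        refine (abs_sub _ _).trans (add_le_add hdiff ?_)
        rw [abs_mul, abs_of_pos hR]
        exact mul_le_mul_of_nonneg_left hbc hR.le
      have hbound : ∀ A : Set (ℕ → Bool), |(cnt A x : ℝ) - RR * coin.real A| ≤ RR := by
        intro A
        have h1 : (cnt A x : ℝ) ≤ RR := by exact_mod_cast cnt_le A x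
        have h2 : (0 : ℝ) ≤ cnt A x := Nat.cast_nonneg _
        have h3 : 0 ≤ coin.real A := measureReal_nonneg
        have h4 : coin.real A ≤ 1 := measureReal_le_one
        rw [abs_le]
        constructor <;> nlinarith
      have h5 : a ^ 2 - b ^ 2 ≤ 2 * RR * |a - b| := by
        have h6 : a ^ 2 - b ^ 2 = (a + b) * (a - b) := by ring
        rw [h6]
        refine (le_abs_self _).trans ?_
        rw [abs_mul]
        refine mul_le_mul_of_nonneg_right ?_ (abs_nonneg _)
        refine (abs_add_le a b).trans ?_
        have := hbound B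
        have := hbound C
        linarith
      have h7 := mul_le_mul_of_nonneg_left hab (by positivity : (0 : ℝ) ≤ 2 * RR)
      linarith
    have hS1 : Integrable (fun x => ∑ i ∈ Finset.range RR,
        (T i ⁻¹' (symmDiff B C)).indicator (fun _ => (1 : ℝ)) x + RR * ε) coin :=
      hsumint.add (integrable_const _)
    have hS2 : Integrable (fun x => 2 * (RR : ℝ) * (∑ i ∈ Finset.range RR,
        (T i ⁻¹' (symmDiff B C)).indicator (fun _ => (1 : ℝ)) x + RR * ε)) coin :=
      hS1.const_mul _
    calc ∫ x, ((cnt B x : ℝ) - RR * coin.real B) ^ 2 ∂coin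
        ≤ ∫ x, (((cnt C x : ℝ) - RR * coin.real C) ^ 2 + 2 * RR *
          (∑ i ∈ Finset.range RR, (T i ⁻¹' (symmDiff B C)).indicator (fun _ => (1 : ℝ)) x
            + RR * ε)) ∂coin := by
          refine integral_mono (hint hB _) ?_ hpt
          exact (hint hCm _).add hS2
      _ = ∫ x, ((cnt C x : ℝ) - RR * coin.real C) ^ 2 ∂coin + 2 * RR *
          (RR * coin.real (symmDiff B C) + RR * ε) := by
          rw [integral_add (hint hCm _) hS2, integral_const_mul, integral_add hsumint (integrable_const _), hval, integral_const]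
          simp
      _ ≤ 6 * RR * coin.real C + 2 * RR * (RR * ε + RR * ε) := by
          have h1 := mul_le_mul_of_nonneg_left hsp hR.le
          have h2 : 2 * RR * (RR * coin.real (symmDiff B C) + RR * ε) ≤
              2 * RR * (RR * ε + RR * ε) :=
            mul_le_mul_of_nonneg_left (by linarith) (by positivity)
          linarith
      _ ≤ 6 * RR * coin.real B + (6 * RR + 4 * RR ^ 2) * ε := by
          have h1 : coin.real C ≤ coin.real B + ε := by
            have := (abs_le.1 hbc).1
            linarith
          have h2 := mul_le_mul_of_nonneg_left h1 (by positivity : (0 : ℝ) ≤ 6 * RR)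
          nlinarith
  refine le_of_forall_pos_le_add fun δ hδ => ?_
  have hpos : 0 < 6 * (RR : ℝ) + 4 * RR ^ 2 := by positivity
  have h1 := key (δ / (6 * RR + 4 * RR ^ 2)) (by positivity)
  rwa [mul_div_cancel₀ _ hpos.ne'] at h1

end Pool.Agent.RJ
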