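import Mathlib
import Pool.Agent.RJ.GAP
import Pool.Agent.RJ.MPR

/-!
Ergodicity.
-/

set_option autoImplicit false

namespace Pool.Agent.RJ

open MeasureTheory Encodable Pool.Agent.H19 Pool.Agent.AEI
open Nat.Partrec (Code)

theorem erg_iff {D : Set (ℕ → Bool)} (hD : MeasurableSet D)
    (h : ∀ i < RR, ∀ᵐ x ∂coin, x ∈ D → T i x ∈ D) :
    ∀ᵐ x ∂coin, ∀ i < RR, (T i x ∈ D ↔ x ∈ D) := by
  have h1 : ∀ i < RR, ∀ᵐ x ∂coin, (T i x ∈ D ↔ x ∈ D) := by
    intro i hi
    have hm : coin (T i ⁻¹' D) = coin D := (mp_T hi).measure_preimage hD.nullMeasurableSet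
    have h2 : D ≤ᵐ[coin] (T i ⁻¹' D) := by
      filter_upwards [h i hi] with x hx
      exact fun hxD => hx hxD
    have h3 : D =ᵐ[coin] (T i ⁻¹' D) :=
      ae_eq_of_ae_subset_of_measure_ge h2 hm.le hD.nullMeasurableSet (measure_ne_top _ _)
    filter_upwards [h3] with x hx
    have h4 : (x ∈ D) = (x ∈ T i ⁻¹' D) := hx
    rw [h4]
    rfl
  have h2 : ∀ᵐ x ∂coin, ∀ i : ℕ, i < RR → (T i x ∈ D ↔ x ∈ D) := by
    rw [ae_all_iff]
    intro i
    by_cases hi : i < RR
    · filter_upwards [h1 i hi] with x hx _ using hx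
    · exact Filter.Eventually.of_forall fun x hx => absurd hx hi
  exact h2

theorem erg_ineq {D : Set (ℕ → Bool)} (hD : MeasurableSet D)
    (h : ∀ᵐ x ∂coin, ∀ i < RR, (T i x ∈ D ↔ x ∈ D)) :
    (RR : ℝ) ^ 2 * (coin.real D * (1 - coin.real D)) ≤ 6 * RR * coin.real D := by
  classical
  set p := coin.real D with hp
  have hg := gap hD
  have he : ∫ x, ((cnt D x : ℝ) - RR * p) ^ 2 ∂coin =
      ∫ x, (D.indicator (fun _ => ((RR : ℝ) - RR * p) ^ 2 - (RR * p) ^ 2) x + (RR * p) ^ 2) ∂coin := by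
    refine integral_congr_ae ?_
    filter_upwards [h] with x hx
    by_cases hxD : x ∈ D
    · have hc : cnt D x = RR := by
        unfold cnt cntp
        rw [Finset.filter_true_of_mem, Finset.card_range]
        intro i hi
        exact (hx i (Finset.mem_range.mp hi)).mpr hxD
      simp only [Set.indicator_of_mem hxD, hc]
      ring
    · have hc : cnt D x = 0 := by
        unfold cnt cntp
        rw [Finset.filter_false_of_mem, Finset.card_empty]
        intro i hi hT
        exact hxD ((hx i (Finset.mem_range.mp hi)).mp hT)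
      simp only [Set.indicator_of_notMem hxD, hc]
      push_cast
      ring
  rw [he] at hg
  rw [integral_add ((integrable_const _).indicator hD) (integrable_const _), integral_indicator_const _ hD,
    integral_const, smul_eq_mul, smul_eq_mul] at hg
  have h1 : coin.real (Set.univ : Set (ℕ → Bool)) = 1 := by simp
  rw [h1, ← hp] at hg
  nlinarith [hg]

theorem ergodic {D : Set (ℕ → Bool)} (hD : MeasurableSet D)
    (h : ∀ i < RR, ∀ᵐ x ∂coin, x ∈ D → T i x ∈ D) : coin D = 0 ∨ coin Dᶜ = 0 := by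
  have h1 := erg_iff hD h
  have h2 : ∀ᵐ x ∂coin, ∀ i < RR, (T i x ∈ Dᶜ ↔ x ∈ Dᶜ) := by
    filter_upwards [h1] with x hx i hi
    rw [Set.mem_compl_iff, Set.mem_compl_iff, hx i hi]
  have e1 := erg_ineq hD h1
  have e2 := erg_ineq hD.compl h2
  have hq : coin.real Dᶜ = 1 - coin.real D := by
    rw [measureReal_compl hD]
    simp
  rw [hq] at e2
  have hp0 : 0 ≤ coin.real D := measureReal_nonneg
  have hp1 : coin.real D ≤ 1 := measureReal_le_one
  have hR : (100 : ℝ) ≤ RR := by
    have : 100 ≤ RR := by rw [RR_eq, MM_eq]; norm_num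
    exact_mod_cast this
  by_contra hcon
  rw [not_or] at hcon
  have hp : 0 < coin.real D := by
    rcases hp0.lt_or_eq with hlt | heq
    · exact hlt
    · exact absurd ((measureReal_eq_zero_iff).mp heq.symm) hcon.1
  have hq' : 0 < 1 - coin.real D := by
    rw [← hq]
    rcases (measureReal_nonneg (μ := coin) (s := Dᶜ)).lt_or_eq with hlt | heq
    · exact hlt
    · exact absurd ((measureReal_eq_zero_iff).mp heq.symm) hcon.2
  set p := coin.real D with hpdef
  have f1 : (RR : ℝ) * (1 - p) ≤ 6 := by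
    have : (RR * p) * ((RR : ℝ) * (1 - p)) ≤ (RR * p) * 6 := by nlinarith [e1]
    exact le_of_mul_le_mul_left this (by positivity)
  have f2 : (RR : ℝ) * p ≤ 6 := by
    have : (RR * (1 - p)) * ((RR : ℝ) * p) ≤ (RR * (1 - p)) * 6 := by nlinarith [e2]
    exact le_of_mul_le_mul_left this (by positivity)
  nlinarith

end Pool.Agent.RJ
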