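import Mathlib
import Pool.Agent.RJ.GAP

/-!
Chebyshev inequalities.
-/

set_option autoImplicit false

namespace Pool.Agent.RJ

open MeasureTheory Encodable Pool.Agent.H19 Pool.Agent.AEI
open Nat.Partrec (Code)

/-- The general form of the Chebyshev inequalities. -/
theorem che_gen {B S : Set (ℕ → Bool)} (hB : MeasurableSet B) (hS : MeasurableSet S) {t : ℝ}
    (ht : ∀ x ∈ S, t ≤ ((cnt B x : ℝ) - RR * coin.real B) ^ 2) :
    t * coin.real S ≤ 6 * RR * coin.real B := by
  refine le_trans ?_ (gap hB)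
  have hint : Integrable (fun x => ((cnt B x : ℝ) - RR * coin.real B) ^ 2) coin := by
    have hm : Measurable fun x => ((cnt B x : ℝ) - RR * coin.real B) ^ 2 := by
      have h1 : Measurable fun x => (cnt B x : ℝ) :=
        (measurable_from_top (f := fun n : ℕ => (n : ℝ))).comp (measurable_cnt hB)
      exact (h1.sub_const _).pow_const 2
    refine Integrable.of_bound hm.aestronglyMeasurable ((RR : ℝ) ^ 2) ?_
    refine Filter.Eventually.of_forall fun x => ?_
    have h1 : (cnt B x : ℝ) ≤ RR := by exact_mod_cast cnt_le B x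
    have h2 : (0 : ℝ) ≤ cnt B x := Nat.cast_nonneg _
    have h3 : coin.real B ≤ 1 := measureReal_le_one
    have h4 : 0 ≤ coin.real B := measureReal_nonneg
    have h5 : (0 : ℝ) ≤ RR := Nat.cast_nonneg _
    rw [Real.norm_eq_abs, abs_of_nonneg (sq_nonneg _)]
    refine sq_le_sq' ?_ ?_
    · nlinarith
    · nlinarith
  calc t * coin.real S = ∫ x in S, t ∂coin := by
        rw [setIntegral_const, smul_eq_mul, mul_comm]
    _ ≤ ∫ x in S, ((cnt B x : ℝ) - RR * coin.real B) ^ 2 ∂coin :=
        setIntegral_mono_on (integrable_const _) hint.integrableOn hS ht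
    _ ≤ ∫ x, ((cnt B x : ℝ) - RR * coin.real B) ^ 2 ∂coin :=
        setIntegral_le_integral hint (Filter.Eventually.of_forall fun x => sq_nonneg _)

theorem RR_real : (RR : ℝ) = 64 * MM := by
  rw [RR_eq]; push_cast; ring

theorem MM_real : (MM : ℝ) = 8192 := by
  rw [MM_eq]; norm_num

theorem che_a {B : Set (ℕ → Bool)} (hB : MeasurableSet B) (h : coin.real B ≤ 1 / 128) :
    coin.real {x | MM ≤ cnt B x} ≤ coin.real B / 4 := by
  have hS : MeasurableSet {x | MM ≤ cnt B x} := measurableSet_le measurable_const (measurable_cnt hB)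
  have h4 : 0 ≤ coin.real B := measureReal_nonneg
  have key := che_gen hB hS (t := ((MM : ℝ) / 2) ^ 2) (by
    intro x hx
    have hx' : (MM : ℝ) ≤ cnt B x := by exact_mod_cast hx
    rw [RR_real]
    have hM := MM_real
    refine pow_le_pow_left₀ (by rw [hM]; norm_num) ?_ 2
    rw [hM] at hx' ⊢
    linarith)
  rw [RR_real, MM_real] at key
  linarith

theorem che_b {B : Set (ℕ → Bool)} (hB : MeasurableSet B) (h : coin.real B ≤ 1 / 4) :
    coin.real {x | 61 * MM ≤ cnt B x} ≤ coin.real B / 4 := by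
  have hS : MeasurableSet {x | 61 * MM ≤ cnt B x} :=
    measurableSet_le measurable_const (measurable_cnt hB)
  have h4 : 0 ≤ coin.real B := measureReal_nonneg
  have key := che_gen hB hS (t := (45 * (MM : ℝ)) ^ 2) (by
    intro x hx
    have hx' : 61 * (MM : ℝ) ≤ cnt B x := by exact_mod_cast hx
    rw [RR_real]
    have hM := MM_real
    refine pow_le_pow_left₀ (by rw [hM]; norm_num) ?_ 2
    rw [hM] at hx' ⊢
    linarith)
  rw [RR_real, MM_real] at key
  linarith

theorem che_c {B : Set (ℕ → Bool)} (hB : MeasurableSet B) (h : 3 / 32 ≤ coin.real B) :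
    coin.real {x | cnt B x ≤ 3 * MM} ≤ 1 / 4 := by
  have hS : MeasurableSet {x | cnt B x ≤ 3 * MM} :=
    measurableSet_le (measurable_cnt hB) measurable_const
  have h4 : 0 ≤ coin.real B := measureReal_nonneg
  have key := che_gen hB hS (t := (32 * (MM : ℝ) * coin.real B) ^ 2) (by
    intro x hx
    have hx' : (cnt B x : ℝ) ≤ 3 * (MM : ℝ) := by exact_mod_cast hx
    rw [RR_real]
    have hM := MM_real
    rw [hM] at hx' ⊢
    have e : ((cnt B x : ℝ) - 64 * 8192 * coin.real B) ^ 2 =
        (64 * 8192 * coin.real B - (cnt B x : ℝ)) ^ 2 := by ring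
    rw [e]
    refine pow_le_pow_left₀ (by positivity) ?_ 2
    linarith)
  rw [RR_real, MM_real] at key
  have h5 : 0 < coin.real B := by linarith
  have h6 : (32 * 8192) ^ 2 * coin.real B * coin.real {x | cnt B x ≤ 3 * MM} ≤
      6 * (64 * 8192) := by
    have e1 : (32 * 8192 * coin.real B) ^ 2 * coin.real {x | cnt B x ≤ 3 * MM} =
      ((32 * 8192) ^ 2 * coin.real B * coin.real {x | cnt B x ≤ 3 * MM}) * coin.real B := by ring
    have e2 : 6 * (64 * 8192) * coin.real B = (6 * (64 * 8192)) * coin.real B := by ring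
    rw [e1] at key
    exact le_of_mul_le_mul_right key h5
  have h7 : 0 ≤ coin.real {x | cnt B x ≤ 3 * MM} := measureReal_nonneg
  have h8 : (32 * 8192) ^ 2 * (3 / 32) * coin.real {x | cnt B x ≤ 3 * MM} ≤
      (32 * 8192) ^ 2 * coin.real B * coin.real {x | cnt B x ≤ 3 * MM} := by
    refine mul_le_mul_of_nonneg_right ?_ h7
    nlinarith
  nlinarith

end Pool.Agent.RJ
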