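import Mathlib
import Pool.Agent.RJ.CHE

/-!
Closures.
-/

set_option autoImplicit false

namespace Pool.Agent.RJ

open MeasureTheory Encodable Pool.Agent.H19 Pool.Agent.AEI
open Nat.Partrec (Code)

theorem cnt_mono {A B : Set (ℕ → Bool)} (h : A ⊆ B) (x : ℕ → Bool) : cnt A x ≤ cnt B x := by
  classical
  unfold cnt cntp
  refine Finset.card_le_card fun i hi => ?_
  rw [Finset.mem_filter] at hi ⊢
  exact ⟨hi.1, h hi.2⟩

/-- The stages of the closure. -/
def cloStage (B : Set (ℕ → Bool)) : ℕ → Set (ℕ → Bool)
  | 0 => B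
  | n + 1 => cloStage B n ∪ {x | MM ≤ cnt (cloStage B n) x}

theorem cloStage_mono (B : Set (ℕ → Bool)) : Monotone (cloStage B) :=
  monotone_nat_of_le_succ fun _ => Set.subset_union_left

theorem measurableSet_cloStage {B : Set (ℕ → Bool)} (hB : MeasurableSet B) (n : ℕ) :
    MeasurableSet (cloStage B n) := by
  induction n with
  | zero => exact hB
  | succ n ih => exact ih.union (measurableSet_le measurable_const (measurable_cnt ih))

theorem cloStage_subset (B : Set (ℕ → Bool)) (n : ℕ) :
    cloStage B n ⊆ B ∪ {x | MM ≤ cnt (cloStage B n) x} := by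
  induction n with
  | zero => exact Set.subset_union_left
  | succ n ih =>
    have hm : cloStage B n ⊆ cloStage B (n + 1) := Set.subset_union_left
    rintro x (hx | hx)
    · rcases ih hx with h | h
      · exact Or.inl h
      · exact Or.inr (le_trans (show MM ≤ cnt (cloStage B n) x from h) (cnt_mono hm x))
    · exact Or.inr (le_trans (show MM ≤ cnt (cloStage B n) x from hx) (cnt_mono hm x))

theorem cloStage_real {B : Set (ℕ → Bool)} (hB : MeasurableSet B) (h : coin.real B ≤ 1 / 256)
    (n : ℕ) : coin.real (cloStage B n) ≤ 4 / 3 * coin.real B := by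
  have h0 : 0 ≤ coin.real B := measureReal_nonneg
  induction n with
  | zero =>
    change coin.real B ≤ _
    linarith
  | succ n ih =>
    have hn := measurableSet_cloStage hB n
    have h1 : coin.real (cloStage B (n + 1)) ≤ coin.real (cloStage B n) +
        coin.real {x | MM ≤ cnt (cloStage B n) x} := measureReal_union_le _ _
    have h2 := che_a hn (by linarith)
    have h3 : coin.real (cloStage B (n + 1)) ≤ 1 / 128 := by linarith
    have h4 := che_a (measurableSet_cloStage hB (n + 1)) h3
    have h5 : coin.real (cloStage B (n + 1)) ≤ coin.real B +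
        coin.real {x | MM ≤ cnt (cloStage B (n + 1)) x} :=
      (measureReal_mono (cloStage_subset B (n + 1))).trans (measureReal_union_le _ _)
    linarith

theorem exists_closure {B : Set (ℕ → Bool)} (hB : MeasurableSet B) (h : coin.real B ≤ 1 / 256) :
    ∃ Bs : Set (ℕ → Bool), MeasurableSet Bs ∧ B ⊆ Bs ∧ coin.real Bs ≤ 2 * coin.real B ∧
      ∀ x, x ∉ Bs → cnt Bs x < MM := by
  classical
  have h0 : 0 ≤ coin.real B := measureReal_nonneg
  refine ⟨⋃ n, cloStage B n, MeasurableSet.iUnion (measurableSet_cloStage hB),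
    Set.subset_iUnion (cloStage B) 0, ?_, fun x hx => ?_⟩
  · have h1 : Filter.Tendsto (fun n => coin.real (cloStage B n)) Filter.atTop
        (nhds (coin.real (⋃ n, cloStage B n))) := by
      have h2 := tendsto_measure_iUnion_atTop (μ := coin) (cloStage_mono B)
      exact (ENNReal.tendsto_toReal (measure_ne_top _ _)).comp h2
    refine le_of_tendsto' h1 fun n => ?_
    have := cloStage_real hB h n
    linarith
  · by_contra hc
    push Not at hc
    have hex : ∀ i : ℕ, ∃ n, T i x ∈ (⋃ n, cloStage B n) → T i x ∈ cloStage B n := by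
      intro i
      by_cases hi : T i x ∈ ⋃ n, cloStage B n
      · obtain ⟨n, hn⟩ := Set.mem_iUnion.1 hi
        exact ⟨n, fun _ => hn⟩
      · exact ⟨0, fun h => absurd h hi⟩
    choose N hN using hex
    have h2 : cnt (⋃ n, cloStage B n) x ≤ cnt (cloStage B ((Finset.range RR).sup N)) x := by
      unfold cnt cntp
      refine Finset.card_le_card fun i hi => ?_
      rw [Finset.mem_filter] at hi ⊢
      exact ⟨hi.1, cloStage_mono B (Finset.le_sup hi.1) (hN i hi.2)⟩
    exact hx (Set.mem_iUnion.2 ⟨(Finset.range RR).sup N + 1, Or.inr (hc.trans h2)⟩)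

end Pool.Agent.RJ
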