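import Mathlib
import Pool.Agent.RJ.DEN
import Pool.Agent.RJ.MPR

/-!
Approximation of measurable functions with values in a countable type.
-/

set_option autoImplicit false

namespace Pool.Agent.RJ

open MeasureTheory Encodable Pool.Agent.H19 Pool.Agent.AEI
open Nat.Partrec (Code)

/-- Approximation for functions with finitely many interesting values, given by a list. -/
theorem exists_pre_list {β : Type*} [MeasurableSpace β] [MeasurableSingletonClass β]
    {l : (ℕ → Bool) → β} (hl : Measurable l) (b₀ : β) (L : List β) : ∀ {ε : ℝ}, 0 < ε →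
    ∃ (s : ℕ) (g : List Bool → β), (∀ σ, g σ = b₀ ∨ g σ ∈ L) ∧
      coin.real {y | l y ∈ L ∧ g (pre y s) ≠ l y} ≤ ε := by
  classical
  induction L with
  | nil =>
    intro ε hε
    refine ⟨0, fun _ => b₀, fun _ => Or.inl rfl, ?_⟩
    have : {y : ℕ → Bool | l y ∈ ([] : List β) ∧ b₀ ≠ l y} = ∅ := by
      ext y; simp
    rw [this]
    simpa using hε.le
  | cons b L ih =>
    intro ε hε
    obtain ⟨s, g, hg, hs⟩ := ih (half_pos hε)
    have hB : MeasurableSet (l ⁻¹' {b}) := hl (measurableSet_singleton b)
    obtain ⟨t, p, hp⟩ := exists_pre_set hB (half_pos hε)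
    refine ⟨max s t, fun σ => if p (σ.take t) = true then b else g (σ.take s), ?_, ?_⟩
    · intro σ
      by_cases h : p (σ.take t) = true
      · right; simp [h]
      · simp only [h]
        rcases hg (σ.take s) with h1 | h1
        · left; simpa using h1
        · right; simp [h1]
    · have hsub : {y | l y ∈ (b :: L) ∧ (if p ((pre y (max s t)).take t) = true then b else
          g ((pre y (max s t)).take s)) ≠ l y} ⊆
          {y | l y ∈ L ∧ g (pre y s) ≠ l y} ∪
            symmDiff (l ⁻¹' {b}) {y | p (pre y t) = true} := by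
        rintro y ⟨hy1, hy2⟩
        rw [pre_take y (le_max_right s t), pre_take y (le_max_left s t)] at hy2
        by_cases hpy : p (pre y t) = true
        · rw [if_pos hpy] at hy2
          right
          right
          exact ⟨hpy, fun h => hy2 (by simpa using h.symm)⟩
        · rw [if_neg hpy] at hy2
          by_cases hb : l y = b
          · right
            left
            exact ⟨hb, hpy⟩
          · left
            refine ⟨?_, hy2⟩
            rcases List.mem_cons.1 hy1 with h | h
            · exact absurd h hb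
            · exact h
      calc coin.real _ ≤ coin.real ({y | l y ∈ L ∧ g (pre y s) ≠ l y} ∪
            symmDiff (l ⁻¹' {b}) {y | p (pre y t) = true}) := measureReal_mono hsub
        _ ≤ coin.real {y | l y ∈ L ∧ g (pre y s) ≠ l y} +
            coin.real (symmDiff (l ⁻¹' {b}) {y | p (pre y t) = true}) :=
            measureReal_union_le _ _
        _ ≤ ε / 2 + ε / 2 := add_le_add hs hp
        _ = ε := by ring

/-- The values can be restricted to a finite set. -/
theorem exists_fin_values {β : Type*} [Countable β] [MeasurableSpace β]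
    [MeasurableSingletonClass β] {l : (ℕ → Bool) → β} (hl : Measurable l) {ε : ℝ} (hε : 0 < ε) :
    ∃ L : List β, coin.real {y | l y ∉ L} ≤ ε := by
  classical
  obtain ⟨e, he⟩ := exists_injective_nat β
  let S : ℕ → Set (ℕ → Bool) := fun n => {y | n ≤ e (l y)}
  have hSm : ∀ n, MeasurableSet (S n) := fun n =>
    hl (Set.to_countable {b : β | n ≤ e b}).measurableSet
  have hanti : Antitone S := fun m n hmn y hy => le_trans hmn hy
  have hint : ⋂ n, S n = ∅ := by
    ext y
    simp only [Set.mem_iInter, Set.mem_empty_iff_false, iff_false, not_forall]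
    exact ⟨e (l y) + 1, fun h => absurd h (by simp [S])⟩
  have ht : Filter.Tendsto (fun n => coin (S n)) Filter.atTop (nhds 0) := by
    have := tendsto_measure_iInter_atTop (μ := coin) (s := S)
      (fun n => (hSm n).nullMeasurableSet) hanti ⟨0, measure_ne_top _ _⟩
    rw [hint, measure_empty] at this
    exact this
  have hε' : (0 : ENNReal) < ENNReal.ofReal ε := ENNReal.ofReal_pos.2 hε
  obtain ⟨n, hn⟩ := (ht.eventually_lt_const hε').exists
  have hfin : {b : β | e b < n}.Finite :=
    Set.Finite.of_finite_image ((Set.finite_lt_nat n).subset (by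
      rintro _ ⟨b, hb, rfl⟩; exact hb)) (he.injOn)
  refine ⟨hfin.toFinset.toList, ?_⟩
  have : {y | l y ∉ hfin.toFinset.toList} = S n := by
    ext y
    simp [S]
  rw [this]
  exact ENNReal.toReal_le_of_le_ofReal hε.le hn.le

theorem exists_pre_fun {β : Type*} [Countable β] [Nonempty β] [MeasurableSpace β]
    [MeasurableSingletonClass β] {l : (ℕ → Bool) → β} (hl : Measurable l) {ε : ℝ} (hε : 0 < ε) :
    ∃ (s : ℕ) (g : List Bool → β), (Set.range g).Finite ∧
      coin.real {y | g (pre y s) ≠ l y} ≤ ε := by
  classical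
  obtain ⟨b₀⟩ := ‹Nonempty β›
  obtain ⟨L, hL⟩ := exists_fin_values hl (half_pos hε)
  obtain ⟨s, g, hg, hs⟩ := exists_pre_list hl b₀ L (half_pos hε)
  refine ⟨s, g, ?_, ?_⟩
  · refine (List.finite_toSet (b₀ :: L)).subset ?_
    rintro _ ⟨σ, rfl⟩
    rcases hg σ with h | h
    · simp [h]
    · simp [h]
  · have hsub : {y | g (pre y s) ≠ l y} ⊆ {y | l y ∉ L} ∪ {y | l y ∈ L ∧ g (pre y s) ≠ l y} := by
      intro y hy
      by_cases h : l y ∈ L
      · exact Or.inr ⟨h, hy⟩
      · exact Or.inl h
    calc coin.real _ ≤ coin.real ({y | l y ∉ L} ∪ {y | l y ∈ L ∧ g (pre y s) ≠ l y}) :=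
          measureReal_mono hsub
      _ ≤ coin.real {y | l y ∉ L} + coin.real {y | l y ∈ L ∧ g (pre y s) ≠ l y} :=
          measureReal_union_le _ _
      _ ≤ ε / 2 + ε / 2 := add_le_add hL hs
      _ = ε := by ring

end Pool.Agent.RJ
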