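import Mathlib
import Pool.Agent.RJ.LUS
import Pool.Agent.RJ.MEA
import Pool.Agent.RJ.CLO

/-!
Existence of conversions.
-/

set_option autoImplicit false

namespace Pool.Agent.RJ

open MeasureTheory Encodable Pool.Agent.H19 Pool.Agent.AEI
open Nat.Partrec (Code)

private theorem table_aux {α β : Type*} [Primcodable α] [DecidableEq α] [Primcodable β] (b0 : β)
    (g : α → β) (S : List α) : ∃ g' : α → β, Computable g' ∧ ∀ a ∈ S, g' a = g a := by
  induction S with
  | nil => exact ⟨fun _ => b0, Computable.const b0, fun a ha => absurd ha (List.not_mem_nil)⟩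
  | cons a S ih =>
    obtain ⟨g', hg', h⟩ := ih
    refine ⟨fun x => bif x == a then g a else g' x, ?_, ?_⟩
    · exact Computable.cond (Primrec.beq.comp Primrec.id (Primrec.const a)).to_comp
        (Computable.const (g a)) hg'
    · intro x hx
      by_cases hxa : x = a
      · subst hxa
        simp
      · have h1 : (x == a) = false := by simpa using hxa
        simp only [h1, cond_false]
        rcases List.mem_cons.1 hx with h2 | h2
        · exact absurd h2 hxa
        · exact h x h2

/-- Functions on a finite set of strings are computable. -/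
theorem exists_computable_table {β : Type*} [Primcodable β] (m : ℕ) (g : ℕ → List Bool → β) :
    ∃ g' : ℕ → List Bool → β, Computable₂ g' ∧
      ∀ i < RR, ∀ σ : List Bool, σ.length = m → g' i σ = g i σ := by
  have hfin : ((Set.Iio RR) ×ˢ {σ : List Bool | σ.length = m}).Finite :=
    (Set.finite_Iio RR).prod (List.finite_length_eq Bool m)
  obtain ⟨g', hg', h⟩ := table_aux (g 0 []) (fun p : ℕ × List Bool => g p.1 p.2)
    hfin.toFinset.toList
  refine ⟨fun i σ => g' (i, σ), hg', fun i hi σ hσ => ?_⟩
  refine h (i, σ) ?_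
  rw [Finset.mem_toList, Set.Finite.mem_toFinset]
  exact ⟨hi, hσ⟩

theorem exists_goodS {f : (ℕ → Bool) → (ℕ → Bool)} (hf : Measurable f)
    (h : ∀ i < RR, ∀ᵐ y ∂coin, TuringReducible (chi (f (T i y))) (chi (f y))) :
    ∃ (m : ℕ) (lab : ℕ → List Bool → Code) (Bs : Set (ℕ → Bool)), GoodS f m lab Bs := by
  classical
  let _ : MeasurableSpace Code := ⊤
  have _ : MeasurableSingletonClass Code := ⟨fun _ => trivial⟩
  have _ : Nonempty Code := ⟨Code.zero⟩
  have hT : ∀ i < RR, Measurable (T i) := fun i hi => (mp_T hi).measurable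
  have hc : ∀ i < RR, ∀ c : Code, MeasurableSet {y | CodeComputes c (f y) (f (T i y))} :=
    fun i hi c => meas_computes hf (hf.comp (hT i hi)) c
  -- labels
  have hl : ∀ i < RR, ∃ l : (ℕ → Bool) → Code, Measurable l ∧
      ∀ y, TuringReducible (chi (f (T i y))) (chi (f y)) →
        CodeComputes (l y) (f y) (f (T i y)) := by
    intro i hi
    let P : (ℕ → Bool) → ℕ → Prop := fun y n =>
      CodeComputes (Denumerable.ofNat Code n) (f y) (f (T i y)) ∨
        ∀ k, ¬ CodeComputes (Denumerable.ofNat Code k) (f y) (f (T i y))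
    have hP : ∀ y, ∃ n, P y n := by
      intro y
      by_cases hy : ∃ n, CodeComputes (Denumerable.ofNat Code n) (f y) (f (T i y))
      · obtain ⟨n, hn⟩ := hy
        exact ⟨n, Or.inl hn⟩
      · exact ⟨0, Or.inr (fun k hk => hy ⟨k, hk⟩)⟩
    have hPm : ∀ n, MeasurableSet {y | P y n} := by
      intro n
      have h1 : {y | P y n} = {y | CodeComputes (Denumerable.ofNat Code n) (f y) (f (T i y))} ∪
          ⋂ k, {y | CodeComputes (Denumerable.ofNat Code k) (f y) (f (T i y))}ᶜ := by
        ext y
        simp only [P, Set.mem_ofPred_eq, Set.mem_union, Set.mem_iInter, Set.mem_compl_iff]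
      rw [h1]
      exact (hc i hi _).union (MeasurableSet.iInter fun k => (hc i hi _).compl)
    refine ⟨fun y => Denumerable.ofNat Code (Nat.find (hP y)), ?_, ?_⟩
    · exact (measurable_from_nat (f := fun n => Denumerable.ofNat Code n)).comp
        (measurable_find hP hPm)
    · intro y hy
      rcases Nat.find_spec (hP y) with h1 | h1
      · exact h1
      · obtain ⟨c, hcc⟩ := turingReducible_iff.1 hy
        refine absurd hcc ?_
        have := h1 (encode c)
        rwa [Denumerable.ofNat_encode] at this
  have hRR : (0 : ℝ) < RR := by exact_mod_cast RR_pos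
  have hε : (0 : ℝ) < 1 / (256 * RR) := by positivity
  have hl' : ∀ i, ∃ (l : (ℕ → Bool) → Code) (s : ℕ) (g : List Bool → Code), i < RR →
      (∀ y, TuringReducible (chi (f (T i y))) (chi (f y)) → CodeComputes (l y) (f y) (f (T i y))) ∧
      coin.real {y | g (pre y s) ≠ l y} ≤ 1 / (256 * RR) := by
    intro i
    by_cases hi : i < RR
    · obtain ⟨l, hlm, hl1⟩ := hl i hi
      obtain ⟨s, g, _, hg⟩ := exists_pre_fun hlm hε
      exact ⟨l, s, g, fun _ => ⟨hl1, hg⟩⟩
    · exact ⟨fun _ => Code.zero, 0, fun _ => Code.zero, fun h => absurd h hi⟩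
  choose l s g hlsg using hl'
  let m : ℕ := (Finset.range RR).sup s
  obtain ⟨lab, hcomp, hlab⟩ := exists_computable_table m (fun i σ => g i (σ.take (s i)))
  have hlab' : ∀ i < RR, ∀ y : ℕ → Bool, lab i (pre y m) = g i (pre y (s i)) := by
    intro i hi y
    have hsm : s i ≤ m := Finset.le_sup (f := s) (Finset.mem_range.2 hi)
    rw [hlab i hi _ (pre_length y m), pre_take y hsm]
  let Bi : ℕ → Set (ℕ → Bool) := fun i => {y | ¬ CodeComputes (lab i (pre y m)) (f y) (f (T i y))}
  let B : Set (ℕ → Bool) := ⋃ i ∈ Finset.range RR, Bi i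
  have hBim : ∀ i < RR, MeasurableSet (Bi i) := by
    intro i hi
    have h1 : Bi i = (⋃ c : Code, {y | lab i (pre y m) = c} ∩
        {y | CodeComputes c (f y) (f (T i y))})ᶜ := by
      ext y
      simp [Bi]
    rw [h1]
    refine (MeasurableSet.iUnion fun c => MeasurableSet.inter ?_ (hc i hi c)).compl
    exact measurable_pre (β := Code) m (lab i) (measurableSet_singleton c)
  have hBm : MeasurableSet B :=
    Finset.measurableSet_biUnion _ fun i hi => hBim i (Finset.mem_range.1 hi)
  have hBi : ∀ i < RR, coin.real (Bi i) ≤ 1 / (256 * RR) := by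
    intro i hi
    have h0 : coin.real {y | ¬ TuringReducible (chi (f (T i y))) (chi (f y))} = 0 := by
      rw [measureReal_def, ae_iff.1 (h i hi)]
      rfl
    have hsub : Bi i ⊆ {y | g i (pre y (s i)) ≠ l i y} ∪
        {y | ¬ TuringReducible (chi (f (T i y))) (chi (f y))} := by
      intro y hy
      by_contra hcon
      simp only [Set.mem_union, Set.mem_ofPred_eq, not_or, not_not] at hcon
      refine hy ?_
      rw [hlab' i hi y, hcon.1]
      exact (hlsg i hi).1 y hcon.2
    calc coin.real (Bi i) ≤ coin.real ({y | g i (pre y (s i)) ≠ l i y} ∪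
          {y | ¬ TuringReducible (chi (f (T i y))) (chi (f y))}) := measureReal_mono hsub
      _ ≤ coin.real {y | g i (pre y (s i)) ≠ l i y} +
          coin.real {y | ¬ TuringReducible (chi (f (T i y))) (chi (f y))} :=
            measureReal_union_le _ _
      _ ≤ 1 / (256 * RR) := by
          rw [h0, add_zero]
          exact (hlsg i hi).2
  have hB : coin.real B ≤ 1 / 256 := by
    calc coin.real B ≤ ∑ i ∈ Finset.range RR, coin.real (Bi i) :=
          measureReal_biUnion_finset_le _ _
      _ ≤ ∑ _i ∈ Finset.range RR, 1 / (256 * (RR : ℝ)) :=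
          Finset.sum_le_sum fun i hi => hBi i (Finset.mem_range.1 hi)
      _ = 1 / 256 := by
          rw [Finset.sum_const, Finset.card_range, nsmul_eq_mul]
          field_simp
  obtain ⟨Bs, hBsm, hBBs, hBs, hcl⟩ := exists_closure hBm hB
  refine ⟨m, lab, Bs, hf, hcomp, hBsm, by linarith, ?_, hcl⟩
  intro y hy i hi
  by_contra hcon
  refine hy (hBBs ?_)
  exact Set.mem_biUnion (Finset.mem_coe.2 (Finset.mem_range.2 hi)) hcon

end Pool.Agent.RJ
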