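import Mathlib
import Pool.Agent.RJ.TAU

/-!
Initial segments, counting, monotonicity.
-/

set_option autoImplicit false

namespace Pool.Agent.RJ

open MeasureTheory Encodable Pool.Agent.H19 Pool.Agent.AEI
open Nat.Partrec (Code)

theorem isPre_iff {a : List Bool} {Z : ℕ → Bool} : IsPre a Z ↔ ∃ n, a = pre Z n := by
  constructor
  · intro h
    exact ⟨_, h⟩
  · rintro ⟨n, rfl⟩
    rw [IsPre, pre_length]

theorem IsPre.of_prefix {a b : List Bool} {Z : ℕ → Bool} (h : IsPre b Z) (hab : a <+: b) :
    IsPre a Z := by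
  rw [IsPre] at h
  rw [h] at hab
  exact ((prefix_pre_iff Z).1 hab).2

/-- The conversion of an initial segment is an initial segment. -/
theorem isPre_zf {c : Code} {X Z : ℕ → Bool} (h : CodeComputes c X Z) {a : List Bool}
    (ha : IsPre a X) : IsPre (zf c a) Z := by
  obtain ⟨n, rfl⟩ := isPre_iff.1 ha
  exact (zf_of_computes h).1 n

/-- The conversion of long initial segments is long. -/
theorem pre_prefix_zf {c : Code} {X Z : ℕ → Bool} (h : CodeComputes c X Z) (n : ℕ) :
    ∃ s, ∀ t ≥ s, pre Z n <+: zf c (pre X t) := by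
  obtain ⟨s, hs⟩ := (zf_of_computes h).2 n
  refine ⟨s, fun t ht => ?_⟩
  have h1 : zf c (pre X s) <+: zf c (pre X t) := zf_pre_mono c X ht
  rw [(zf_of_computes h).1 t]
  exact pre_mono Z (hs.trans h1.length_le)

theorem cntp_le {p q : ℕ → Prop} (h : ∀ i < RR, p i → q i) : cntp p ≤ cntp q := by
  classical
  unfold cntp
  apply Finset.card_le_card
  intro i hi
  rw [Finset.mem_filter, Finset.mem_range] at hi ⊢
  exact ⟨hi.1, h i hi.1 hi.2⟩

/-- At most `MM - 1` of the `i` are in `r`, so the rest of `p` is large. -/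
theorem cntp_sub {p q r : ℕ → Prop} {n : ℕ} (hp : n + MM ≤ cntp p) (hr : cntp r < MM)
    (h : ∀ i < RR, p i → ¬ r i → q i) : n ≤ cntp q := by
  classical
  have h1 : cntp p ≤ cntp q + cntp r := by
    unfold cntp
    refine le_trans (Finset.card_le_card ?_) (Finset.card_union_le _ _)
    intro i hi
    rw [Finset.mem_filter, Finset.mem_range] at hi
    rw [Finset.mem_union, Finset.mem_filter, Finset.mem_filter, Finset.mem_range]
    by_cases hri : r i
    · exact Or.inr ⟨hi.1, hri⟩
    · exact Or.inl ⟨hi.1, h i hi.1 hi.2 hri⟩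
  omega

theorem cntp_le_RR (p : ℕ → Prop) : cntp p ≤ RR := by
  classical
  unfold cntp
  exact (Finset.card_filter_le _ _).trans (Finset.card_range RR).le

theorem cntp_compl (p : ℕ → Prop) : cntp p + cntp (fun i => ¬ p i) = RR := by
  classical
  unfold cntp
  have := Finset.card_filter_add_card_filter_not (s := Finset.range RR) (p := p)
  rw [Finset.card_range] at this
  convert this

variable {m : ℕ} {lab : ℕ → List Bool → Code} {c : Cand}

theorem Est.mono {h : ℕ} {y : ℕ → Bool} {b b' : List Bool} (hb : Est m lab c h y b)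
    (h' : b' <+: b) : Est m lab c h y b' := by
  cases h with
  | zero => exact h'.trans hb
  | succ h =>
    refine le_trans (show 62 * MM ≤ _ from hb) (cntp_le fun i _ => ?_)
    rintro ⟨b'', h1, h2⟩
    exact ⟨b'', h1, h'.trans h2⟩

theorem Pass.mono {k : ℕ} {y : ℕ → Bool} {a a' : List Bool} (ha : Pass m lab c k y a)
    (h' : a <+: a') : Pass m lab c k y a' := by
  induction k generalizing y a a' with
  | zero => exact List.IsPrefix.trans ha h'
  | succ k ih =>
    refine le_trans (show 62 * MM ≤ _ from ha) (cntp_le fun i _ hi => ?_)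
    exact ih hi (zf_mono _ h')

theorem pre_congr_le {x y : ℕ → Bool} {M N : ℕ} (h : pre x N = pre y N) (hM : M ≤ N) :
    pre x M = pre y M := by
  rw [← pre_take x hM, ← pre_take y hM, h]

theorem cntp_congr {p q : ℕ → Prop} (h : ∀ i < RR, (p i ↔ q i)) : cntp p = cntp q :=
  le_antisymm (cntp_le fun i hi => (h i hi).1) (cntp_le fun i hi => (h i hi).2)

/-- `Est` depends only on an initial segment. -/
theorem Est.use (m : ℕ) (lab : ℕ → List Bool → Code) (c : Cand) (h : ℕ) : ∃ N, ∀ x y : ℕ → Bool,
    pre x N = pre y N → ∀ b, (Est m lab c h x b ↔ Est m lab c h y b) := by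
  induction h with
  | zero =>
    refine ⟨c.1, fun x y hxy b => ?_⟩
    show b <+: val c x ↔ b <+: val c y
    rw [val, val, hxy]
  | succ h ih =>
    obtain ⟨N, hN⟩ := ih
    refine ⟨RR * max N m, fun x y hxy b => ?_⟩
    show 62 * MM ≤ cntp _ ↔ 62 * MM ≤ cntp _
    rw [cntp_congr]
    intro i hi
    have h1 : pre (T i x) (max N m) = pre (T i y) (max N m) := pre_T_congr hi hxy
    have h2 : pre (T i x) N = pre (T i y) N := pre_congr_le h1 (le_max_left _ _)
    have h3 : pre (T i x) m = pre (T i y) m := pre_congr_le h1 (le_max_right _ _)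
    rw [h3]
    refine exists_congr fun b' => ?_
    rw [hN _ _ h2 b']

/-- `Pass` depends only on an initial segment. -/
theorem Pass.use (m : ℕ) (lab : ℕ → List Bool → Code) (c : Cand) (k : ℕ) : ∃ N, ∀ x y : ℕ → Bool,
    pre x N = pre y N → ∀ a, (Pass m lab c k x a ↔ Pass m lab c k y a) := by
  induction k with
  | zero =>
    refine ⟨c.1, fun x y hxy b => ?_⟩
    show val c x <+: b ↔ val c y <+: b
    rw [val, val, hxy]
  | succ k ih =>
    obtain ⟨N, hN⟩ := ih
    refine ⟨max (RR * N) m, fun x y hxy a => ?_⟩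
    show 62 * MM ≤ cntp _ ↔ 62 * MM ≤ cntp _
    rw [cntp_congr]
    intro i hi
    have h2 : pre (T i x) N = pre (T i y) N :=
      pre_T_congr hi (pre_congr_le hxy (le_max_left _ _))
    have h3 : pre x m = pre y m := pre_congr_le hxy (le_max_right _ _)
    rw [h3]
    exact hN _ _ h2 _

end Pool.Agent.RJ
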