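import Mathlib
import Pool.Agent.RJ.PRE
import Pool.Agent.RJ.MPR

/-!
Measurability of the sets defined by estimates and tests.
-/

set_option autoImplicit false

namespace Pool.Agent.RJ

open MeasureTheory Encodable Pool.Agent.H19 Pool.Agent.AEI
open Nat.Partrec (Code)

variable {m : ℕ} {lab : ℕ → List Bool → Code} {c : Cand}

/-- A set of sequences with finite use is measurable. -/
theorem meas_of_use {A : Set (ℕ → Bool)} {N : ℕ}
    (h : ∀ x y : ℕ → Bool, pre x N = pre y N → (x ∈ A ↔ y ∈ A)) : MeasurableSet A := by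
  classical
  have h1 := measurableSet_pre (fun σ => decide (∃ y ∈ A, pre y N = σ)) N
  convert h1 using 1
  ext x
  simp only [Set.mem_ofPred_eq, decide_eq_true_eq]
  constructor
  · intro hx
    exact ⟨x, hx, rfl⟩
  · rintro ⟨y, hy, hyx⟩
    exact (h y x hyx).1 hy

theorem meas_est (h : ℕ) (b : List Bool) : MeasurableSet {y | Est m lab c h y b} := by
  obtain ⟨N, hN⟩ := Est.use m lab c h
  exact meas_of_use (N := N) fun x y hxy => hN x y hxy b

theorem meas_isPre {f : (ℕ → Bool) → (ℕ → Bool)} (hf : Measurable f) (b : List Bool) :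
    MeasurableSet {y | IsPre b (f y)} := by
  have h1 : MeasurableSet {z : ℕ → Bool | IsPre b z} := by
    refine meas_of_use (N := b.length) fun x y hxy => ?_
    show b = pre x b.length ↔ b = pre y b.length
    rw [hxy]
  exact hf h1

theorem meas_errset {f : (ℕ → Bool) → (ℕ → Bool)} (hf : Measurable f) (c : Cand) :
    MeasurableSet (errset f c) := by
  have e : errset f c = ⋃ b : List Bool, ({y | val c y = b} ∩ {y | IsPre b (f y)}ᶜ) := by
    ext y
    simp only [errset, Set.mem_ofPred_eq, Set.mem_iUnion, Set.mem_inter_iff, Set.mem_compl_iff]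
    constructor
    · intro h
      exact ⟨_, rfl, h⟩
    · rintro ⟨b, rfl, h⟩
      exact h
  rw [e]
  refine MeasurableSet.iUnion fun b => MeasurableSet.inter ?_ (meas_isPre hf b).compl
  refine meas_of_use (N := c.1) fun x y hxy => ?_
  show val c x = b ↔ val c y = b
  rw [val, val, hxy]

theorem meas_wrong {f : (ℕ → Bool) → (ℕ → Bool)} (hf : Measurable f) (h : ℕ) :
    MeasurableSet {y | ∃ b, Est m lab c h y b ∧ ¬ IsPre b (f y)} := by
  have e : {y | ∃ b, Est m lab c h y b ∧ ¬ IsPre b (f y)} =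
      ⋃ b : List Bool, ({y | Est m lab c h y b} ∩ {y | IsPre b (f y)}ᶜ) := by
    ext y
    simp only [Set.mem_ofPred_eq, Set.mem_iUnion, Set.mem_inter_iff, Set.mem_compl_iff]
  rw [e]
  exact MeasurableSet.iUnion fun b => MeasurableSet.inter (meas_est h b) (meas_isPre hf b).compl

theorem meas_pass {f : (ℕ → Bool) → (ℕ → Bool)} (hf : Measurable f) (k : ℕ) :
    MeasurableSet {x | ∃ t, Pass m lab c k x (pre (f x) t)} := by
  obtain ⟨N, hN⟩ := Pass.use m lab c k
  have e : {x | ∃ t, Pass m lab c k x (pre (f x) t)} =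
      ⋃ a : List Bool, ({x | Pass m lab c k x a} ∩ {x | IsPre a (f x)}) := by
    ext x
    simp only [Set.mem_ofPred_eq, Set.mem_iUnion, Set.mem_inter_iff]
    constructor
    · rintro ⟨t, ht⟩
      exact ⟨_, ht, isPre_iff.2 ⟨t, rfl⟩⟩
    · rintro ⟨a, h1, h2⟩
      obtain ⟨t, rfl⟩ := isPre_iff.1 h2
      exact ⟨t, h1⟩
  rw [e]
  refine MeasurableSet.iUnion fun a => MeasurableSet.inter ?_ (meas_isPre hf a)
  exact meas_of_use (N := N) fun x y hxy => hN x y hxy a

end Pool.Agent.RJ
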