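import Mathlib
import Pool.Agent.RJ.MES
import Pool.Agent.RJ.CHE
import Pool.Agent.RJ.LUS

/-!
Long estimates exist.
-/

set_option autoImplicit false

namespace Pool.Agent.RJ

open MeasureTheory Encodable Pool.Agent.H19 Pool.Agent.AEI
open Nat.Partrec (Code)

variable {f : (ℕ → Bool) → (ℕ → Bool)} {m : ℕ} {lab : ℕ → List Bool → Code}
  {Bs : Set (ℕ → Bool)} {c : Cand}

/-- The value of a candidate given by a function on the strings of length `s`. -/
theorem val_table (s : ℕ) (g : List Bool → List Bool) (y : ℕ → Bool) :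
    val (s, (strs s).map fun σ => (σ, g σ)) y = g (pre y s) := by
  have hmem : pre y s ∈ strs s := by rw [mem_strs, pre_length]
  have key : ∀ L : List (List Bool), pre y s ∈ L →
      (((L.map fun σ => (σ, g σ)).find? fun p : List Bool × List Bool =>
        decide (p.1 = pre y s)).map Prod.snd).getD [] = g (pre y s) := by
    intro L
    induction L with
    | nil => intro h; exact absurd h (List.not_mem_nil)
    | cons τ L ih =>
      intro h
      rw [List.map_cons]
      by_cases hτ : τ = pre y s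
      · rw [List.find?_cons_of_pos (by simpa using hτ), hτ]
        rfl
      · rw [List.find?_cons_of_neg (by simpa using hτ)]
        refine ih ?_
        rcases List.mem_cons.1 h with h | h
        · exact absurd h.symm hτ
        · exact h
  exact key _ hmem

/-- Sets described by an initial segment of a measurable function. -/
theorem meas_pre_fun {g : (ℕ → Bool) → (ℕ → Bool)} (hg : Measurable g) (n : ℕ) (b : List Bool) :
    MeasurableSet {z | pre (g z) n = b} := hg (measurableSet_cyl n b)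

/-- A set described by initial segments of countably many measurable functions. -/
theorem meas_of_pre_fun {g : (ℕ → Bool) → (ℕ → Bool)} (hg : Measurable g) (n : ℕ)
    {P : List Bool → (ℕ → Bool) → Prop} (hP : ∀ b, MeasurableSet {z | P b z}) :
    MeasurableSet {z | P (pre (g z) n) z} := by
  have h : {z | P (pre (g z) n) z} = ⋃ b : List Bool, {z | pre (g z) n = b} ∩ {z | P b z} := by
    ext z
    simp only [Set.mem_ofPred_eq, Set.mem_iUnion, Set.mem_inter_iff, exists_eq_left']
  rw [h]
  exact MeasurableSet.iUnion fun b => (meas_pre_fun hg n b).inter (hP b)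

/-- A candidate close to `f` on the first `V` bits. -/
theorem exists_cand (hf : Measurable f) (V : ℕ) {ε : ℝ} (hε : 0 < ε) :
    ∃ c : Cand, coin.real {y | val c y ≠ pre (f y) V} ≤ ε := by
  let _ : MeasurableSpace (List Bool) := ⊤
  have : MeasurableSingletonClass (List Bool) := ⟨fun _ => trivial⟩
  have hl : Measurable fun y => pre (f y) V := (measurable_pre V (fun b => b)).comp hf
  obtain ⟨s, g, -, h⟩ := exists_pre_fun hl hε
  refine ⟨(s, (strs s).map fun σ => (σ, g σ)), ?_⟩
  have : {y | val (s, (strs s).map fun σ => (σ, g σ)) y ≠ pre (f y) V} =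
      {y | g (pre y s) ≠ pre (f y) V} := by
    ext y
    rw [Set.mem_ofPred_eq, Set.mem_ofPred_eq, val_table]
  rw [this]
  exact h

/-- The use of the conversions is bounded outside a small set. -/
theorem exists_use (hG : GoodS f m lab Bs) (l : ℕ) {ε : ℝ} (hε : 0 < ε) :
    ∃ l' ≥ l, ∃ U : Set (ℕ → Bool), MeasurableSet U ∧ coin.real U ≤ ε ∧
      ∀ z, z ∉ Bs → z ∉ U → ∀ i < RR, pre (f (T i z)) l <+: zf (lab i (pre z m)) (pre (f z) l') := by
  let U : ℕ → Set (ℕ → Bool) := fun n => {z | z ∉ Bs ∧ ∃ i, i < RR ∧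
    ¬ (pre (f (T i z)) l <+: zf (lab i (pre z m)) (pre (f z) n))}
  have hUm : ∀ n, MeasurableSet (U n) := by
    intro n
    have h1 : U n = Bsᶜ ∩ ⋃ i : ℕ, ⋃ _ : i < RR,
        {z | ¬ (pre (f (T i z)) l <+: zf (lab i (pre z m)) (pre (f z) n))} := by
      ext z
      simp only [U, Set.mem_ofPred_eq, Set.mem_inter_iff, Set.mem_compl_iff, Set.mem_iUnion,
        exists_prop]
    rw [h1]
    refine hG.meas.compl.inter (MeasurableSet.iUnion fun i => MeasurableSet.iUnion fun _ => ?_)
    refine meas_of_pre_fun (g := fun z => f (T i z)) (hG.meas_f.comp (measurable_T i)) l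
      (P := fun b z => ¬ (b <+: zf (lab i (pre z m)) (pre (f z) n))) fun b => ?_
    refine meas_of_pre_fun (g := fun z => z) measurable_id m
      (P := fun d z => ¬ (b <+: zf (lab i d) (pre (f z) n))) fun d => ?_
    refine meas_of_pre_fun (g := f) hG.meas_f n
      (P := fun e _ => ¬ (b <+: zf (lab i d) e)) fun e => ?_
    exact MeasurableSet.const _
  have hanti : Antitone U := by
    intro n n' hn z hz
    refine ⟨hz.1, ?_⟩
    obtain ⟨i, hi, h⟩ := hz.2
    exact ⟨i, hi, fun h' => h (h'.trans (zf_mono _ (pre_mono _ hn)))⟩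
  have hinter : ⋂ n, U n = ∅ := by
    rw [Set.eq_empty_iff_forall_notMem]
    intro z hz
    rw [Set.mem_iInter] at hz
    have hzB : z ∉ Bs := (hz 0).1
    have h1 : ∀ i, ∃ s, i < RR → ∀ t ≥ s,
        pre (f (T i z)) l <+: zf (lab i (pre z m)) (pre (f z) t) := by
      intro i
      by_cases hi : i < RR
      · obtain ⟨s, hs⟩ := pre_prefix_zf (hG.conv z hzB i hi) l
        exact ⟨s, fun _ => hs⟩
      · exact ⟨0, fun h => absurd h hi⟩
    choose s hs using h1
    obtain ⟨i, hi, h2⟩ := (hz ((Finset.range RR).sup s)).2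
    exact h2 (hs i hi _ (Finset.le_sup (f := s) (Finset.mem_range.2 hi)))
  have hlim := tendsto_measure_iInter_atTop (μ := coin) (s := U)
    (fun n => (hUm n).nullMeasurableSet) hanti ⟨0, measure_ne_top _ _⟩
  rw [hinter, measure_empty] at hlim
  have hev := hlim.eventually_lt_const (ENNReal.ofReal_pos.2 hε)
  obtain ⟨n, hn1, hn2⟩ := (hev.and (Filter.eventually_ge_atTop l)).exists
  refine ⟨n, hn2, U n, hUm n, ?_, ?_⟩
  · rw [measureReal_def]
    exact ENNReal.toReal_le_of_le_ofReal hε.le hn1.le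
  · intro z hzB hzU i hi
    by_contra h
    exact hzU ⟨hzB, i, hi, h⟩

/-- Step for long estimates. -/
theorem long_step (hG : GoodS f m lab Bs) {l l' h : ℕ} {U : Set (ℕ → Bool)}
    (hU : ∀ z, z ∉ Bs → z ∉ U → ∀ i < RR,
      pre (f (T i z)) l <+: zf (lab i (pre z m)) (pre (f z) l'))
    {y : ℕ → Bool} (hy : y ∉ Bs)
    (hn : cnt {z | z ∉ Bs ∧ (z ∈ U ∨ ¬ Est m lab c h z (pre (f z) l'))} y < MM) :
    Est m lab c (h + 1) y (pre (f y) l) := by
  show 62 * MM ≤ cntp fun i => ∃ b' : List Bool, Est m lab c h (T i y) b' ∧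
      pre (f y) l <+: zf (lab i (pre (T i y) m)) b'
  have h0 : 63 * MM + MM ≤ cntp fun _ => True := by
    have h1 : cntp (fun _ => True) = RR := by
      have h2 := cntp_compl fun _ => False
      have h3 : cntp (fun _ => False) = 0 := by simp [cntp]
      rw [h3, zero_add] at h2
      simpa using h2
    rw [h1, RR_eq]
    omega
  have h1 : 63 * MM ≤ cntp fun i => T i y ∉ Bs :=
    cntp_sub h0 (hG.closed y hy) fun i _ _ h2 => h2
  have h2 : 62 * MM + MM ≤ cntp fun i => T i y ∉ Bs := by omega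
  refine cntp_sub h2 hn fun i hi hB hbad => ?_
  have h3 : T i y ∉ U := fun h' => hbad ⟨hB, Or.inl h'⟩
  have h4 : Est m lab c h (T i y) (pre (f (T i y)) l') := by
    by_contra h'
    exact hbad ⟨hB, Or.inr h'⟩
  refine ⟨_, h4, ?_⟩
  have h5 := hU _ hB h3 i hi
  rwa [T_T hi] at h5

theorem long_ind (hG : GoodS f m lab Bs) (n : ℕ) : ∀ l : ℕ, ∃ V ≥ l, ∀ c : Cand,
    coin.real {y | val c y ≠ pre (f y) V} ≤ 1 / 256 →
      coin.real {z | z ∉ Bs ∧ ¬ Est m lab c n z (pre (f z) l)} ≤ 1 / 256 := by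
  induction n with
  | zero =>
    intro l
    refine ⟨l, le_rfl, fun c hc => le_trans (measureReal_mono ?_ (measure_ne_top _ _)) hc⟩
    rintro z ⟨-, hz⟩ h
    apply hz
    show pre (f z) l <+: val c z
    rw [h]
  | succ n ih =>
    intro l
    obtain ⟨l', hl', U, hUm, hUs, hU⟩ := exists_use hG l (ε := 1 / 256) (by norm_num)
    obtain ⟨V, hV, hVc⟩ := ih l'
    refine ⟨V, hl'.trans hV, fun c hc => ?_⟩
    have h1 := hVc c hc
    let A : Set (ℕ → Bool) := {z | z ∉ Bs ∧ ¬ Est m lab c n z (pre (f z) l')}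
    let W : Set (ℕ → Bool) := {z | z ∉ Bs ∧ (z ∈ U ∨ ¬ Est m lab c n z (pre (f z) l'))}
    have hAm : MeasurableSet {z | ¬ Est m lab c n z (pre (f z) l')} :=
      meas_of_pre_fun hG.meas_f l' (P := fun b z => ¬ Est m lab c n z b)
        fun b => (meas_est n b).compl
    have hWm : MeasurableSet W := hG.meas.compl.inter (hUm.union hAm)
    have hW : coin.real W ≤ 1 / 128 := by
      have hsub : W ⊆ U ∪ A := by
        rintro z ⟨hz1, hz2 | hz2⟩
        · exact Or.inl hz2
        · exact Or.inr ⟨hz1, hz2⟩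
      have h2 : coin.real W ≤ coin.real U + coin.real A :=
        (measureReal_mono hsub (measure_ne_top _ _)).trans (measureReal_union_le _ _)
      have h3 : coin.real A ≤ 1 / 256 := h1
      linarith
    have h4 := che_a hWm hW
    have hsub2 : {z | z ∉ Bs ∧ ¬ Est m lab c (n + 1) z (pre (f z) l)} ⊆ {x | MM ≤ cnt W x} := by
      rintro z ⟨hz1, hz2⟩
      by_contra h
      rw [Set.mem_ofPred_eq, not_le] at h
      exact hz2 (long_step hG hU hz1 h)
    have h5 : coin.real {z | z ∉ Bs ∧ ¬ Est m lab c (n + 1) z (pre (f z) l)} ≤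
        coin.real {x | MM ≤ cnt W x} := measureReal_mono hsub2 (measure_ne_top _ _)
    linarith

theorem lng (hG : GoodS f m lab Bs) (j : ℕ) :
    ∃ c : Cand, coin.real (errset f c) ≤ 1 / 256 ∧ Adm m lab c j := by
  obtain ⟨V, hV, h⟩ := long_ind hG j j
  obtain ⟨c, hc⟩ := exists_cand hG.meas_f V (ε := 1 / 256) (by norm_num)
  have h1 := h c hc
  refine ⟨c, ?_, ?_⟩
  · refine le_trans (measureReal_mono ?_ (measure_ne_top _ _)) hc
    intro y hy h2
    apply hy
    rw [h2]
    exact isPre_iff.2 ⟨V, rfl⟩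
  · rw [Adm]
    have h2 : (Set.univ : Set (ℕ → Bool)) ⊆ {z | ∃ b : List Bool, j ≤ b.length ∧
        Est m lab c j z b} ∪ (Bs ∪ {z | z ∉ Bs ∧ ¬ Est m lab c j z (pre (f z) j)}) := by
      intro z _
      by_cases hz : z ∈ Bs
      · exact Or.inr (Or.inl hz)
      · by_cases hz2 : Est m lab c j z (pre (f z) j)
        · exact Or.inl ⟨_, by rw [pre_length], hz2⟩
        · exact Or.inr (Or.inr ⟨hz, hz2⟩)
    have h3 := measureReal_mono (μ := coin) h2 (measure_ne_top _ _)
    have h4 := measureReal_union_le (μ := coin) {z | ∃ b : List Bool, j ≤ b.length ∧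
        Est m lab c j z b} (Bs ∪ {z | z ∉ Bs ∧ ¬ Est m lab c j z (pre (f z) j)})
    have h5 := measureReal_union_le (μ := coin) Bs
      {z | z ∉ Bs ∧ ¬ Est m lab c j z (pre (f z) j)}
    have h6 : coin.real (Set.univ : Set (ℕ → Bool)) = 1 := by simp
    have h7 := hG.small
    linarith

end Pool.Agent.RJ
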