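import Mathlib
import Pool.Agent.RJ.MES
import Pool.Agent.RJ.CHE

/-!
The tests.
-/

set_option autoImplicit false

namespace Pool.Agent.RJ

open MeasureTheory Encodable Pool.Agent.H19 Pool.Agent.AEI
open Nat.Partrec (Code)

variable {f : (ℕ → Bool) → (ℕ → Bool)} {m : ℕ} {lab : ℕ → List Bool → Code}
  {Bs : Set (ℕ → Bool)} {c : Cand}

theorem pass_step (hG : GoodS f m lab Bs) {k : ℕ} {x : ℕ → Bool} (hx : x ∉ Bs)
    (hp : ∃ t, Pass m lab c (k + 1) x (pre (f x) t)) :
    61 * MM ≤ cnt {z | z ∉ Bs ∧ ∃ t, Pass m lab c k z (pre (f z) t)} x := by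
  obtain ⟨t, ht⟩ := hp
  have h1 : 61 * MM + MM ≤
      cntp fun i => Pass m lab c k (T i x) (zf (lab i (pre x m)) (pre (f x) t)) := by
    have h2 : 62 * MM ≤
        cntp fun i => Pass m lab c k (T i x) (zf (lab i (pre x m)) (pre (f x) t)) := ht
    omega
  have h3 : (cntp fun i => T i x ∈ Bs) < MM := hG.closed x hx
  refine cntp_sub h1 h3 fun i hi hpi hBi => ?_
  refine ⟨hBi, ?_⟩
  have h4 : IsPre (zf (lab i (pre x m)) (pre (f x) t)) (f (T i x)) :=
    isPre_zf (hG.conv x hx i hi) (isPre_iff.2 ⟨t, rfl⟩)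
  obtain ⟨n, hn⟩ := isPre_iff.1 h4
  refine ⟨n, ?_⟩
  rw [← hn]
  exact hpi

theorem fail_step (hG : GoodS f m lab Bs) {k : ℕ} {x : ℕ → Bool} (hx : x ∉ Bs)
    (hp : ¬ ∃ t, Pass m lab c (k + 1) x (pre (f x) t)) :
    MM ≤ cnt {z | z ∉ Bs ∧ ¬ ∃ t, Pass m lab c k z (pre (f z) t)} x := by
  classical
  by_contra hlt
  rw [not_le] at hlt
  apply hp
  set q : ℕ → Prop := fun i => T i x ∉ Bs ∧ ∃ t, Pass m lab c k (T i x) (pre (f (T i x)) t)
    with hq
  have h1 : (cntp fun i => T i x ∈ Bs) < MM := hG.closed x hx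
  have h2 : (cntp fun i => T i x ∉ Bs ∧ ¬ ∃ t, Pass m lab c k (T i x) (pre (f (T i x)) t)) < MM :=
    hlt
  have h3 : 62 * MM ≤ cntp q := by
    have h4 : 62 * MM + MM ≤ cntp fun i => T i x ∉ Bs := by
      have h5 := cntp_compl fun i => T i x ∈ Bs
      rw [RR_eq] at h5
      omega
    refine cntp_sub h4 h2 fun i _ hi hn => ?_
    refine ⟨hi, ?_⟩
    by_contra hc
    exact hn ⟨hi, hc⟩
  -- a common time
  have h6 : ∀ i : ℕ, ∃ s : ℕ, i < RR → q i → ∀ t ≥ s,
      Pass m lab c k (T i x) (zf (lab i (pre x m)) (pre (f x) t)) := by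
    intro i
    by_cases hi : i < RR ∧ q i
    · obtain ⟨t, ht⟩ := hi.2.2
      obtain ⟨s, hs⟩ := pre_prefix_zf (hG.conv x hx i hi.1) t
      exact ⟨s, fun _ _ t' ht' => Pass.mono ht (hs t' ht')⟩
    · exact ⟨0, fun h7 h8 => absurd ⟨h7, h8⟩ hi⟩
  choose s hs using h6
  refine ⟨(Finset.range RR).sup s, ?_⟩
  change 62 * MM ≤ cntp fun i => Pass m lab c k (T i x)
    (zf (lab i (pre x m)) (pre (f x) ((Finset.range RR).sup s)))
  exact h3.trans (cntp_le fun i hi hqi =>
    hs i hi hqi _ (Finset.le_sup (f := s) (Finset.mem_range.2 hi)))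

private lemma PMS_meas_pass (hG : GoodS f m lab Bs) (k : ℕ) :
    MeasurableSet {x | x ∉ Bs ∧ ∃ t, Pass m lab c k x (pre (f x) t)} :=
  hG.meas.compl.inter (meas_pass hG.meas_f k)

private lemma PMS_meas_fail (hG : GoodS f m lab Bs) (k : ℕ) :
    MeasurableSet {x | x ∉ Bs ∧ ¬ ∃ t, Pass m lab c k x (pre (f x) t)} :=
  hG.meas.compl.inter (meas_pass hG.meas_f k).compl

/-- Bad candidates pass rarely. -/
theorem pms_bad (hG : GoodS f m lab Bs) (hc : 3 / 32 < coin.real (errset f c)) {k : ℕ}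
    (hk : 1 ≤ k) :
    coin.real {x | x ∉ Bs ∧ ∃ t, Pass m lab c k x (pre (f x) t)} ≤ (1 / 4) ^ k := by
  induction k, hk using Nat.le_induction with
  | base =>
    refine le_trans (measureReal_mono (s₂ := {x | cnt (errset f c) x ≤ 3 * MM}) ?_) ?_
    · rintro x ⟨hx, hp⟩
      have h1 := pass_step hG hx hp
      have h2 : cnt {z | z ∉ Bs ∧ ∃ t, Pass m lab c 0 z (pre (f z) t)} x ≤
          cntp fun i => ¬ (T i x ∈ errset f c) := by
        refine cntp_le fun i _ hi => ?_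
        obtain ⟨_, t, ht⟩ := hi
        intro he
        apply he
        exact IsPre.of_prefix (isPre_iff.2 ⟨t, rfl⟩) ht
      have h3 := cntp_compl fun i => T i x ∈ errset f c
      have h4 : cnt (errset f c) x = cntp fun i => T i x ∈ errset f c := rfl
      rw [RR_eq] at h3
      change cnt (errset f c) x ≤ 3 * MM
      omega
    · rw [pow_one]
      exact che_c (meas_errset hG.meas_f c) hc.le
  | succ k hk ih =>
    have h0 : coin.real {x | x ∉ Bs ∧ ∃ t, Pass m lab c k x (pre (f x) t)} ≤ 1 / 4 := by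
      refine ih.trans ?_
      calc (1 / 4 : ℝ) ^ k ≤ (1 / 4) ^ 1 :=
            pow_le_pow_of_le_one (by norm_num) (by norm_num) hk
        _ = 1 / 4 := pow_one _
    have h1 := che_b (PMS_meas_pass (c := c) hG k) h0
    refine le_trans (measureReal_mono ?_) (h1.trans ?_)
    · rintro x ⟨hx, hp⟩
      exact pass_step hG hx hp
    · rw [pow_succ]
      linarith

/-- Good candidates fail rarely. -/
theorem pms_good (hG : GoodS f m lab Bs) (hc : coin.real (errset f c) ≤ 1 / 256) (k : ℕ) :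
    coin.real {x | x ∉ Bs ∧ ¬ ∃ t, Pass m lab c k x (pre (f x) t)} ≤ (1 / 4) ^ k := by
  have key : coin.real {x | x ∉ Bs ∧ ¬ ∃ t, Pass m lab c k x (pre (f x) t)} ≤
      (1 / 4) ^ k * (1 / 256) := by
    induction k with
    | zero =>
      rw [pow_zero, one_mul]
      refine le_trans (measureReal_mono ?_) hc
      rintro x ⟨_, hp⟩
      change ¬ IsPre (val c x) (f x)
      intro h
      obtain ⟨n, hn⟩ := isPre_iff.1 h
      apply hp
      refine ⟨n, ?_⟩
      change val c x <+: pre (f x) n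
      rw [← hn]
    | succ k ih =>
      have h0 : coin.real {x | x ∉ Bs ∧ ¬ ∃ t, Pass m lab c k x (pre (f x) t)} ≤ 1 / 128 := by
        refine ih.trans ?_
        have h1 : (1 / 4 : ℝ) ^ k ≤ 1 := pow_le_one₀ (by norm_num) (by norm_num)
        linarith
      have h1 := che_a (PMS_meas_fail (c := c) hG k) h0
      refine le_trans (measureReal_mono ?_) (h1.trans ?_)
      · rintro x ⟨hx, hp⟩
        exact fail_step hG hx hp
      · rw [pow_succ]
        linarith
  refine key.trans ?_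
  have h1 : (0 : ℝ) ≤ (1 / 4) ^ k := by positivity
  linarith

end Pool.Agent.RJ
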