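import Mathlib
import Pool.Agent.RJ.MES
import Pool.Agent.RJ.CHE

/-!
Wrong estimates are rare.
-/

set_option autoImplicit false

namespace Pool.Agent.RJ

open MeasureTheory Encodable Pool.Agent.H19 Pool.Agent.AEI
open Nat.Partrec (Code)

variable {f : (ℕ → Bool) → (ℕ → Bool)} {m : ℕ} {lab : ℕ → List Bool → Code}
  {Bs : Set (ℕ → Bool)} {c : Cand}

/-- A wrong estimate of height `h + 1` comes from many wrong estimates of height `h`. -/
theorem wrong_step (hG : GoodS f m lab Bs) {h : ℕ} {y : ℕ → Bool} (hy : y ∉ Bs)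
    (hw : ∃ b, Est m lab c (h + 1) y b ∧ ¬ IsPre b (f y)) :
    61 * MM ≤ cnt {z | z ∉ Bs ∧ ∃ b, Est m lab c h z b ∧ ¬ IsPre b (f z)} y := by
  obtain ⟨b, hb, hnb⟩ := hw
  have hb' : 62 * MM ≤ cntp fun i => ∃ b' : List Bool, Est m lab c h (T i y) b' ∧
      b <+: zf (lab i (pre (T i y) m)) b' := hb
  have hr : cntp (fun i => T i y ∈ Bs) < MM := hG.closed y hy
  have h62 : 61 * MM + MM ≤ cntp fun i => ∃ b' : List Bool, Est m lab c h (T i y) b' ∧
      b <+: zf (lab i (pre (T i y) m)) b' := by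
    refine le_trans ?_ hb'
    omega
  refine cntp_sub h62 hr ?_
  rintro i hi ⟨b', h1, h2⟩ h3
  refine ⟨h3, b', h1, fun h4 => hnb ?_⟩
  have h5 := hG.conv (T i y) h3 i hi
  rw [T_T hi] at h5
  exact (isPre_zf h5 h4).of_prefix h2

theorem wrg (hG : GoodS f m lab Bs) (hc : coin.real (errset f c) ≤ 3 / 32) (h : ℕ) :
    coin.real {y | y ∉ Bs ∧ ∃ b, Est m lab c h y b ∧ ¬ IsPre b (f y)} ≤ (1 / 4) ^ h := by
  have key : ∀ h : ℕ, coin.real {y | y ∉ Bs ∧ ∃ b, Est m lab c h y b ∧ ¬ IsPre b (f y)} ≤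
      3 / 32 * (1 / 4) ^ h := by
    intro h
    induction h with
    | zero =>
      rw [pow_zero, mul_one]
      refine le_trans (measureReal_mono ?_) hc
      rintro y ⟨_, b, h1, h2⟩ h3
      exact h2 (IsPre.of_prefix h3 h1)
    | succ h ih =>
      have hm : MeasurableSet {y | y ∉ Bs ∧ ∃ b, Est m lab c h y b ∧ ¬ IsPre b (f y)} :=
        hG.meas.compl.inter (meas_wrong hG.meas_f h)
      have h14 : ((1 : ℝ) / 4) ^ h ≤ 1 := pow_le_one₀ (by norm_num) (by norm_num)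
      have hle : coin.real {y | y ∉ Bs ∧ ∃ b, Est m lab c h y b ∧ ¬ IsPre b (f y)} ≤ 1 / 4 := by
        linarith
      have h2 := che_b hm hle
      have h3 : coin.real {y | y ∉ Bs ∧ ∃ b, Est m lab c (h + 1) y b ∧ ¬ IsPre b (f y)} ≤
          coin.real {x | 61 * MM ≤
            cnt {y | y ∉ Bs ∧ ∃ b, Est m lab c h y b ∧ ¬ IsPre b (f y)} x} := by
        refine measureReal_mono ?_
        rintro y ⟨hy, hw⟩
        exact wrong_step hG hy hw
      rw [pow_succ]
      linarith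
  refine (key h).trans ?_
  have : (0 : ℝ) ≤ (1 / 4) ^ h := by positivity
  linarith

end Pool.Agent.RJ
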