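import Mathlib
import Pool.Agent.RJ.CFN
import Pool.Agent.RJ.WRG
import Pool.Agent.RJ.PMS
import Pool.Agent.RJ.LNG
import Pool.Agent.RJ.ERG
import Pool.Agent.RJ.MEA
import Pool.Agent.RJ.LAB

/-!
The main theorem for pairs.
-/

set_option autoImplicit false

namespace Pool.Agent.RJ

open MeasureTheory Encodable Pool.Agent.H19 Pool.Agent.AEI
open Nat.Partrec (Code)

/-- The section at `x` of the set of the pairs `(x, z)` with `f z ≤_T z ⊕ x ⊕ f x`. -/
def secD (f : (ℕ → Bool) → (ℕ → Bool)) (x : ℕ → Bool) : Set (ℕ → Bool) :=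
  {z | TuringReducible (chi (f z)) (chi (jn z (jn x (f x))))}

theorem meas_D {f : (ℕ → Bool) → (ℕ → Bool)} (hf : Measurable f) :
    MeasurableSet {p : (ℕ → Bool) × (ℕ → Bool) | p.2 ∈ secD f p.1} := by
  have h1 : Measurable fun p : (ℕ → Bool) × (ℕ → Bool) => jn p.1 (f p.1) :=
    measurable_jn.comp (measurable_fst.prodMk (hf.comp measurable_fst))
  have h2 : Measurable fun p : (ℕ → Bool) × (ℕ → Bool) => jn p.2 (jn p.1 (f p.1)) :=
    measurable_jn.comp (measurable_snd.prodMk h1)
  exact meas_red (hf.comp measurable_snd) h2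

theorem meas_secD {f : (ℕ → Bool) → (ℕ → Bool)} (hf : Measurable f) (x : ℕ → Bool) :
    MeasurableSet (secD f x) := measurable_prodMk_left (meas_D hf)

theorem le_T {i : ℕ} (hi : i < RR) (x : ℕ → Bool) : TuringReducible (chi x) (chi (T i x)) := by
  have := T_le hi (T i x)
  rwa [T_T hi] at this

theorem jn_mono {X Y X' Y' : ℕ → Bool} (hX : TuringReducible (chi X) (chi X'))
    (hY : TuringReducible (chi Y) (chi Y')) : TuringReducible (chi (jn X Y)) (chi (jn X' Y')) :=
  jn_le (hX.trans (left_le_jn _ _)) (hY.trans (right_le_jn _ _))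

/-- The sections are null or conull. -/
theorem secD_zero_one {f : (ℕ → Bool) → (ℕ → Bool)} (hf : Measurable f)
    (h : ∀ i < RR, ∀ᵐ y ∂coin, TuringReducible (chi (f (T i y))) (chi (f y))) (x : ℕ → Bool) :
    coin (secD f x) = 0 ∨ coin (secD f x)ᶜ = 0 := by
  refine ergodic (meas_secD hf x) fun i hi => ?_
  filter_upwards [h i hi] with z hz hzD
  exact (hz.trans hzD).trans (jn_mono (le_T hi z) TuringReducible.rfl)

/-- The main theorem for pairs. -/
theorem main_pair {f : (ℕ → Bool) → (ℕ → Bool)} (hf : Measurable f)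
    (h : ∀ i < RR, ∀ᵐ y ∂coin, TuringReducible (chi (f (T i y))) (chi (f y))) :
    ∀ᵐ p ∂(coin.prod coin),
      TuringReducible (chi (f p.2)) (chi (jn p.2 (jn p.1 (f p.1)))) := by
  obtain ⟨m, lab, Bs, hG⟩ := exists_goodS hf h
  have hsel := selection hG (fun c k hk hc => pms_bad hG hc hk) (fun c k hc => pms_good hG hc k)
    (lng hG)
  have hdec := fun (Q : ℕ → ℕ) (O : ℕ → Bool) (hQ : TotRec O Q) (j0 : ℕ) =>
    decoding (j0 := j0) hG (fun c j hc => wrg hG hc j) hQ
  -- almost every `x` outside `Bs` has a conull section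
  have hgood : ∀ᵐ x ∂coin, x ∉ Bs → coin (secD f x)ᶜ = 0 := by
    filter_upwards [hsel] with x hx hxB
    obtain ⟨j0, Q, hQ, hQ2⟩ := hx hxB
    obtain ⟨E, hE, hE2, hE3⟩ := hdec Q _ hQ j0 hQ2
    refine (secD_zero_one hf h x).resolve_left fun h0 => ?_
    have h1 : coin E = 0 := measure_mono_null (fun z hz => hE3 z hz) h0
    rw [measureReal_def, h1] at hE2
    norm_num at hE2
  -- the set of the `x` with a conull section is invariant
  let G : Set (ℕ → Bool) := {x | coin (secD f x)ᶜ = 0}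
  have hGm : MeasurableSet G := by
    have h1 : Measurable fun x => coin (Prod.mk x ⁻¹' {p : (ℕ → Bool) × (ℕ → Bool) |
        p.2 ∈ secD f p.1}ᶜ) := measurable_measure_prodMk_left (meas_D hf).compl
    exact h1 (measurableSet_singleton 0)
  have hGinv : ∀ i < RR, ∀ᵐ x ∂coin, x ∈ G → T i x ∈ G := by
    intro i hi
    have h1 : ∀ᵐ x ∂coin, TuringReducible (chi (f (T i (T i x)))) (chi (f (T i x))) :=
      (mp_T hi).quasiMeasurePreserving.ae (h i hi)
    filter_upwards [h1] with x hx hxG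
    rw [T_T hi] at hx
    refine measure_mono_null ?_ hxG
    refine Set.compl_subset_compl.2 fun z hz => ?_
    exact TuringReducible.trans hz (jn_mono TuringReducible.rfl (jn_mono (le_T hi x) hx))
  have hGc : coin Gᶜ = 0 := by
    refine (ergodic hGm hGinv).resolve_left fun h0 => ?_
    have h1 : ∀ᵐ x ∂coin, x ∈ Bs := by
      filter_upwards [hgood, measure_eq_zero_iff_ae_notMem.1 h0] with x hx hxG
      by_contra hxB
      exact hxG (hx hxB)
    have h2 : coin.real Bs = 1 := by
      rw [measureReal_def, prob_compl_eq_zero_iff hG.meas |>.1 (mem_ae_iff.1 h1)]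
      rfl
    have h3 := hG.small
    rw [h2] at h3
    norm_num at h3
  have hfin : ∀ᵐ x ∂coin, ∀ᵐ z ∂coin, (x, z) ∈ {p : (ℕ → Bool) × (ℕ → Bool) |
      p.2 ∈ secD f p.1} := by
    filter_upwards [mem_ae_iff.2 hGc] with x hx
    exact mem_ae_iff.2 hx
  exact (Measure.ae_prod_iff_ae_ae (meas_D hf)).2 hfin

end Pool.Agent.RJ
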