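import Mathlib
import Pool.Agent.RJ.ZON
import Pool.Agent.RJ.CSK

/-!
The main theorem: joins with random sequences.
-/

set_option autoImplicit false

namespace Pool.Agent.RJ

open MeasureTheory Encodable Pool.Agent.H19 Pool.Agent.AEI
open Nat.Partrec (Code)

/-- Removal of an independent random sequence. -/
theorem sacks_ae {A B : ℕ → Bool}
    (h : ∀ᵐ z ∂coin, TuringReducible (chi A) (chi (jn B z))) : TuringReducible (chi A) (chi B) := by
  refine sacks fun h0 => ?_
  have h1 : ∀ᵐ z ∂coin, False := by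
    filter_upwards [h, measure_eq_zero_iff_ae_notMem.1 h0] with z hz hz0
    exact hz0 hz
  rw [Filter.eventually_false_iff_eq_bot, ae_eq_bot] at h1
  exact IsProbabilityMeasure.ne_zero coin h1

theorem left_le {X Y : ℕ → Bool} : TuringReducible (chi X) (chi (jn X Y)) := left_le_jn X Y
theorem right_le {X Y : ℕ → Bool} : TuringReducible (chi Y) (chi (jn X Y)) := right_le_jn X Y

/-- The main theorem: joins with random sequences. -/
theorem main_join {f : (ℕ → Bool) → (ℕ → Bool)} (hf : Measurable f)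
    (hx : ∀ᵐ x ∂coin, TuringReducible (chi x) (chi (f x)))
    (h : ∀ i < RR, ∀ᵐ y ∂coin, TuringReducible (chi (f (T i y))) (chi (f y))) :
    ∀ᵐ p ∂(coin.prod coin),
      TuringReducible (chi (f (jn p.1 p.2))) (chi (jn (f p.1) p.2)) ∧
      TuringReducible (chi (jn (f p.1) p.2)) (chi (f (jn p.1 p.2))) := by
  have hm := main_pair hf h
  -- `∀ᵐ x, ∀ᵐ z`
  have h1 : ∀ᵐ x ∂coin, ∀ᵐ z ∂coin, TuringReducible (chi (f z)) (chi (jn z (jn x (f x)))) :=
    Measure.ae_ae_of_ae_prod hm
  have h2 : ∀ᵐ z ∂coin, ∀ᵐ x ∂coin, TuringReducible (chi (f z)) (chi (jn z (jn x (f x)))) := by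
    have h3 : ∀ᵐ p ∂(coin.prod coin),
        TuringReducible (chi (f p.1)) (chi (jn p.1 (jn p.2 (f p.2)))) := by
      have := (Measure.measurePreserving_swap (μ := coin) (ν := coin)).quasiMeasurePreserving.ae hm
      simpa using this
    exact Measure.ae_ae_of_ae_prod h3
  -- at the pair `(x, y)`
  have q1 : ∀ᵐ p ∂(coin.prod coin), ∀ᵐ z ∂coin,
      TuringReducible (chi (f (jn p.1 p.2))) (chi (jn (jn p.1 p.2) (jn z (f z)))) :=
    mp_jn.quasiMeasurePreserving.ae h2
  have q2 : ∀ᵐ p ∂(coin.prod coin), ∀ᵐ z ∂coin,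
      TuringReducible (chi (f z)) (chi (jn z (jn (jn p.1 p.2) (f (jn p.1 p.2))))) :=
    mp_jn.quasiMeasurePreserving.ae h1
  have q3 : ∀ᵐ p ∂(coin.prod coin), ∀ᵐ z ∂coin,
      TuringReducible (chi (f z)) (chi (jn z (jn p.1 (f p.1)))) :=
    Measure.quasiMeasurePreserving_fst.ae h1
  have q4 : ∀ᵐ p ∂(coin.prod coin), ∀ᵐ z ∂coin,
      TuringReducible (chi (f p.1)) (chi (jn p.1 (jn z (f z)))) :=
    Measure.quasiMeasurePreserving_fst.ae h2
  have q5 : ∀ᵐ p ∂(coin.prod coin), TuringReducible (chi p.1) (chi (f p.1)) :=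
    Measure.quasiMeasurePreserving_fst.ae hx
  have q6 : ∀ᵐ p ∂(coin.prod coin),
      TuringReducible (chi (jn p.1 p.2)) (chi (f (jn p.1 p.2))) :=
    mp_jn.quasiMeasurePreserving.ae hx
  filter_upwards [q1, q2, q3, q4, q5, q6] with p r1 r2 r3 r4 r5 r6
  obtain ⟨x, y⟩ := p
  simp only at r1 r2 r3 r4 r5 r6 ⊢
  have hxJ : TuringReducible (chi x) (chi (f (jn x y))) := left_le.trans r6
  have hyJ : TuringReducible (chi y) (chi (f (jn x y))) := right_le.trans r6
  constructor
  · refine sacks_ae ?_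
    filter_upwards [r1, r3] with z s1 s3
    have t1 : TuringReducible (chi (jn z (jn x (f x)))) (chi (jn (jn (f x) y) z)) :=
      jn_le right_le (jn_le (r5.trans (left_le.trans left_le)) (left_le.trans left_le))
    refine s1.trans (jn_le (jn_le (r5.trans (left_le.trans left_le)) (right_le.trans left_le)) ?_)
    exact jn_le right_le (s3.trans t1)
  · refine jn_le (sacks_ae ?_) hyJ
    filter_upwards [r2, r4] with z s2 s4
    refine s4.trans (jn_le (hxJ.trans left_le) (jn_le right_le (s2.trans ?_)))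
    exact jn_le right_le (jn_le (r6.trans left_le) left_le)

end Pool.Agent.RJ
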