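import Mathlib
import Pool.Agent.RJ.FIN

/-!
The main theorem for operators.
-/

set_option autoImplicit false

namespace Pool.Agent.RJ

open MeasureTheory Encodable Pool.Agent.H19 Pool.Agent.AEI
open Nat.Partrec (Code)

/-- Turing equivalence of sequences. -/
def Teq (X Y : ℕ → Bool) : Prop :=
  TuringReducible (chi X) (chi Y) ∧ TuringReducible (chi Y) (chi X)

theorem Teq.refl (X : ℕ → Bool) : Teq X X := ⟨TuringReducible.rfl, TuringReducible.rfl⟩
theorem Teq.symm {X Y : ℕ → Bool} (h : Teq X Y) : Teq Y X := ⟨h.2, h.1⟩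
theorem Teq.trans {X Y Z : ℕ → Bool} (h : Teq X Y) (h' : Teq Y Z) : Teq X Z :=
  ⟨h.1.trans h'.1, h'.2.trans h.2⟩
theorem Teq.jn {X Y X' Y' : ℕ → Bool} (h : Teq X X') (h' : Teq Y Y') :
    Teq (jn X Y) (jn X' Y') := ⟨jn_mono h.1 h'.1, jn_mono h.2 h'.2⟩

theorem teq_T {i : ℕ} (hi : i < RR) (x : ℕ → Bool) : Teq (T i x) x := ⟨T_le hi x, le_T hi x⟩

theorem teq_assoc (X Y Z : ℕ → Bool) : Teq (jn (jn X Y) Z) (jn X (jn Y Z)) :=
  ⟨jn_le (jn_le left_le (left_le.trans right_le)) (right_le.trans right_le),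
    jn_le (left_le.trans left_le) (jn_le (right_le.trans left_le) right_le)⟩

/-- The main theorem for functions which are degree invariant almost everywhere. -/
theorem main_fun {f : (ℕ → Bool) → (ℕ → Bool)} (hf : Measurable f)
    (hx : ∀ᵐ x ∂coin, TuringReducible (chi x) (chi (f x)))
    (h : ∀ᵐ x ∂coin, ∀ y, Teq y x → Teq (f y) (f x)) :
    ∀ᵐ p ∂(coin.prod coin), Teq (f (jn p.1 p.2)) (jn (f p.1) p.2) := by
  refine main_join hf hx fun i hi => ?_
  filter_upwards [h] with y hy
  exact (hy _ (teq_T hi y)).1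

open Classical in
/-- The characteristic sequence of the set enumerated by `r` from `X`. -/
noncomputable def op (r : Code) (X : ℕ → Bool) : ℕ → Bool := fun n => decide (n ∈ opSet r X)

theorem op_iff {r : Code} {X : ℕ → Bool} {n : ℕ} : op r X n = true ↔ n ∈ opSet r X := by
  simp [op]

theorem measurable_op (r : Code) (P : ℕ → Bool) : Measurable fun x => op r (jn P x) := by
  have hj : Measurable fun x : ℕ → Bool => jn P x :=
    measurable_jn.comp (measurable_const.prodMk measurable_id)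
  refine measurable_pi_lambda _ fun n => measurable_to_bool ?_
  have h1 : (fun x : ℕ → Bool => op r (jn P x) n) ⁻¹' {true} =
      ⋃ s : ℕ, {x | (r.eval (encode (n, pre (jn P x) s))).Dom} := by
    ext x
    simp only [Set.mem_preimage, Set.mem_singleton_iff, Set.mem_iUnion, Set.mem_ofPred_eq]
    exact op_iff
  rw [h1]
  refine MeasurableSet.iUnion fun s => ?_
  have h2 : Measurable fun x : ℕ → Bool => (r.eval (encode (n, pre (jn P x) s))).Dom :=
    (measurable_pre s fun σ => (r.eval (encode (n, σ))).Dom).comp hj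
  exact h2 (MeasurableSet.of_discrete (s := {p : Prop | p}))

/-- The main theorem for operators. -/
theorem main_op (r : Code) (P : ℕ → Bool)
    (h1 : ∀ᵐ X ∂coin, TuringReducible (chi (jn P X)) (chi (op r (jn P X))))
    (h2 : ∀ᵐ X ∂coin, ∀ Y, Teq Y (jn P X) → Teq (op r Y) (op r (jn P X))) :
    ∀ᵐ p ∂(coin.prod coin), Teq (op r (jn (jn P p.1) p.2)) (jn (op r (jn P p.1)) p.2) := by
  have h3 := main_fun (measurable_op r P)
    (by filter_upwards [h1] with x hx; exact right_le.trans hx)
    (by filter_upwards [h2] with x hx y hy; exact hx _ ((Teq.refl P).jn hy))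
  have h4 : ∀ᵐ p ∂(coin.prod coin), ∀ Y, Teq Y (jn P (jn p.1 p.2)) →
      Teq (op r Y) (op r (jn P (jn p.1 p.2))) := mp_jn.quasiMeasurePreserving.ae h2
  filter_upwards [h3, h4] with p hp hp4
  exact (hp4 _ (teq_assoc P p.1 p.2)).trans hp

end Pool.Agent.RJ
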