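import Mathlib
import Pool.Agent.RJ.OPR
import Pool.Agent.RJ.CSK

/-!
Generic joins: definitions for the construction (Posner and Robinson), and the checks for the
decoding.
-/

set_option autoImplicit false

namespace Pool.Agent.RJ

open MeasureTheory Encodable Pool.Agent.H19 Pool.Agent.AEI
open Nat.Partrec (Code)

/-- The string functional of `d` with the oracle `A ⊕ Y`, read from an initial segment `τ`
of `Y`. -/
def psiS (A : ℕ → Bool) (d : Code) (τ : List Bool) : List Bool := zf d (jns (pre A τ.length) τ)

/-- Both functionals are long at `τ`. -/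
def DD (A : ℕ → Bool) (c d : Code) (k : ℕ) (τ : List Bool) : Bool :=
  decide (k ≤ (psiS A d τ).length) && decide (k ≤ (zf c (psiS A d τ)).length)

/-- The `k`-th question about the jump of `Q ⊕ Y` is answered yes by the initial segment `ρ`
of `Y`. -/
def jmp (Q : ℕ → Bool) (k : ℕ) (ρ : List Bool) : Bool := jap k (jns (pre Q ρ.length) ρ)

/-- `β` is the extension of `α` of least code with the property `p`. -/
def IsMinExt (p : List Bool → Bool) (α β : List Bool) : Prop :=
  α <+: β ∧ p β = true ∧ ∀ γ, α <+: γ → p γ = true → encode β ≤ encode γ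

/-- The string `α` followed by the code of the number `n`. -/
def cod (α : List Bool) (n : ℕ) : List Bool := α ++ (List.replicate n false ++ [true])

/-- The steps of the construction. -/
structure Chain (Q A : ℕ → Bool) (b : Bool) (c d : Code) (σ : List Bool)
    (τ τ' : ℕ → List Bool) (n : ℕ → ℕ) : Prop where
  zero : τ 0 = σ
  step1 : ∀ k, IsMinExt (DD A c d k) (τ k) (τ' k)
  step2 : ∀ k, (A (n k) = b ∧ (∀ ρ, cod (τ' k) (n k) <+: ρ → jmp Q k ρ = false) ∧
      τ (k + 1) = cod (τ' k) (n k)) ∨
    (A (n k) ≠ b ∧ IsMinExt (jmp Q k) (cod (τ' k) (n k)) (τ (k + 1)))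

/-- The density hypothesis: every extension of `σ` is an initial segment of some `Y` such that
`c` computes `A` from `W^(Q ⊕ Y)` and `d` computes `W^(Q ⊕ Y)` from `A ⊕ Y`. -/
def Dense (r : Code) (Q A : ℕ → Bool) (c d : Code) (σ : List Bool) : Prop :=
  ∀ τ : List Bool, σ <+: τ → ∃ Y : ℕ → Bool, IsPre τ Y ∧
    CodeComputes c (op r (jn Q Y)) A ∧ CodeComputes d (jn A Y) (op r (jn Q Y))

/-! ### Decoding -/

/-- A certificate: the strings `τ j`, `τ' j` and the numbers `n j` for `j ≤ k`. -/
abbrev Cer := List (List Bool × (List Bool × ℕ))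

/-- The `j`-th entry. -/
def ent (F : Cer) (j : ℕ) : List Bool × (List Bool × ℕ) := F.getD j ([], ([], 0))

/-- `psiS` with `A` given by an initial segment. -/
def psT (a : List Bool) (d : Code) (τ : List Bool) : List Bool := zf d (jns (a.take τ.length) τ)

/-- `DD` with `A` given by an initial segment. -/
def DDT (a : List Bool) (c d : Code) (k : ℕ) (τ : List Bool) : Bool :=
  decide (k ≤ (psT a d τ).length) && decide (k ≤ (zf c (psT a d τ)).length)

/-- `jmp` with `Q` given by an initial segment. -/
def jmT (q : List Bool) (k : ℕ) (ρ : List Bool) : Bool := jap k (jns (q.take ρ.length) ρ)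

/-- The string with the code `i`. -/
def stg (i : ℕ) : List Bool := (decode (α := List Bool) i).getD []

/-- The check for extensions of least code. -/
def minB (p : List Bool → Bool) (α β : List Bool) : Bool :=
  isPre α β && (p β && (List.range (encode β)).all fun i =>
    !(decide (encode (stg i) < encode β) && (isPre α (stg i) && p (stg i))))

/-- The check of the `j`-th entry of a certificate; `a`, `q`, `y` are the initial segments
of `A`, `Q`, `Y` of the length `N`. -/
def loc (σ : List Bool) (b : Bool) (c d : Code) (N : ℕ) (a q y : List Bool) (F : Cer)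
    (j : ℕ) : Bool :=
  ((decide (encode (ent F j).1 < N) && decide (encode (ent F j).2.1 < N)) &&
    (decide ((ent F j).2.2 < N) && isPre (cod (ent F j).2.1 (ent F j).2.2) y)) &&
  (minB (DDT a c d j) (ent F j).1 (ent F j).2.1 &&
    (if decide (j = 0) then decide ((ent F j).1 = σ) else
      if decide (a.getD (ent F (j - 1)).2.2 false = b) then
        decide ((ent F j).1 = cod (ent F (j - 1)).2.1 (ent F (j - 1)).2.2)
      else minB (jmT q (j - 1)) (cod (ent F (j - 1)).2.1 (ent F (j - 1)).2.2) (ent F j).1))

/-- The check of a certificate for the `k`-th question. -/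
def chkG (σ : List Bool) (b : Bool) (c d : Code) (N : ℕ) (a q y : List Bool) (F : Cer)
    (k : ℕ) : Bool := (List.range (k + 1)).all fun j => loc σ b c d N a q y F j

end Pool.Agent.RJ
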