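import Mathlib
import Pool.Agent.RJ.GJDefs

/-!
Generic joins: strings.
-/

set_option autoImplicit false

namespace Pool.Agent.RJ

open MeasureTheory Encodable Pool.Agent.H19 Pool.Agent.AEI
open Nat.Partrec (Code)

theorem psiS_pre (A : ℕ → Bool) (d : Code) (Y : ℕ → Bool) (s : ℕ) :
    psiS A d (pre Y s) = zf d (pre (jn A Y) (2 * s)) := by
  rw [psiS, pre_length, jns_pre]

theorem psiS_mono {A : ℕ → Bool} {d : Code} {τ τ' : List Bool} (h : τ <+: τ') :
    psiS A d τ <+: psiS A d τ' := by
  obtain ⟨X, hX⟩ := exists_pre τ'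
  rw [← hX] at h
  obtain ⟨hl, h2⟩ := (prefix_pre_iff X).1 h
  rw [h2, ← hX, psiS_pre, psiS_pre]
  exact zf_pre_mono d _ (Nat.mul_le_mul_left 2 hl)

theorem DD_iff {A : ℕ → Bool} {c d : Code} {k : ℕ} {τ : List Bool} : DD A c d k τ = true ↔
    k ≤ (psiS A d τ).length ∧ k ≤ (zf c (psiS A d τ)).length := by
  simp [DD]

theorem jmp_pre (Q : ℕ → Bool) (k : ℕ) (Y : ℕ → Bool) (s : ℕ) :
    jmp Q k (pre Y s) = jap k (pre (jn Q Y) (2 * s)) := by
  rw [jmp, pre_length, jns_pre]

theorem jmp_mono {Q : ℕ → Bool} {k : ℕ} {ρ ρ' : List Bool} (h : ρ <+: ρ')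
    (hj : jmp Q k ρ = true) : jmp Q k ρ' = true := by
  obtain ⟨X, hX⟩ := exists_pre ρ'
  rw [← hX] at h
  obtain ⟨hl, h2⟩ := (prefix_pre_iff X).1 h
  rw [h2, jmp_pre] at hj
  rw [← hX, jmp_pre]
  exact jap_mono (pre_mono _ (Nat.mul_le_mul_left 2 hl)) hj

theorem JJ_jn_iff {Q Y : ℕ → Bool} {k : ℕ} :
    JJ (jn Q Y) k = true ↔ ∃ s, jmp Q k (pre Y s) = true := by
  rw [JJ_iff]
  constructor
  · rintro ⟨s, hs⟩
    refine ⟨s, ?_⟩
    rw [jmp_pre]
    exact jap_mono (pre_mono _ (by omega)) hs
  · rintro ⟨s, hs⟩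
    rw [jmp_pre] at hs
    exact ⟨_, hs⟩

theorem prefix_cod (α : List Bool) (n : ℕ) : α <+: cod α n := by
  exact List.prefix_append _ _

theorem length_cod (α : List Bool) (n : ℕ) : (cod α n).length = α.length + n + 1 := by
  simp [cod]
  omega

theorem cod_get {α : List Bool} {n : ℕ} {Y : ℕ → Bool} (h : IsPre (cod α n) Y) :
    Y (α.length + n) = true ∧ ∀ m < n, Y (α.length + m) = false := by
  rw [IsPre, length_cod] at h
  have key : ∀ m, m ≤ n → some (Y (α.length + m)) = (List.replicate n false ++ [true])[m]? := by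
    intro m hm
    have h1 : (cod α n)[α.length + m]? = some (Y (α.length + m)) := by
      rw [h]
      exact pre_getElem? Y (by omega)
    rw [cod, List.getElem?_append_right (by omega)] at h1
    rw [← h1]
    congr 1
    omega
  constructor
  · have := key n le_rfl
    rw [List.getElem?_append_right (by simp)] at this
    simpa using this
  · intro m hm
    have := key m hm.le
    rw [List.getElem?_append_left (by simpa using hm)] at this
    simpa [hm] using this

/-- The number coded after `α` is determined by the sequence. -/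
theorem cod_inj {α : List Bool} {n n' : ℕ} {Y : ℕ → Bool} (h : IsPre (cod α n) Y)
    (h' : IsPre (cod α n') Y) : n = n' := by
  obtain ⟨h1, h2⟩ := cod_get h
  obtain ⟨h3, h4⟩ := cod_get h'
  rcases lt_trichotomy n n' with hlt | heq | hgt
  · rw [h4 n hlt] at h1
    exact absurd h1 (by simp)
  · exact heq
  · rw [h2 n' hgt] at h3
    exact absurd h3 (by simp)

theorem IsMinExt.unique {p : List Bool → Bool} {α β β' : List Bool} (h : IsMinExt p α β)
    (h' : IsMinExt p α β') : β = β' := by
  exact Encodable.encode_injective (le_antisymm (h.2.2 _ h'.1 h'.2.1) (h'.2.2 _ h.1 h.2.1))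

theorem exists_isMinExt {p : List Bool → Bool} {α : List Bool} (h : ∃ β, α <+: β ∧ p β = true) :
    ∃ β, IsMinExt p α β := by
  classical
  have hex : ∃ n : ℕ, ∃ β : List Bool, encode β = n ∧ α <+: β ∧ p β = true := by
    obtain ⟨β, h1, h2⟩ := h
    exact ⟨_, β, rfl, h1, h2⟩
  obtain ⟨β, h1, h2, h3⟩ := Nat.find_spec hex
  refine ⟨β, h2, h3, fun γ hγ hp => ?_⟩
  rw [h1]
  exact Nat.find_min' hex ⟨γ, rfl, hγ, hp⟩

theorem stg_encode (γ : List Bool) : stg (encode γ) = γ := by
  simp [stg]

theorem minB_iff {p : List Bool → Bool} {α β : List Bool} :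
    minB p α β = true ↔ IsMinExt p α β := by
  rw [minB, Bool.and_eq_true, Bool.and_eq_true, H19.isPre_iff, List.all_eq_true]
  constructor
  · rintro ⟨h1, h2, h3⟩
    refine ⟨h1, h2, fun γ hγ hp => ?_⟩
    by_contra hlt
    have hlt' : encode γ < encode β := not_le.1 hlt
    have := h3 (encode γ) (List.mem_range.2 hlt')
    rw [stg_encode, H19.isPre_iff.2 hγ, hp] at this
    simp [hlt'] at this
  · rintro ⟨h1, h2, h3⟩
    refine ⟨h1, h2, fun i _ => ?_⟩
    rw [Bool.not_eq_true', ← Bool.not_eq_true, Bool.and_eq_true, Bool.and_eq_true,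
      decide_eq_true_iff, H19.isPre_iff]
    rintro ⟨h4, h5, h6⟩
    exact absurd (h3 _ h5 h6) (not_le.2 h4)

/-- The check depends only on the values of the property at the strings of smaller code. -/
theorem minB_congr {p p' : List Bool → Bool} {α β : List Bool}
    (h : ∀ γ : List Bool, encode γ ≤ encode β → p γ = p' γ) : minB p α β = minB p' α β := by
  rw [minB, minB, h β le_rfl]
  congr 2
  refine congrArg (fun f : ℕ → Bool => (List.range (encode β)).all f) ?_
  funext i
  by_cases hi : encode (stg i) < encode β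
  · rw [h _ hi.le]
  · simp [hi]

end Pool.Agent.RJ
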