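import Mathlib
import Pool.Agent.RJ.GJA

/-!
Generic joins: the check of certificates is computable.
-/

set_option autoImplicit false

namespace Pool.Agent.RJ

open MeasureTheory Encodable Pool.Agent.H19 Pool.Agent.AEI
open Nat.Partrec (Code)

theorem comp_stg {α : Type*} [Primcodable α] {i : α → ℕ} (hi : Computable i) :
    Computable fun a => stg (i a) :=
  Computable.option_getD (Computable.decode.comp hi) (Computable.const _)

theorem comp_minB {α : Type*} [Primcodable α] {p : α → List Bool → Bool} {u v : α → List Bool}
    (hp : Computable₂ p) (hu : Computable u) (hv : Computable v) :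
    Computable fun a => minB (p a) (u a) (v a) := by
  refine comp_and (comp_isPre hu hv) (comp_and (hp.comp Computable.id hv) ?_)
  refine comp_list_all (g := fun a i => !(decide (encode (stg i) < encode (v a)) &&
    (isPre (u a) (stg i) && p a (stg i)))) (comp_range (Computable.encode.comp hv)) ?_
  have hs : Computable fun x : α × ℕ => stg x.2 := comp_stg Computable.snd
  refine comp_not (comp_and (comp_decLt (Computable.encode.comp hs)
    (Computable.encode.comp (hv.comp Computable.fst))) ?_)
  exact comp_and (comp_isPre (hu.comp Computable.fst) hs) (hp.comp Computable.fst hs)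

private theorem comp_psT {α : Type*} [Primcodable α] {a : α → List Bool} {d : Code}
    {τ : α → List Bool} (ha : Computable a) (hτ : Computable τ) :
    Computable fun x => psT (a x) d (τ x) :=
  comp_zf (Computable.const d)
    (comp_jns (comp_take (Computable.list_length.comp hτ) ha) hτ)

theorem comp_DDT {α : Type*} [Primcodable α] {a : α → List Bool} {c d : Code} {k : α → ℕ}
    {τ : α → List Bool} (ha : Computable a) (hk : Computable k) (hτ : Computable τ) :
    Computable fun x => DDT (a x) c d (k x) (τ x) :=
  comp_and (comp_decLe hk (Computable.list_length.comp (comp_psT ha hτ)))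
    (comp_decLe hk (Computable.list_length.comp
      (comp_zf (Computable.const c) (comp_psT ha hτ))))

theorem comp_jmT {α : Type*} [Primcodable α] {q : α → List Bool} {k : α → ℕ}
    {ρ : α → List Bool} (hq : Computable q) (hk : Computable k) (hρ : Computable ρ) :
    Computable fun x => jmT (q x) (k x) (ρ x) :=
  comp_jap hk (comp_jns (comp_take (Computable.list_length.comp hρ) hq) hρ)

theorem comp_cod {α : Type*} [Primcodable α] {u : α → List Bool} {n : α → ℕ}
    (hu : Computable u) (hn : Computable n) : Computable fun x => cod (u x) (n x) := by
  have h1 : Computable fun x => List.replicate (n x) false := by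
    have h2 : Computable fun x => (List.range (n x)).map fun _ => false :=
      comp_list_map (g := fun _ _ => false) (comp_range hn) (Computable.const false)
    exact h2.of_eq fun x => by
      rw [List.map_const', List.length_range]
  exact Computable.list_append.comp hu
    (Computable.list_append.comp h1 (Computable.const [true]))

theorem comp_ent {α : Type*} [Primcodable α] {F : α → Cer} {j : α → ℕ}
    (hF : Computable F) (hj : Computable j) : Computable fun x => ent (F x) (j x) :=
  (Primrec.list_getD (([], ([], 0)) : List Bool × (List Bool × ℕ))).to_comp.comp hF hj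

theorem comp_loc {α : Type*} [Primcodable α] {σ : List Bool} {b : Bool} {c d : Code}
    {N : α → ℕ} {a q y : α → List Bool} {F : α → Cer} {j : α → ℕ} (hN : Computable N)
    (ha : Computable a) (hq : Computable q) (hy : Computable y) (hF : Computable F)
    (hj : Computable j) :
    Computable fun x => loc σ b c d (N x) (a x) (q x) (y x) (F x) (j x) := by
  have he := comp_ent hF hj
  have h1 : Computable fun x => (ent (F x) (j x)).1 := Computable.fst.comp he
  have h2 : Computable fun x => (ent (F x) (j x)).2.1 :=
    Computable.fst.comp (Computable.snd.comp he)
  have h3 : Computable fun x => (ent (F x) (j x)).2.2 :=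
    Computable.snd.comp (Computable.snd.comp he)
  have hj' : Computable fun x => j x - 1 := Computable.pred.comp hj
  have he' := comp_ent hF hj'
  have g2 : Computable fun x => (ent (F x) (j x - 1)).2.1 :=
    Computable.fst.comp (Computable.snd.comp he')
  have g3 : Computable fun x => (ent (F x) (j x - 1)).2.2 :=
    Computable.snd.comp (Computable.snd.comp he')
  refine comp_and (comp_and (comp_and (comp_decLt (Computable.encode.comp h1) hN)
    (comp_decLt (Computable.encode.comp h2) hN))
    (comp_and (comp_decLt h3 hN) (comp_isPre (comp_cod h2 h3) hy))) ?_
  refine comp_and (comp_minB (p := fun x => DDT (a x) c d (j x))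
    (comp_DDT (ha.comp Computable.fst) (hj.comp Computable.fst) Computable.snd) h1 h2) ?_
  refine comp_ite (comp_decEq hj (Computable.const 0)) (comp_decEq h1 (Computable.const σ)) ?_
  refine comp_ite (comp_decEq (comp_getD ha g3) (Computable.const b))
    (comp_decEq h1 (comp_cod g2 g3)) ?_
  exact comp_minB (p := fun x => jmT (q x) (j x - 1))
    (comp_jmT (hq.comp Computable.fst) (hj'.comp Computable.fst) Computable.snd)
    (comp_cod g2 g3) h1

theorem comp_chkG {α : Type*} [Primcodable α] {σ : List Bool} {b : Bool} {c d : Code}
    {N : α → ℕ} {a q y : α → List Bool} {F : α → Cer} {k : α → ℕ} (hN : Computable N)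
    (ha : Computable a) (hq : Computable q) (hy : Computable y) (hF : Computable F)
    (hk : Computable k) :
    Computable fun x => chkG σ b c d (N x) (a x) (q x) (y x) (F x) (k x) := by
  refine comp_list_all (g := fun x j => loc σ b c d (N x) (a x) (q x) (y x) (F x) j)
    (comp_range (Computable.succ.comp hk)) ?_
  exact comp_loc (hN.comp Computable.fst) (ha.comp Computable.fst) (hq.comp Computable.fst)
    (hy.comp Computable.fst) (hF.comp Computable.fst) Computable.snd

end Pool.Agent.RJ
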