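import Mathlib
import Pool.Agent.RJ.GJA
import Pool.Agent.RJ.GJE
import Pool.Agent.H19.Codes

/-!
Generic joins: the side which is not recursively enumerable, and the sets of questions.
-/

set_option autoImplicit false

namespace Pool.Agent.RJ

open MeasureTheory Encodable Pool.Agent.H19 Pool.Agent.AEI
open Nat.Partrec (Code)

/-- If `A` is not recursive in `Q`, one of its two sides is not recursively enumerable
in `Q`. -/
theorem exists_side {Q A : ℕ → Bool} (h : ¬ TuringReducible (chi A) (chi Q)) :
    ∃ b : Bool, ∀ e : Code, ¬ ∀ n, (∃ s, (e.eval (encode (n, pre Q s))).Dom) ↔ A n = b := by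
  by_contra hcon
  push Not at hcon
  obtain ⟨e1, h1⟩ := hcon true
  obtain ⟨e0, h0⟩ := hcon false
  apply h
  have h1' : ∀ n, (∃ t, cvg e1 n (pre Q t) = true) ↔ A n = true := fun n => by
    rw [← exists_cvg]; exact h1 n
  have h0' : ∀ n, (∃ t, cvg e0 n (pre Q t) = true) ↔ A n = false := fun n => by
    rw [← exists_cvg]; exact h0 n
  have hl : TotRec Q (fun p : ℕ => p.unpair.2) :=
    TotRec.of_computable (Computable.snd.comp Computable.unpair)
  have hn : Computable (fun x : ℕ × List Bool => x.1.unpair.1) :=
    Computable.fst.comp (Computable.unpair.comp Computable.fst)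
  have c1 : Computable (fun x : ℕ × List Bool => cvg e1 x.1.unpair.1 x.2) :=
    comp_cvg (Computable.const e1) hn Computable.snd
  have c0 : Computable (fun x : ℕ × List Bool => cvg e0 x.1.unpair.1 x.2) :=
    comp_cvg (Computable.const e0) hn Computable.snd
  refine red_of_search
    (t := fun n q => if (cvg e1 n (pre Q q) || cvg e0 n (pre Q q)) then 0 else 1)
    (o := fun n q => if cvg e1 n (pre Q q) then 1 else 0) ?_ ?_ ?_ ?_
  · refine totRec_of_pre (F := fun p β => if (cvg e1 p.unpair.1 β || cvg e0 p.unpair.1 β)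
      then 0 else 1) ?_ hl
    exact comp_ite (c := fun x : ℕ × List Bool =>
      (cvg e1 x.1.unpair.1 x.2 || cvg e0 x.1.unpair.1 x.2)) (comp_or c1 c0)
      (Computable.const 0) (Computable.const 1)
  · refine totRec_of_pre (F := fun p β => if cvg e1 p.unpair.1 β then 1 else 0) ?_ hl
    exact comp_ite (c := fun x : ℕ × List Bool => cvg e1 x.1.unpair.1 x.2) c1
      (Computable.const 1) (Computable.const 0)
  · intro n
    cases hA : A n
    · obtain ⟨t, ht⟩ := (h0' n).2 hA
      exact ⟨t, by simp [ht]⟩
    · obtain ⟨t, ht⟩ := (h1' n).2 hA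
      exact ⟨t, by simp [ht]⟩
  · intro n q hq
    cases hA : A n
    · have : cvg e1 n (pre Q q) = false := by
        cases hc : cvg e1 n (pre Q q)
        · rfl
        · rw [(h1' n).1 ⟨q, hc⟩] at hA
          exact absurd hA (by simp)
      simp [this]
    · have : cvg e0 n (pre Q q) = false := by
        cases hc : cvg e0 n (pre Q q)
        · rfl
        · rw [(h0' n).1 ⟨q, hc⟩] at hA
          exact absurd hA (by simp)
      have h2 : cvg e1 n (pre Q q) = true := by
        cases hc : cvg e1 n (pre Q q)
        · rw [this, hc] at hq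
          simp at hq
        · rfl
      simp [h2]

/-- The set of the numbers `n` such that some extension of `cod α n` answers the question yes
is recursively enumerable in `Q`. -/
theorem exists_code_jmp (Q : ℕ → Bool) (k : ℕ) (α : List Bool) :
    ∃ e : Code, ∀ n, (∃ s, (e.eval (encode (n, pre Q s))).Dom) ↔
      ∃ ρ, cod α n <+: ρ ∧ jmp Q k ρ = true := by
  have hP : Computable (fun x : ℕ × List Bool => (strsLe x.2.length).any fun ρ =>
      isPre (cod α x.1) ρ && jap k (jns (x.2.take ρ.length) ρ)) := by
    refine comp_list_any (g := fun (x : ℕ × List Bool) ρ =>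
      isPre (cod α x.1) ρ && jap k (jns (x.2.take ρ.length) ρ))
      (comp_strsLe (Computable.list_length.comp Computable.snd)) ?_
    refine comp_and (comp_isPre (comp_cod (Computable.const α)
      (Computable.fst.comp Computable.fst)) Computable.snd) ?_
    exact comp_jap (Computable.const k) (comp_jns (comp_take
      (Computable.list_length.comp Computable.snd)
      (Computable.snd.comp Computable.fst)) Computable.snd)
  have hO : Computable (fun x : ℕ × List Bool => (if ((strsLe x.2.length).any fun ρ =>
      isPre (cod α x.1) ρ && jap k (jns (x.2.take ρ.length) ρ)) then some 0 else none :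
      Option ℕ)) :=
    comp_ite (c := fun x : ℕ × List Bool => (strsLe x.2.length).any fun ρ =>
      isPre (cod α x.1) ρ && jap k (jns (x.2.take ρ.length) ρ)) hP
      (Computable.const (some 0)) (Computable.const none)
  obtain ⟨e, he⟩ := exists_code_of_partrec (Computable.ofOption hO)
  refine ⟨e, fun n => ?_⟩
  have hdom : ∀ s, (e.eval (encode (n, pre Q s))).Dom ↔ ∃ ρ, ρ.length ≤ s ∧
      cod α n <+: ρ ∧ jmp Q k ρ = true := by
    intro s
    rw [he (n, pre Q s)]
    have h1 : ((if ((strsLe (pre Q s).length).any fun ρ =>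
        isPre (cod α n) ρ && jap k (jns ((pre Q s).take ρ.length) ρ)) then some 0 else none :
        Option ℕ) : Part ℕ).Dom ↔ ((strsLe (pre Q s).length).any fun ρ =>
        isPre (cod α n) ρ && jap k (jns ((pre Q s).take ρ.length) ρ)) = true := by
      split_ifs with hh
      · exact iff_of_true trivial hh
      · exact iff_of_false (fun h => h.elim) hh
    refine h1.trans ?_
    rw [List.any_eq_true]
    constructor
    · rintro ⟨ρ, hρ, h2⟩
      rw [mem_strsLe, pre_length] at hρ
      rw [Bool.and_eq_true, Pool.Agent.H19.isPre_iff, pre_take Q hρ] at h2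
      exact ⟨ρ, hρ, h2.1, h2.2⟩
    · rintro ⟨ρ, hρ, h2, h3⟩
      refine ⟨ρ, ?_, ?_⟩
      · rw [mem_strsLe, pre_length]
        exact hρ
      · rw [Bool.and_eq_true, Pool.Agent.H19.isPre_iff, pre_take Q hρ]
        exact ⟨h2, h3⟩
  constructor
  · rintro ⟨s, hs⟩
    obtain ⟨ρ, _, h2⟩ := (hdom s).1 hs
    exact ⟨ρ, h2⟩
  · rintro ⟨ρ, h2⟩
    exact ⟨ρ.length, (hdom _).2 ⟨ρ, le_rfl, h2⟩⟩

end Pool.Agent.RJ
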