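import Mathlib
import Pool.Agent.RJ.GJB

/-!
Generic joins: the chain exists, and its limit.
-/

set_option autoImplicit false

namespace Pool.Agent.RJ

open MeasureTheory Encodable Pool.Agent.H19 Pool.Agent.AEI
open Nat.Partrec (Code)

theorem exists_DD {r : Code} {Q A : ℕ → Bool} {c d : Code} {σ : List Bool}
    (hD : Dense r Q A c d σ) {τ : List Bool} (h : σ <+: τ) (k : ℕ) :
    ∃ β, τ <+: β ∧ DD A c d k β = true := by
  obtain ⟨Y, hY, hc, hd⟩ := hD τ h
  obtain ⟨hd1, hd2⟩ := zf_of_computes hd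
  obtain ⟨-, hc2⟩ := zf_of_computes hc
  obtain ⟨s1, hs1⟩ := hc2 k
  obtain ⟨s2, hs2⟩ := hd2 (max k s1)
  refine ⟨pre Y (max s2 τ.length), ?_, ?_⟩
  · rw [IsPre] at hY
    rw [hY]
    exact pre_mono Y (by rw [pre_length]; exact le_max_right _ _)
  · have h1 : psiS A d (pre Y (max s2 τ.length)) =
        zf d (pre (jn A Y) (2 * max s2 τ.length)) := psiS_pre _ _ _ _
    have h2 : zf d (pre (jn A Y) s2) <+: zf d (pre (jn A Y) (2 * max s2 τ.length)) :=
      zf_pre_mono d _ (by have := le_max_left s2 τ.length; omega)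
    have h3 : max k s1 ≤ (zf d (pre (jn A Y) (2 * max s2 τ.length))).length :=
      hs2.trans h2.length_le
    rw [DD_iff, h1]
    refine ⟨(le_max_left _ _).trans h3, ?_⟩
    rw [hd1 (2 * max s2 τ.length)]
    exact hs1.trans (zf_pre_mono c _ ((le_max_right _ _).trans h3)).length_le

/-- One step of the construction. -/
private theorem exists_step {r : Code} {Q A : ℕ → Bool} {c d : Code} {σ : List Bool} {b : Bool}
    (hD : Dense r Q A c d σ)
    (hb : ∀ e : Code, ¬ ∀ n, (∃ s, (e.eval (encode (n, pre Q s))).Dom) ↔ A n = b)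
    (k : ℕ) (α : {α : List Bool // σ <+: α}) :
    ∃ x : List Bool × (ℕ × {α : List Bool // σ <+: α}), IsMinExt (DD A c d k) α.1 x.1 ∧
      ((A x.2.1 = b ∧ (∀ ρ, cod x.1 x.2.1 <+: ρ → jmp Q k ρ = false) ∧
        x.2.2.1 = cod x.1 x.2.1) ∨
      (A x.2.1 ≠ b ∧ IsMinExt (jmp Q k) (cod x.1 x.2.1) x.2.2.1)) := by
  obtain ⟨β, hβ⟩ := exists_isMinExt (exists_DD hD α.2 k)
  obtain ⟨e, he⟩ := exists_code_jmp Q k β
  obtain ⟨n, hn⟩ := not_forall.1 (hb e)
  rw [he] at hn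
  have hσ : σ <+: cod β n := (α.2.trans hβ.1).trans (prefix_cod β n)
  by_cases hA : A n = b
  · refine ⟨(β, (n, ⟨cod β n, hσ⟩)), hβ, Or.inl ⟨hA, fun ρ hρ => ?_, rfl⟩⟩
    rw [← Bool.not_eq_true]
    intro hj
    exact hn ⟨fun _ => hA, fun _ => ⟨ρ, hρ, hj⟩⟩
  · have hex : ∃ ρ, cod β n <+: ρ ∧ jmp Q k ρ = true := by
      by_contra hno
      exact hn ⟨fun h => absurd h hno, fun h => absurd h hA⟩
    obtain ⟨γ, hγ⟩ := exists_isMinExt hex
    exact ⟨(β, (n, ⟨γ, hσ.trans hγ.1⟩)), hβ, Or.inr ⟨hA, hγ⟩⟩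

theorem exists_chain {r : Code} {Q A : ℕ → Bool} {c d : Code} {σ : List Bool}
    (hD : Dense r Q A c d σ) (hA : ¬ TuringReducible (chi A) (chi Q)) :
    ∃ (b : Bool) (τ τ' : ℕ → List Bool) (n : ℕ → ℕ), Chain Q A b c d σ τ τ' n := by
  obtain ⟨b, hb⟩ := exists_side hA
  choose x h1 h2 using exists_step hD hb
  let st : ℕ → {α : List Bool // σ <+: α} := fun k =>
    Nat.rec ⟨σ, List.prefix_refl σ⟩ (fun k α => (x k α).2.2) k
  refine ⟨b, fun k => (st k).1, fun k => (x k (st k)).1, fun k => (x k (st k)).2.1, rfl,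
    fun k => h1 k (st k), fun k => h2 k (st k)⟩

variable {Q A : ℕ → Bool} {b : Bool} {c d : Code} {σ : List Bool} {τ τ' : ℕ → List Bool}
  {n : ℕ → ℕ}

theorem Chain.prefix1 (h : Chain Q A b c d σ τ τ' n) (k : ℕ) : τ k <+: τ' k := (h.step1 k).1

theorem Chain.prefix2 (h : Chain Q A b c d σ τ τ' n) (k : ℕ) : cod (τ' k) (n k) <+: τ (k + 1) := by
  rcases h.step2 k with ⟨_, _, h3⟩ | ⟨_, h3⟩
  · rw [h3]
  · exact h3.1

private theorem Chain.prefix3 (h : Chain Q A b c d σ τ τ' n) (k : ℕ) : τ k <+: τ (k + 1) :=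
  ((h.prefix1 k).trans (prefix_cod _ _)).trans (h.prefix2 k)

theorem Chain.prefix0 (h : Chain Q A b c d σ τ τ' n) (k : ℕ) : σ <+: τ k := by
  induction k with
  | zero => rw [h.zero]
  | succ k ih => exact ih.trans (h.prefix3 k)

theorem Chain.le_length (h : Chain Q A b c d σ τ τ' n) (k : ℕ) : k ≤ (τ k).length := by
  induction k with
  | zero => exact Nat.zero_le _
  | succ k ih =>
    have h1 := (h.prefix1 k).length_le
    have h2 := (h.prefix2 k).length_le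
    rw [length_cod] at h2
    omega

theorem Chain.exists_lim (h : Chain Q A b c d σ τ τ' n) :
    ∃ Y : ℕ → Bool, ∀ k, IsPre (τ k) Y := by
  obtain ⟨Y, hY⟩ := exists_limit τ h.prefix3 h.le_length
  exact ⟨Y, fun k => (hY k).symm⟩

end Pool.Agent.RJ
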