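import Mathlib
import Pool.Agent.RJ.GJC

/-!
Generic joins: at the limit of the chain, `A` is recursive in the value of the operator.
-/

set_option autoImplicit false

namespace Pool.Agent.RJ

open MeasureTheory Encodable Pool.Agent.H19 Pool.Agent.AEI
open Nat.Partrec (Code)

variable {r : Code} {Q A : ℕ → Bool} {b : Bool} {c d : Code} {σ : List Bool}
  {τ τ' : ℕ → List Bool} {n : ℕ → ℕ} {Y : ℕ → Bool}

private theorem gjd_jj {r : Code} {Q Y : ℕ → Bool} (i : ℕ) :
    JJ (jn Q Y) (Nat.pair (encode r) i) = op r (jn Q Y) i :=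
  JJ_code (c := r) (fun _ => (op_iff (r := r) (X := jn Q Y)).symm) i

private theorem gjd_mono (h : Chain Q A b c d σ τ τ' n) {k K : ℕ} (hkK : k ≤ K) :
    τ k <+: τ K := by
  induction hkK with
  | refl => exact List.prefix_refl _
  | @step m _ ih =>
    exact ih.trans ((h.prefix1 m).trans ((prefix_cod _ _).trans (h.prefix2 m)))

private theorem gjd_mono' (h : Chain Q A b c d σ τ τ' n) {k K : ℕ} (hkK : k ≤ K) :
    τ' k <+: τ' K := by
  rcases hkK.eq_or_lt with rfl | hlt
  · exact List.prefix_refl _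
  · exact ((prefix_cod _ _).trans (h.prefix2 k)).trans
      ((gjd_mono h (Nat.succ_le_of_lt hlt)).trans (h.prefix1 K))

private theorem gjd_isPre' (h : Chain Q A b c d σ τ τ' n) (hY : ∀ k, IsPre (τ k) Y) (k : ℕ) :
    IsPre (τ' k) Y :=
  (hY (k + 1)).of_prefix ((prefix_cod _ _).trans (h.prefix2 k))

/-- The value of `psiS` at an initial segment of a good sequence. -/
private theorem gjd_psiS {Y' : ℕ → Bool} (hd : CodeComputes d (jn A Y') (op r (jn Q Y')))
    {ρ : List Bool} (hρ : IsPre ρ Y') : IsPre (psiS A d ρ) (op r (jn Q Y')) := by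
  obtain ⟨s, rfl⟩ := isPre_iff.1 hρ
  rw [psiS_pre]
  exact isPre_zf hd (isPre_iff.2 ⟨_, rfl⟩)

private theorem gjd_getD {a : List Bool} {Z : ℕ → Bool} (h : IsPre a Z) {i : ℕ}
    (hi : i < a.length) : a.getD i false = Z i := by
  rw [IsPre] at h
  rw [h]
  exact pre_getD Z hi false

private theorem gjd_of_getD {a : List Bool} {Z : ℕ → Bool}
    (h : ∀ i < a.length, a.getD i false = Z i) : IsPre a Z := by
  rw [IsPre]
  apply List.ext_getElem?
  intro i
  by_cases hi : i < a.length
  · rw [pre_getElem? Z hi, ← h i hi, List.getD_eq_getElem?_getD, List.getElem?_eq_getElem hi]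
    rfl
  · rw [List.getElem?_eq_none (by omega), List.getElem?_eq_none]
    rw [pre_length]; omega

private theorem gjd_prefix_getD {a a' : List Bool} (h : a <+: a') {i : ℕ} (hi : i < a.length) :
    a'.getD i false = a.getD i false := by
  obtain ⟨u, rfl⟩ := h
  rw [List.getD_eq_getElem?_getD, List.getD_eq_getElem?_getD, List.getElem?_append_left hi]

/-- The string functional of `d` gives initial segments of the value of the operator. -/
theorem Chain.isPre_psiS (h : Chain Q A b c d σ τ τ' n) (hD : Dense r Q A c d σ)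
    (hY : ∀ k, IsPre (τ k) Y) (k : ℕ) : IsPre (psiS A d (τ' k)) (op r (jn Q Y)) := by
  refine gjd_of_getD fun i hi => ?_
  -- the values at a late stage
  have late : ∀ K, k ≤ K → ∃ Y' : ℕ → Bool, IsPre (τ' K) Y' ∧
      (psiS A d (τ' k)).getD i false = op r (jn Q Y') i := by
    intro K hK
    obtain ⟨Y', h1, _, h3⟩ := hD (τ' K) ((h.prefix0 K).trans (h.prefix1 K))
    refine ⟨Y', h1, ?_⟩
    have h4 : psiS A d (τ' k) <+: psiS A d (τ' K) := psiS_mono (gjd_mono' h hK)
    rw [← gjd_prefix_getD h4 hi]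
    exact gjd_getD (gjd_psiS h3 h1) (hi.trans_le h4.length_le)
  set m := Nat.pair (encode r) i with hm
  cases hz : (psiS A d (τ' k)).getD i false
  · -- the value is false
    by_contra hne
    have hne' : op r (jn Q Y) i = true := by
      cases hc : op r (jn Q Y) i
      · exact absurd hc.symm hne
      · rfl
    have h1 : JJ (jn Q Y) m = true := by rw [hm, gjd_jj]; exact hne'
    obtain ⟨s, hs⟩ := JJ_jn_iff.1 h1
    obtain ⟨Y', h2, h3⟩ := late (max k s) (le_max_left _ _)
    have h4 : pre Y s <+: τ (max k s) := by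
      have h5 := hY (max k s)
      rw [IsPre] at h5
      rw [h5]
      exact pre_mono Y ((le_max_right k s).trans (h.le_length _))
    have h6 : pre Y s <+: τ' (max k s) := h4.trans (h.prefix1 _)
    have h7 : IsPre (pre Y s) Y' := h2.of_prefix h6
    have h8 : jmp Q m (pre Y' s) = true := by
      rw [IsPre, pre_length] at h7
      rw [← h7]
      exact hs
    have h9 : JJ (jn Q Y') m = true := JJ_jn_iff.2 ⟨s, h8⟩
    rw [hm, gjd_jj] at h9
    rw [hz, h9] at h3
    exact absurd h3 (by simp)
  · -- the value is true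
    by_contra hne
    have hne' : op r (jn Q Y) i = false := by
      cases hc : op r (jn Q Y) i
      · rfl
      · exact absurd hc.symm hne
    have h1 : ∀ s, jmp Q m (pre Y s) = false := by
      intro s
      by_contra hc
      rw [Bool.not_eq_false] at hc
      have := JJ_jn_iff.2 ⟨s, hc⟩
      rw [hm, gjd_jj, hne'] at this
      exact absurd this (by simp)
    rcases h.step2 m with ⟨_, h2, _⟩ | ⟨_, h2⟩
    · obtain ⟨Y', h3, h4⟩ := late (max k (m + 1)) (le_max_left _ _)
      have h5 : op r (jn Q Y') i = true := by rw [← h4]; exact hz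
      have h6 : JJ (jn Q Y') m = true := by rw [hm, gjd_jj]; exact h5
      obtain ⟨s, hs⟩ := JJ_jn_iff.1 h6
      have h7 : cod (τ' m) (n m) <+: τ' (max k (m + 1)) :=
        (h.prefix2 m).trans ((gjd_mono h (le_max_right k (m + 1))).trans (h.prefix1 _))
      have h8 : τ' (max k (m + 1)) <+: pre Y' (max s (τ' (max k (m + 1))).length) := by
        have h9 := h3
        rw [IsPre] at h9
        rw [h9, pre_length]
        exact pre_mono Y' (le_max_right _ _)
      have h10 := h2 _ (h7.trans h8)
      have h11 : jmp Q m (pre Y' (max s (τ' (max k (m + 1))).length)) = true :=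
        jmp_mono (pre_mono Y' (le_max_left _ _)) hs
      rw [h10] at h11
      exact absurd h11 (by simp)
    · have h3 := hY (m + 1)
      rw [IsPre] at h3
      have h4 := h2.2.1
      rw [h3, h1] at h4
      exact absurd h4 (by simp)

theorem Chain.le_op (h : Chain Q A b c d σ τ τ' n) (hD : Dense r Q A c d σ)
    (hY : ∀ k, IsPre (τ k) Y) : TuringReducible (chi A) (chi (op r (jn Q Y))) := by
  have h0 : ∀ m, ∃ s, pre (op r (jn Q Y)) s = psiS A d (τ' m) := fun m => by
    obtain ⟨s, hs⟩ := isPre_iff.1 (h.isPre_psiS hD hY m)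
    exact ⟨s, hs.symm⟩
  obtain ⟨Z, hZ1, hZ2⟩ := exists_of_zf (c := c) (X := op r (jn Q Y)) (by
    intro m
    obtain ⟨s, hs⟩ := h0 m
    refine ⟨s, ?_⟩
    rw [hs]
    exact (DD_iff.1 (h.step1 m).2.1).2)
  have hZA : Z = A := by
    funext i
    obtain ⟨s, hs⟩ := h0 (i + 1)
    have h1 : i < (zf c (psiS A d (τ' (i + 1)))).length := (DD_iff.1 (h.step1 (i + 1)).2.1).2
    have h2 : IsPre (zf c (psiS A d (τ' (i + 1)))) Z := by
      rw [← hs]
      exact hZ1 s
    obtain ⟨Y', h3, h4, h5⟩ := hD (τ' (i + 1)) ((h.prefix0 _).trans (h.prefix1 _))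
    have h6 : IsPre (zf c (psiS A d (τ' (i + 1)))) A := isPre_zf h4 (gjd_psiS h5 h3)
    rw [← gjd_getD h2 h1, gjd_getD h6 h1]
  rw [← hZA]
  exact hZ2

end Pool.Agent.RJ
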