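import Mathlib
import Pool.Agent.RJ.GJC

/-!
Generic joins: certificates are right and exist.
-/

set_option autoImplicit false

namespace Pool.Agent.RJ

open MeasureTheory Encodable Pool.Agent.H19 Pool.Agent.AEI
open Nat.Partrec (Code)

variable {Q A : ℕ → Bool} {b : Bool} {c d : Code} {σ : List Bool}
  {τ τ' : ℕ → List Bool} {n : ℕ → ℕ} {Y : ℕ → Bool}

private theorem take_pre' (Z : ℕ → Bool) {N : ℕ} {γ : List Bool} (h : encode γ < N) :
    (pre Z N).take γ.length = pre Z γ.length := by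
  have h1 : γ.length ≤ N := (Encodable.length_le_encode γ).trans h.le
  exact pre_take Z h1

private theorem DDT_eq {N k : ℕ} {γ : List Bool} (h : encode γ < N) :
    DDT (pre A N) c d k γ = DD A c d k γ := by
  rw [DDT, DD, psT, psiS, take_pre' A h]

private theorem jmT_eq {N k : ℕ} {γ : List Bool} (h : encode γ < N) :
    jmT (pre Q N) k γ = jmp Q k γ := by
  rw [jmT, jmp, take_pre' Q h]

private theorem minB_DDT {N k : ℕ} {α β : List Bool} (h : encode β < N) :
    minB (DDT (pre A N) c d k) α β = true ↔ IsMinExt (DD A c d k) α β := by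
  rw [minB_congr (p' := DD A c d k) fun γ hγ => DDT_eq (hγ.trans_lt h), minB_iff]

private theorem minB_jmT {N k : ℕ} {α β : List Bool} (h : encode β < N) :
    minB (jmT (pre Q N) k) α β = true ↔ IsMinExt (jmp Q k) α β := by
  rw [minB_congr (p' := jmp Q k) fun γ hγ => jmT_eq (hγ.trans_lt h), minB_iff]

private theorem isPre_of {u : List Bool} {N : ℕ} (h : isPre u (pre Y N) = true) : IsPre u Y := by
  rw [Pool.Agent.H19.isPre_iff] at h
  obtain ⟨t, ht⟩ := h
  have h1 : u = (pre Y N).take u.length := by rw [← ht]; simp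
  have h2 : u.length ≤ N := by
    have := congrArg List.length ht
    rw [List.length_append, pre_length] at this
    omega
  rw [IsPre]
  rw [pre_take Y h2] at h1
  exact h1

private theorem isPre_to {u : List Bool} {N : ℕ} (h : IsPre u Y) (hN : u.length ≤ N) :
    isPre u (pre Y N) = true := by
  rw [Pool.Agent.H19.isPre_iff]
  rw [IsPre] at h
  rw [h]
  exact pre_mono Y hN

private theorem isPre_cod (h : Chain Q A b c d σ τ τ' n) (hY : ∀ k, IsPre (τ k) Y) (j : ℕ) :
    IsPre (cod (τ' j) (n j)) Y := by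
  obtain ⟨t, ht⟩ := h.prefix2 j
  have h1 := hY (j + 1)
  rw [IsPre] at h1 ⊢
  have h2 : (cod (τ' j) (n j)).length ≤ (τ (j + 1)).length := (h.prefix2 j).length_le
  have h3 : cod (τ' j) (n j) = (τ (j + 1)).take (cod (τ' j) (n j)).length := by
    rw [← ht]; simp
  rw [h1, pre_take Y h2] at h3
  exact h3

/-- A certificate with all checks passed consists of the entries of the chain. -/
theorem Chain.of_chkG (h : Chain Q A b c d σ τ τ' n) (hY : ∀ k, IsPre (τ k) Y) {N : ℕ}
    {F : Cer} {k : ℕ} (hF : chkG σ b c d N (pre A N) (pre Q N) (pre Y N) F k = true) :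
    ∀ j ≤ k, (ent F j).1 = τ j ∧ (ent F j).2.1 = τ' j ∧ (ent F j).2.2 = n j ∧ n j < N := by
  have h0 : ∀ j ≤ k, loc σ b c d N (pre A N) (pre Q N) (pre Y N) F j = true := by
    intro j hj
    exact List.all_eq_true.1 hF j (List.mem_range.2 (Nat.lt_succ_of_le hj))
  intro j
  induction j with
  | zero =>
    intro hj
    have h1 := h0 0 hj
    unfold loc at h1
    simp only [Bool.and_eq_true, decide_eq_true_iff, if_true] at h1
    obtain ⟨⟨⟨h2, h3⟩, h4, h5⟩, h6, h7⟩ := h1
    have h8 : (ent F 0).1 = τ 0 := h7.trans h.zero.symm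
    rw [minB_DDT h3, h8] at h6
    have h9 := h6.unique (h.step1 0)
    rw [h9] at h5
    have h10 := cod_inj (isPre_of h5) (isPre_cod h hY 0)
    exact ⟨h8, h9, h10, h10 ▸ h4⟩
  | succ j ih =>
    intro hj
    obtain ⟨i1, i2, i3, i4⟩ := ih (by omega)
    have h1 := h0 (j + 1) hj
    unfold loc at h1
    simp only [Bool.and_eq_true, decide_eq_true_iff, Nat.add_one_ne_zero, if_false,
      Nat.add_sub_cancel, i2, i3, pre_getD A i4] at h1
    obtain ⟨⟨⟨h2, h3⟩, h4, h5⟩, h6, h7⟩ := h1
    have h8 : (ent F (j + 1)).1 = τ (j + 1) := by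
      rcases h.step2 j with ⟨g1, g2, g3⟩ | ⟨g1, g2⟩
      · rw [if_pos g1, decide_eq_true_iff] at h7
        rw [h7, g3]
      · rw [if_neg g1, minB_jmT h2] at h7
        exact h7.unique g2
    rw [minB_DDT h3, h8] at h6
    have h9 := h6.unique (h.step1 (j + 1))
    rw [h9] at h5
    have h10 := cod_inj (isPre_of h5) (isPre_cod h hY (j + 1))
    exact ⟨h8, h9, h10, h10 ▸ h4⟩

theorem Chain.exists_chkG (h : Chain Q A b c d σ τ τ' n) (hY : ∀ k, IsPre (τ k) Y) (k : ℕ) :
    ∃ (N : ℕ) (F : Cer), chkG σ b c d N (pre A N) (pre Q N) (pre Y N) F k = true := by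
  let B : ℕ → ℕ := fun j => encode (τ j) + encode (τ' j) + n j + (cod (τ' j) (n j)).length + 1
  obtain ⟨N, hN⟩ : ∃ N, ∀ j ≤ k, B j ≤ N :=
    ⟨(Finset.range (k + 1)).sup B, fun j hj => Finset.le_sup (f := B)
      (Finset.mem_range.2 (Nat.lt_succ_of_le hj))⟩
  let F : Cer := (List.range (k + 1)).map fun j => (τ j, (τ' j, n j))
  have hF : ∀ j ≤ k, ent F j = (τ j, (τ' j, n j)) := by
    intro j hj
    have hl : j < F.length := by simp [F]; omega
    rw [ent, List.getD_eq_getElem _ _ hl]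
    simp [F]
  refine ⟨N, F, List.all_eq_true.2 fun j hj => ?_⟩
  have hj : j ≤ k := Nat.le_of_lt_succ (List.mem_range.1 hj)
  have hB : encode (τ j) + encode (τ' j) + n j + (cod (τ' j) (n j)).length + 1 ≤ N := hN j hj
  unfold loc
  rw [hF j hj]
  simp only [Bool.and_eq_true, decide_eq_true_iff]
  refine ⟨⟨⟨by omega, by omega⟩, by omega, isPre_to (isPre_cod h hY j) (by omega)⟩,
    (minB_DDT (by omega)).2 (h.step1 j), ?_⟩
  rcases Nat.eq_zero_or_pos j with hz | hz
  · subst hz
    rw [if_pos rfl, decide_eq_true_iff]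
    exact h.zero
  · obtain ⟨i, rfl⟩ : ∃ i, j = i + 1 := ⟨j - 1, by omega⟩
    have hBi : encode (τ i) + encode (τ' i) + n i + (cod (τ' i) (n i)).length + 1 ≤ N :=
      hN i (by omega)
    rw [if_neg (Nat.add_one_ne_zero i), Nat.add_sub_cancel, hF i (by omega)]
    simp only
    rw [pre_getD A (show n i < N by omega)]
    rcases h.step2 i with ⟨g1, g2, g3⟩ | ⟨g1, g2⟩
    · rw [if_pos g1, decide_eq_true_iff]
      exact g3
    · rw [if_neg g1, minB_jmT (by omega)]
      exact g2

/-- The answer to the `k`-th question. -/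
theorem Chain.JJ_eq (h : Chain Q A b c d σ τ τ' n) (hY : ∀ k, IsPre (τ k) Y) (k : ℕ) :
    JJ (jn Q Y) k = !(decide (A (n k) = b)) := by
  rcases h.step2 k with ⟨g1, g2, g3⟩ | ⟨g1, g2⟩
  · have h1 : JJ (jn Q Y) k ≠ true := by
      rw [Ne, JJ_jn_iff]
      rintro ⟨s, hs⟩
      have h2 := isPre_cod h hY k
      rw [IsPre] at h2
      have h3 := g2 (pre Y (max s (cod (τ' k) (n k)).length)) (by
        rw [h2]
        exact pre_mono Y (by rw [pre_length]; exact le_max_right _ _))
      rw [jmp_mono (pre_mono Y (le_max_left _ _)) hs] at h3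
      exact Bool.noConfusion h3
    rw [Bool.eq_false_of_not_eq_true h1, decide_eq_true g1]
    rfl
  · have h1 : JJ (jn Q Y) k = true := by
      rw [JJ_jn_iff]
      have h2 := hY (k + 1)
      rw [IsPre] at h2
      exact ⟨(τ (k + 1)).length, by rw [← h2]; exact g2.2.1⟩
    rw [h1, decide_eq_false g1]
    rfl

end Pool.Agent.RJ
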