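import Mathlib
import Pool.Agent.RJ.GJE
import Pool.Agent.RJ.GJG

/-!
Generic joins: the jump of `Q ⊕ Y` is recursive in `A ⊕ Y ⊕ Q`.
-/

set_option autoImplicit false

namespace Pool.Agent.RJ

open MeasureTheory Encodable Pool.Agent.H19 Pool.Agent.AEI
open Nat.Partrec (Code)

variable {Q A : ℕ → Bool} {b : Bool} {c d : Code} {σ : List Bool}
  {τ τ' : ℕ → List Bool} {n : ℕ → ℕ} {Y : ℕ → Bool}

/-- Search data: a length and a certificate. -/
private def dg (q : ℕ) : ℕ × Cer := (decode (α := ℕ × Cer) q).getD (0, [])

private theorem dg_encode (x : ℕ × Cer) : dg (encode x) = x := by simp [dg]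

private theorem comp_dg : Computable dg :=
  Computable.option_getD Computable.decode (Computable.const _)

private def ls (i : ℕ) : List Bool := (decode (α := List Bool) i).getD []

private theorem ls_encode (x : List Bool) : ls (encode x) = x := by simp [ls]

private theorem comp_ls : Computable ls :=
  Computable.option_getD Computable.decode (Computable.const _)

/-- The test: `u` is the code of the initial segments of `A` and `Q`, and `v` the code of the
initial segment of `Y`. -/
private def tsg (σ : List Bool) (b : Bool) (c d : Code) (p u v : ℕ) : ℕ :=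
  if chkG σ b c d (dg p.unpair.2).1 (ls u.unpair.1) (ls u.unpair.2) (ls v) (dg p.unpair.2).2
    p.unpair.1 then 0 else 1

private theorem comp_tsg {σ : List Bool} {b : Bool} {c d : Code} :
    Computable fun x : ℕ × (ℕ × ℕ) => tsg σ b c d x.1 x.2.1 x.2.2 := by
  have h1 : Computable fun x : ℕ × (ℕ × ℕ) => x.1.unpair.1 :=
    Computable.fst.comp (Computable.unpair.comp Computable.fst)
  have h2 : Computable fun x : ℕ × (ℕ × ℕ) => dg x.1.unpair.2 :=
    comp_dg.comp (Computable.snd.comp (Computable.unpair.comp Computable.fst))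
  have h3 : Computable fun x : ℕ × (ℕ × ℕ) => ls x.2.1.unpair.1 :=
    comp_ls.comp (Computable.fst.comp (Computable.unpair.comp
      (Computable.fst.comp Computable.snd)))
  have h4 : Computable fun x : ℕ × (ℕ × ℕ) => ls x.2.1.unpair.2 :=
    comp_ls.comp (Computable.snd.comp (Computable.unpair.comp
      (Computable.fst.comp Computable.snd)))
  have h5 : Computable fun x : ℕ × (ℕ × ℕ) => ls x.2.2 :=
    comp_ls.comp (Computable.snd.comp Computable.snd)
  exact comp_ite (c := fun x : ℕ × (ℕ × ℕ) => chkG σ b c d (dg x.1.unpair.2).1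
    (ls x.2.1.unpair.1) (ls x.2.1.unpair.2) (ls x.2.2) (dg x.1.unpair.2).2 x.1.unpair.1)
    (comp_chkG (Computable.fst.comp h2) h3 h4 h5 (Computable.snd.comp h2) h1)
    (Computable.const 0) (Computable.const 1)

/-- The answer. -/
private def out (b : Bool) (p u : ℕ) : ℕ :=
  if decide ((ls u).getD (ent (dg p.unpair.2).2 p.unpair.1).2.2 false = b) then 0 else 1

private theorem comp_out {b : Bool} : Computable₂ (out b) := by
  have h1 : Computable fun x : ℕ × ℕ => ent (dg x.1.unpair.2).2 x.1.unpair.1 :=
    comp_ent (Computable.snd.comp (comp_dg.comp (Computable.snd.comp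
      (Computable.unpair.comp Computable.fst))))
      (Computable.fst.comp (Computable.unpair.comp Computable.fst))
  exact comp_ite (c := fun x : ℕ × ℕ =>
    decide ((ls x.2).getD (ent (dg x.1.unpair.2).2 x.1.unpair.1).2.2 false = b))
    (comp_decEq (comp_getD (comp_ls.comp Computable.snd) (Computable.snd.comp
      (Computable.snd.comp h1))) (Computable.const b))
    (Computable.const 0) (Computable.const 1)

theorem Chain.jump_le (h : Chain Q A b c d σ τ τ' n) (hY : ∀ k, IsPre (τ k) Y) :
    TuringReducible (chi (JJ (jn Q Y))) (chi (jn (jn A Y) Q)) := by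
  set Z := jn (jn A Y) Q with hZ
  have hA : TotRec Z (fun n => encode (pre A n)) :=
    totRec_mono (TotRec.pre A) ((left_le_jn A Y).trans (left_le_jn _ _))
  have hYZ : TotRec Z (fun n => encode (pre Y n)) :=
    totRec_mono (TotRec.pre Y) ((right_le_jn A Y).trans (left_le_jn _ _))
  have hQ : TotRec Z (fun n => encode (pre Q n)) :=
    totRec_mono (TotRec.pre Q) (right_le_jn _ _)
  have hd : ∀ {g : ℕ → ℕ}, Computable g → TotRec Z g := fun hg => TotRec.of_computable hg
  have hN : TotRec Z (fun p : ℕ => (dg p.unpair.2).1) :=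
    hd (Computable.fst.comp (comp_dg.comp (Computable.snd.comp Computable.unpair)))
  refine red_of_search
    (t := fun k q => tsg σ b c d (Nat.pair k q)
      (Nat.pair (encode (pre A (dg q).1)) (encode (pre Q (dg q).1))) (encode (pre Y (dg q).1)))
    (o := fun k q => out b (Nat.pair k q) (encode (pre A (dg q).1))) ?_ ?_ ?_ ?_
  · have h3 := totRec_comp3 (Z := Z) (comp_tsg (σ := σ) (b := b) (c := c) (d := d))
      (a := fun p => p)
      (b := fun p => Nat.pair (encode (pre A (dg p.unpair.2).1))
        (encode (pre Q (dg p.unpair.2).1)))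
      (c := fun p => encode (pre Y (dg p.unpair.2).1)) (hd Computable.id)
      ((hA.comp hN).pair (hQ.comp hN)) (hYZ.comp hN)
    refine (h3 : Nat.RecursiveIn _ _).of_eq fun p => ?_
    simp
  · have h3 := TotRec.comp_computable₂ (comp_out (b := b)) (hd Computable.id) (hA.comp hN)
    refine (h3 : Nat.RecursiveIn _ _).of_eq fun p => ?_
    simp
  · intro k
    obtain ⟨N, F, hF⟩ := h.exists_chkG hY k
    refine ⟨encode ((N, F) : ℕ × Cer), ?_⟩
    simp only [tsg, dg_encode, Nat.unpair_pair, ls_encode, hF, if_true]
  · intro k q hq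
    simp only [tsg, Nat.unpair_pair, ls_encode] at hq
    have hF : chkG σ b c d (dg q).1 (pre A (dg q).1) (pre Q (dg q).1) (pre Y (dg q).1)
        (dg q).2 k = true := by
      by_contra hno
      rw [if_neg hno] at hq
      exact one_ne_zero hq
    obtain ⟨-, -, h4, h5⟩ := h.of_chkG hY hF k le_rfl
    simp only [out, Nat.unpair_pair, ls_encode, h4]
    rw [pre_getD A h5, h.JJ_eq hY k]
    by_cases hb : A (n k) = b
    · simp [hb]
    · simp [hb]

end Pool.Agent.RJ
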