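import Mathlib
import Pool.Agent.RJ.GJD
import Pool.Agent.RJ.GJH

/-!
Generic joins: the theorem.
-/

set_option autoImplicit false

namespace Pool.Agent.RJ

open MeasureTheory Encodable Pool.Agent.H19 Pool.Agent.AEI
open Nat.Partrec (Code)

open Filter

/-- The set of sequences with a given initial segment is open. -/
private theorem isOpen_isPre (τ : List Bool) : IsOpen {Y : ℕ → Bool | IsPre τ Y} := by
  have h1 : {Y : ℕ → Bool | IsPre τ Y} =
      ⋂ i ∈ Finset.range τ.length, {Y : ℕ → Bool | Y i = τ.getD i false} := by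
    ext Y
    simp only [Set.mem_ofPred_eq, Set.mem_iInter, Finset.mem_range]
    constructor
    · intro h i hi
      conv_rhs => rw [h]
      exact (pre_getD Y hi false).symm
    · intro h
      apply List.ext_getElem?
      intro i
      by_cases hi : i < τ.length
      · rw [pre_getElem? _ hi, h i hi, List.getD_eq_getElem?_getD, List.getElem?_eq_getElem hi]
        rfl
      · rw [List.getElem?_eq_none, List.getElem?_eq_none]
        · rw [pre_length]; omega
        · omega
  rw [h1]
  refine isOpen_biInter_finset fun i _ => ?_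
  have h2 : IsOpen ((fun Y : ℕ → Bool => Y i) ⁻¹' {τ.getD i false}) :=
    (isOpen_discrete _).preimage (continuous_apply i)
  exact h2

/-- A nonempty open set contains all sequences with a suitable initial segment. -/
private theorem exists_string {U : Set (ℕ → Bool)} (hU : IsOpen U) (hne : U.Nonempty) :
    ∃ σ : List Bool, ∀ Y, IsPre σ Y → Y ∈ U := by
  obtain ⟨X, hX⟩ := hne
  obtain ⟨I, u, hu, hI⟩ := isOpen_pi_iff.1 hU X hX
  obtain ⟨N, hN⟩ : ∃ N, ∀ i ∈ I, i < N := ⟨I.sup id + 1, fun i hi =>
    Nat.lt_succ_of_le (Finset.le_sup (f := id) hi)⟩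
  refine ⟨pre X N, fun Y hY => hI ?_⟩
  intro i hi
  have h1 : Y i = X i := by
    rw [IsPre, pre_length] at hY
    have h2 : (pre X N).getD i false = (pre Y N).getD i false := by rw [← hY]
    rw [pre_getD X (hN i hi), pre_getD Y (hN i hi)] at h2
    exact h2.symm
  rw [h1]
  exact (hu i hi).2

/-- If above `Q` the value of the operator is above the oracle and not above its jump, then
the operator is not given by the join with a fixed set `A` for comeager many `Y`. -/
theorem main_generic (r : Code) {Q A : ℕ → Bool} (hQA : TuringReducible (chi Q) (chi A))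
    (hA : ¬ TuringReducible (chi A) (chi Q))
    (h1 : ∀ Y, TuringReducible (chi (jn Q Y)) (chi (op r (jn Q Y))))
    (h2 : ∀ Y, ¬ TuringReducible (chi (JJ (jn Q Y))) (chi (op r (jn Q Y)))) :
    ∀ᶠ Y in residual (ℕ → Bool), ¬ Teq (op r (jn Q Y)) (jn A Y) := by
  have hnd : ∀ c d : Code, ∀ σ : List Bool, ¬ Dense r Q A c d σ := by
    intro c d σ hD
    obtain ⟨b, τ, τ', n, hc⟩ := exists_chain hD hA
    obtain ⟨Y, hY⟩ := hc.exists_lim
    have h3 := hc.jump_le hY
    have h4 := hc.le_op hD hY
    refine h2 Y (h3.trans (jn_le (jn_le h4 ?_) (hQA.trans h4)))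
    exact (right_le_jn Q Y).trans (h1 Y)
  have hE : ∀ c d : Code, ∀ᶠ Y in residual (ℕ → Bool),
      ¬ (CodeComputes c (op r (jn Q Y)) A ∧ CodeComputes d (jn A Y) (op r (jn Q Y))) := by
    intro c d
    let G : Set (List Bool) := {τ | ∀ Y : ℕ → Bool, IsPre τ Y →
      ¬ (CodeComputes c (op r (jn Q Y)) A ∧ CodeComputes d (jn A Y) (op r (jn Q Y)))}
    let U : Set (ℕ → Bool) := ⋃ τ ∈ G, {Y | IsPre τ Y}
    have hUo : IsOpen U := isOpen_biUnion fun τ _ => isOpen_isPre τ
    have hUd : _root_.Dense U := by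
      rw [dense_iff_inter_open]
      intro V hV hne
      obtain ⟨σ, hσ⟩ := exists_string hV hne
      have h3 := hnd c d σ
      unfold Dense at h3
      push Not at h3
      obtain ⟨τ, hτ, h4⟩ := h3
      obtain ⟨Y, hY⟩ := exists_pre τ
      have hY' : IsPre τ Y := hY.symm
      refine ⟨Y, hσ Y (hY'.of_prefix hτ), ?_⟩
      refine Set.mem_biUnion (x := τ) ?_ hY'
      intro Y' hY'' h5
      exact h4 Y' hY'' h5.1 h5.2
    filter_upwards [residual_of_dense_open hUo hUd] with Y hY
    obtain ⟨τ, hτ, hY'⟩ := Set.mem_iUnion₂.1 hY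
    exact hτ Y hY'
  have hall : ∀ᶠ Y in residual (ℕ → Bool), ∀ c d : Code,
      ¬ (CodeComputes c (op r (jn Q Y)) A ∧ CodeComputes d (jn A Y) (op r (jn Q Y))) := by
    rw [eventually_countable_forall]
    intro c
    rw [eventually_countable_forall]
    exact hE c
  filter_upwards [hall] with Y hY hT
  obtain ⟨c, hc⟩ := exists_codeComputes ((left_le_jn A Y).trans hT.2)
  obtain ⟨d, hd⟩ := exists_codeComputes hT.1
  exact hY c d ⟨hc, hd⟩

end Pool.Agent.RJ
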