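import Mathlib
import Pool.Agent.RJ.GJF

/-!
Generic joins: cone avoidance, and the theorem without hypotheses on `A`.
-/

set_option autoImplicit false

namespace Pool.Agent.RJ

open MeasureTheory Encodable Pool.Agent.H19 Pool.Agent.AEI
open Nat.Partrec (Code)

open Filter

private theorem isOpen_isPre' (τ : List Bool) : IsOpen {Y : ℕ → Bool | IsPre τ Y} := by
  have h1 : {Y : ℕ → Bool | IsPre τ Y} =
      ⋂ i ∈ Finset.range τ.length, {Y : ℕ → Bool | Y i = τ.getD i false} := by
    ext Y
    simp only [Set.mem_ofPred_eq, Set.mem_iInter, Finset.mem_range]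
    constructor
    · intro h i hi
      conv_rhs => rw [h]
      exact (pre_getD Y hi false).symm
    · intro h
      apply List.ext_getElem?
      intro i
      by_cases hi : i < τ.length
      · rw [pre_getElem? _ hi, h i hi, List.getD_eq_getElem?_getD, List.getElem?_eq_getElem hi]
        rfl
      · rw [List.getElem?_eq_none, List.getElem?_eq_none]
        · rw [pre_length]; omega
        · omega
  rw [h1]
  refine isOpen_biInter_finset fun i _ => ?_
  have h2 : IsOpen ((fun Y : ℕ → Bool => Y i) ⁻¹' {τ.getD i false}) :=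
    (isOpen_discrete _).preimage (continuous_apply i)
  exact h2

private theorem exists_string' {U : Set (ℕ → Bool)} (hU : IsOpen U) (hne : U.Nonempty) :
    ∃ σ : List Bool, ∀ Y, IsPre σ Y → Y ∈ U := by
  obtain ⟨X, hX⟩ := hne
  obtain ⟨I, u, hu, hI⟩ := isOpen_pi_iff.1 hU X hX
  obtain ⟨N, hN⟩ : ∃ N, ∀ i ∈ I, i < N := ⟨I.sup id + 1, fun i hi =>
    Nat.lt_succ_of_le (Finset.le_sup (f := id) hi)⟩
  refine ⟨pre X N, fun Y hY => hI ?_⟩
  intro i hi
  have h1 : Y i = X i := by
    rw [IsPre, pre_length] at hY
    have h2 : (pre X N).getD i false = (pre Y N).getD i false := by rw [← hY]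
    rw [pre_getD X (hN i hi), pre_getD Y (hN i hi)] at h2
    exact h2.symm
  rw [h1]
  exact (hu i hi).2

/-- A property which can be excluded above every string fails for comeager many sequences. -/
theorem residual_not {P : (ℕ → Bool) → Prop}
    (h : ∀ σ : List Bool, ∃ τ, σ <+: τ ∧ ∀ Y, IsPre τ Y → ¬ P Y) :
    ∀ᶠ Y in residual (ℕ → Bool), ¬ P Y := by
  let G : Set (List Bool) := {τ | ∀ Y : ℕ → Bool, IsPre τ Y → ¬ P Y}
  let U : Set (ℕ → Bool) := ⋃ τ ∈ G, {Y | IsPre τ Y}
  have hUo : IsOpen U := isOpen_biUnion fun τ _ => isOpen_isPre' τ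
  have hUd : _root_.Dense U := by
    rw [dense_iff_inter_open]
    intro V hV hne
    obtain ⟨σ, hσ⟩ := exists_string' hV hne
    obtain ⟨τ, hτ, h4⟩ := h σ
    obtain ⟨Y, hY⟩ := exists_pre τ
    have hY' : IsPre τ Y := hY.symm
    exact ⟨Y, hσ Y (hY'.of_prefix hτ), Set.mem_biUnion (x := τ) h4 hY'⟩
  filter_upwards [residual_of_dense_open hUo hUd] with Y hY
  obtain ⟨τ, hτ, hY'⟩ := Set.mem_iUnion₂.1 hY
  exact hτ Y hY'

private def dl (q : ℕ) : List Bool := (decode (α := List Bool) q).getD []

private theorem dl_encode (x : List Bool) : dl (encode x) = x := by simp [dl]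

private theorem comp_dl : Computable dl :=
  Computable.option_getD Computable.decode (Computable.const _)

private def ta (σ : List Bool) (c : Code) (p u : ℕ) : ℕ :=
  if isPre σ (dl p.unpair.2) && decide (p.unpair.1 < (zf c (jns (dl u) (dl p.unpair.2))).length)
  then 0 else 1

private def oa (c : Code) (p u : ℕ) : ℕ :=
  if (zf c (jns (dl u) (dl p.unpair.2))).getD p.unpair.1 false then 1 else 0

private theorem comp_za {c : Code} :
    Computable fun x : ℕ × ℕ => zf c (jns (dl x.2) (dl x.1.unpair.2)) :=
  comp_zf (Computable.const c) (comp_jns (comp_dl.comp Computable.snd)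
    (comp_dl.comp (Computable.snd.comp (Computable.unpair.comp Computable.fst))))

private theorem comp_ta {σ : List Bool} {c : Code} : Computable₂ (ta σ c) := by
  have h1 : Computable fun x : ℕ × ℕ => x.1.unpair.1 :=
    Computable.fst.comp (Computable.unpair.comp Computable.fst)
  have h2 : Computable fun x : ℕ × ℕ => dl x.1.unpair.2 :=
    comp_dl.comp (Computable.snd.comp (Computable.unpair.comp Computable.fst))
  exact comp_ite (c := fun x : ℕ × ℕ => isPre σ (dl x.1.unpair.2) &&
    decide (x.1.unpair.1 < (zf c (jns (dl x.2) (dl x.1.unpair.2))).length))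
    (comp_and (comp_isPre (Computable.const σ) h2)
      (comp_decLt h1 (Computable.list_length.comp comp_za)))
    (Computable.const 0) (Computable.const 1)

private theorem comp_oa {c : Code} : Computable₂ (oa c) := by
  have h1 : Computable fun x : ℕ × ℕ => x.1.unpair.1 :=
    Computable.fst.comp (Computable.unpair.comp Computable.fst)
  exact comp_ite (c := fun x : ℕ × ℕ =>
    (zf c (jns (dl x.2) (dl x.1.unpair.2))).getD x.1.unpair.1 false)
    (comp_getD comp_za h1) (Computable.const 1) (Computable.const 0)

/-- A set which is not recursive in `A` is not recursive in `A ⊕ Y`, for comeager many `Y`. -/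
theorem avoid {Q A : ℕ → Bool} (h : ¬ TuringReducible (chi Q) (chi A)) :
    ∀ᶠ Y in residual (ℕ → Bool), ¬ TuringReducible (chi Q) (chi (jn A Y)) := by
  have hE : ∀ c : Code, ∀ᶠ Y in residual (ℕ → Bool), ¬ CodeComputes c (jn A Y) Q := by
    intro c
    refine residual_not fun σ => ?_
    by_contra hno
    push Not at hno
    have hps : ∀ τ : List Bool, σ <+: τ → IsPre (psiS A c τ) Q := by
      intro τ hτ
      obtain ⟨Y, hY, hc⟩ := hno τ hτ
      rw [hY, psiS_pre]
      exact (zf_of_computes hc).1 _
    refine h (red_of_search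
      (t := fun n q => ta σ c (Nat.pair n q) (encode (pre A (dl q).length)))
      (o := fun n q => oa c (Nat.pair n q) (encode (pre A (dl q).length))) ?_ ?_ ?_ ?_)
    · have h3 := TotRec.comp_computable₂ (comp_ta (σ := σ) (c := c))
        (TotRec.of_computable (Z := A) Computable.id)
        ((TotRec.pre A).comp (TotRec.of_computable (Computable.list_length.comp
          (comp_dl.comp (Computable.snd.comp Computable.unpair)))))
      refine (h3 : Nat.RecursiveIn _ _).of_eq fun p => ?_
      simp
    · have h3 := TotRec.comp_computable₂ (comp_oa (c := c))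
        (TotRec.of_computable (Z := A) Computable.id)
        ((TotRec.pre A).comp (TotRec.of_computable (Computable.list_length.comp
          (comp_dl.comp (Computable.snd.comp Computable.unpair)))))
      refine (h3 : Nat.RecursiveIn _ _).of_eq fun p => ?_
      simp
    · intro n
      obtain ⟨Y, hY, hc⟩ := hno σ (List.prefix_refl _)
      obtain ⟨s, hs⟩ := (zf_of_computes hc).2 (n + 1)
      have h5 : σ <+: pre Y (max s σ.length) := by
        rw [hY, pre_length]; exact pre_mono Y (le_max_right _ _)
      have h6 : n < (zf c (jns (pre A (pre Y (max s σ.length)).length)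
          (pre Y (max s σ.length)))).length := by
        have h7 := psiS_pre A c Y (max s σ.length)
        rw [psiS] at h7
        rw [h7]
        have h8 : zf c (pre (jn A Y) s) <+: zf c (pre (jn A Y) (2 * max s σ.length)) :=
          zf_pre_mono c _ (by omega)
        exact lt_of_lt_of_le hs h8.length_le
      refine ⟨encode (pre Y (max s σ.length)), ?_⟩
      simp only [ta, Nat.unpair_pair, dl_encode, Pool.Agent.H19.isPre_iff.2 h5, h6, decide_true,
        Bool.and_self, if_true]
    · intro n q hq
      simp only [ta, Nat.unpair_pair, dl_encode] at hq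
      have hF : (isPre σ (dl q) &&
          decide (n < (zf c (jns (pre A (dl q).length) (dl q))).length)) = true := by
        by_contra hno'
        rw [if_neg hno'] at hq
        exact one_ne_zero hq
      rw [Bool.and_eq_true, decide_eq_true_eq] at hF
      have h5 := hps (dl q) (Pool.Agent.H19.isPre_iff.1 hF.1)
      have h6 : psiS A c (dl q) = zf c (jns (pre A (dl q).length) (dl q)) := rfl
      simp only [oa, Nat.unpair_pair, dl_encode]
      rw [← h6, h5, pre_getD Q (by rw [h6]; exact hF.2)]
  have hall : ∀ᶠ Y in residual (ℕ → Bool), ∀ c : Code, ¬ CodeComputes c (jn A Y) Q := by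
    rw [eventually_countable_forall]
    exact hE
  filter_upwards [hall] with Y hY hT
  obtain ⟨c, hc⟩ := exists_codeComputes hT
  exact hY c hc

/-- If above `Q` the operator solves Post's problem, then the value is not given by the join
with a fixed set `A`, for comeager many `Y`. -/
theorem main_generic' (r : Code) {Q : ℕ → Bool}
    (h1 : ∀ Y, TuringReducible (chi (jn Q Y)) (chi (op r (jn Q Y))))
    (h3 : ∀ Y, ¬ TuringReducible (chi (op r (jn Q Y))) (chi (jn Q Y)))
    (h2 : ∀ Y, ¬ TuringReducible (chi (JJ (jn Q Y))) (chi (op r (jn Q Y)))) (A : ℕ → Bool) :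
    ∀ᶠ Y in residual (ℕ → Bool), ¬ Teq (op r (jn Q Y)) (jn A Y) := by
  by_cases hQA : TuringReducible (chi Q) (chi A)
  · by_cases hA : TuringReducible (chi A) (chi Q)
    · refine Filter.Eventually.of_forall fun Y hT => h3 Y (hT.1.trans ?_)
      exact jn_mono hA TuringReducible.rfl
    · exact main_generic r hQA hA h1 h2
  · filter_upwards [avoid hQA] with Y hY hT
    exact hY ((left_le_jn Q Y).trans ((h1 Y).trans hT.1))

end Pool.Agent.RJ
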